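import Mathlib
import Pool.Agent.TH841.SH.ShaDef
import Pool.Agent.TH841.PT.Pen

/-!
# Project LS: large Tate-Shafarevich groups in one-parameter families

`E_t : y² = x (x - A) (x - B)`, `A = D(t) u₀(t)`, `B = D(t) u₁(t)`, `A - B = D(t) u₂(t)`, where `u_k`
has `n_k` irreducible factors, `2 n_k < n₀ + n₁ + n₂` (the pencils of the project PM: all the moments
of the order of the 2-Selmer group of `E_t` are bounded outside of a set of density zero; so the rank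
is small for almost all `t`). Let `W_t = E_t / ⟨(0, 0)⟩ : y² = x³ + 2 (A + B) x² + (A - B)² x`. Then
for almost all `t` the Tate-Shafarevich group of `W_t` contains `(ℤ / 2) ^ k` with
`k ≥ (n₀ + n₁ - n₂ - ε) log log |t|`.

For a squarefree `d > 0` let `χ_d : Gal(ℚ̄ / ℚ) → {0, 1}`, `χ_d(σ) = 1` iff `σ √d ≠ √d`. The cocycle
`c_d = χ_d T`, `T = (0, 0) ∈ W_t`, is trivial over `K ⊇ ℚ` if there is a point `(X, Y) ∈ E_t(K)` with
`X ∈ d K*²`. The group of the `d` for which this is the case over all the completions of `ℚ` is at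
least of the order `2 ^ (#{p | A, p ∤ B} + #{p | B, p ∤ A} - #{p | A - B, p ∤ A B} - O(1))`, and at
most `2 ^ (rank + 2)` of them give the trivial class over `ℚ`.
-/

set_option autoImplicit false

namespace Pool.Agent.TH841.LS

open Finset Polynomial WeierstrassCurve

open Pool.Agent.TH841.SH.D

open Pool.Agent.TH841.PT (EQ Irr)

open Pool.Agent.W262.RK (fs)

/-- the curve `y² = x³ + 2 (A + B) x² + (A - B)² x` -/
def WI (A B : ℤ) : WeierstrassCurve ℚ := ⟨0, 2 * ((A : ℚ) + B), 0, ((A : ℚ) - B) ^ 2, 0⟩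

/-- a point `(X, Y)` of `y² = x (x - A) (x - B)` over `K` with `X ∈ d K*²` -/
def LocI (K : Type) [Field K] (A B d : ℤ) : Prop :=
  ∃ X Y r : K, X ≠ 0 ∧ Y ^ 2 = X * (X - (A : K)) * (X - (B : K)) ∧ X = (d : K) * r ^ 2

/-- the integer `∏ p ^ (ε p)` -/
def dd (G : Finset ℕ) (ε : G → ZMod 2) : ℤ := ∏ p : G, if ε p = 1 then ((p : ℕ) : ℤ) else 1

lemma ns0 {A B : ℤ} (h : A ≠ B) (L : Type) [Field L] [Algebra ℚ L] :
    ((WI A B).baseChange L).toAffine.Nonsingular 0 0 := by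
  rw [Affine.nonsingular_zero]
  have hne : ((A : ℚ) - B) ^ 2 ≠ 0 := pow_ne_zero 2 (sub_ne_zero.2 (by exact_mod_cast h))
  refine ⟨?_, Or.inr ?_⟩
  · exact map_zero (algebraMap ℚ L)
  · intro h0
    exact hne ((algebraMap ℚ L).injective (by rw [map_zero]; exact h0))

/-- the point `(0, 0)` -/
def T0 {A B : ℤ} (h : A ≠ B) (L : Type) [Field L] [Algebra ℚ L] : Pt (WI A B) L :=
  Affine.Point.some 0 0 (ns0 h L)

open Classical in
/-- the cocycle `χ_d T` -/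
noncomputable def coc {A B : ℤ} (h : A ≠ B) (d : ℤ) : Coch (WI A B) := fun σ =>
  if ∃ s : AlgebraicClosure ℚ, s ^ 2 = (d : AlgebraicClosure ℚ) ∧ σ s ≠ s then
    T0 h (AlgebraicClosure ℚ) else 0

/-! ### Tate-Shafarevich groups -/

/-- LS-COC: `χ_d T` is a continuous cocycle, `χ_d T` is a homomorphism in `d`, with values killed by
two. -/
def COC : Prop := ∀ (A B : ℤ) (h : A ≠ B),
  (∀ d : ℤ, IsCoc (WI A B) (coc h d)) ∧ (∀ d : ℤ, coc h d + coc h d = 0) ∧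
  ∀ (G : Finset ℕ), (∀ p ∈ G, p.Prime) → ∀ ε ε' : G → ZMod 2,
    coc h (dd G (ε + ε')) = coc h (dd G ε) + coc h (dd G ε')

/-- LS-LOT: local triviality. -/
def LOT : Prop := ∀ (A B : ℤ) (h : A ≠ B) (d : ℤ), A ≠ 0 → B ≠ 0 → d ≠ 0 →
  ∀ (K : Type) [Field K] [Algebra ℚ K], LocI K A B d → LocTriv (WI A B) K (coc h d)

/-- LS-COB: if `χ_d T` is a coboundary then `d` comes from a rational point. -/
def COB : Prop := ∀ (A B : ℤ) (h : A ≠ B) (d : ℤ), A ≠ 0 → B ≠ 0 → d ≠ 0 →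
  IsCob (WI A B) (coc h d) → IsSquare (d : ℚ) ∨ IsSquare ((d : ℚ) * (A * B)) ∨ LocI ℚ A B d

/-- LS-KER: the number of the classes that come from rational points. -/
def KER : Prop := ∀ (A B : ℤ), A ≠ B → A ≠ 0 → B ≠ 0 → ∀ (G : Finset ℕ), (∀ p ∈ G, p.Prime) →
  ∀ S : Finset (G → ZMod 2), (∀ ε ∈ S, IsSquare (dd G ε : ℚ) ∨
    IsSquare ((dd G ε : ℚ) * (A * B)) ∨ LocI ℚ A B (dd G ε)) →
  S.card ≤ 2 ^ (rk (EQ A B) + 2)

/-- the consequence: a lower bound for the Tate-Shafarevich group -/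
def SHL : Prop := ∀ (A B : ℤ), A ≠ B → A ≠ 0 → B ≠ 0 → ∀ (G : Finset ℕ), (∀ p ∈ G, p.Prime) →
  ∀ V : Submodule (ZMod 2) (G → ZMod 2),
  (∀ ε ∈ V, (∀ (p : ℕ) [Fact p.Prime], LocI ℚ_[p] A B (dd G ε)) ∧ LocI ℝ A B (dd G ε)) →
  ∃ k : ℕ, Module.finrank (ZMod 2) V ≤ k + rk (EQ A B) + 2 ∧
    ∃ φ : (Fin k → ZMod 2) →+ Sha (WI A B), Function.Injective φ

/-! ### The local conditions -/

/-- LS-LOCA: units at the primes not dividing `A - B`. -/
def LOCA : Prop := ∀ (p : ℕ) [Fact p.Prime] (A B d : ℤ), 11 ≤ p → A ≠ 0 → B ≠ 0 →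
  ¬ (p : ℤ) ∣ A - B → ¬ (p : ℤ) ∣ d → LocI ℚ_[p] A B d

/-- LS-LOCB: primes with odd valuation of `A`, not dividing `B`. -/
def LOCB : Prop := ∀ (p : ℕ) [Fact p.Prime] (A B d : ℤ), 11 ≤ p → A ≠ 0 → B ≠ 0 → d ≠ 0 →
  ¬ (p : ℤ) ∣ B → Odd (padicValInt p A) → (p : ℤ) ∣ d → ¬ (p : ℤ) ^ 2 ∣ d → LocI ℚ_[p] A B d

/-- LS-LOCC: squares. -/
def LOCC : Prop := ∀ (A B d : ℤ), A ≠ 0 → B ≠ 0 → A ≠ B → d ≠ 0 →
  (∀ (p : ℕ) [Fact p.Prime], (IsSquare (d : ℚ_[p]) ∨ IsSquare ((d : ℚ_[p]) * A)) →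
    LocI ℚ_[p] A B d) ∧ (0 < d → LocI ℝ A B d)

/-- LS-LIN: linear algebra: a large space of `ε` for which `dd G ε` is a square at the primes of `C1`
and `2`, and a square or a square times `A` at the primes of `C2`. -/
def LIN : Prop := ∀ (A : ℤ) (G C1 C2 : Finset ℕ), (∀ p ∈ G, p.Prime ∧ p ≠ 2) →
  (∀ p ∈ C1, p.Prime ∧ p ≠ 2 ∧ p ∉ G) → (∀ p ∈ C2, p ∈ G ∧ Odd (padicValInt p A)) →
  ∃ V : Submodule (ZMod 2) (G → ZMod 2),
    G.card ≤ Module.finrank (ZMod 2) V + C1.card + C2.card + 2 ∧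
    ∀ ε ∈ V, (∀ (p : ℕ) [Fact p.Prime], p ∈ C1 ∨ p = 2 → IsSquare (dd G ε : ℚ_[p])) ∧
      ∀ (p : ℕ) [Fact p.Prime], p ∈ C2 → IsSquare (dd G ε : ℚ_[p]) ∨
        IsSquare ((dd G ε : ℚ_[p]) * A)

/-- the primes where the local condition is empty -/
def GA (A B : ℤ) : Finset ℕ := (A * B).natAbs.primeFactors.filter (fun p => 11 ≤ p ∧
  ¬ (p : ℤ) ∣ A - B ∧ (Odd (padicValInt p A) ∨ Odd (padicValInt p B)))

/-- the primes where the local condition is of codimension one, for the units -/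
def C1 (A B : ℤ) : Finset ℕ := (A - B).natAbs.primeFactors.filter (fun p => 11 ≤ p ∧
  ¬ Odd (padicValInt p A))

/-! ### The counts -/

open Classical in
/-- LS-CNT: for almost all `t`, at least `(n₀ + n₁ - n₂ - δ) log log M` primes. -/
def CNT : Prop := ∀ (J : Type) [Fintype J] [DecidableEq J] (cls : J → Fin 4) (a : Fin 3 → ℤ)
  (f : J → ℤ[X]), (∀ k, a k ≠ 0) → Irr f →
  C (a 0) * ∏ l ∈ fs cls 0, f l - C (a 1) * ∏ l ∈ fs cls 1, f l =
    C (a 2) * ∏ l ∈ fs cls 2, f l →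
  ∀ (δ ε : ℝ) (L : ℕ), 0 < δ → 0 < ε → ∃ M0 : ℕ, ∀ (N : ℤ) (M : ℕ), M0 ≤ M →
    |N| ≤ (M : ℤ) ^ L →
    (((Ioc N (N + (M : ℤ))).filter (fun t => ¬ ((∀ j, (f j).eval t ≠ 0) ∧
      (((univ.filter (fun j => cls j = 0)).card : ℝ) + (univ.filter (fun j => cls j = 1)).card -
        (univ.filter (fun j => cls j = 2)).card - δ) * Real.log (Real.log M) +
      ((C1 (PT.Fval cls a (fun l => (f l).eval t) 0)
        (PT.Fval cls a (fun l => (f l).eval t) 1)).card : ℝ) ≤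
      ((GA (PT.Fval cls a (fun l => (f l).eval t) 0)
        (PT.Fval cls a (fun l => (f l).eval t) 1)).card : ℝ)))).card : ℝ) ≤ ε * M

end Pool.Agent.TH841.LS
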