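import Mathlib
import Pool.Agent.TH841.LS.Stm

/-!
# Project LS, sharp version

At a prime `p` dividing exactly one of the factors of `A - B`, not dividing `A`, there is no local
condition for the units if `A` is not a square modulo `p` (the point `(A, 0)`). At a prime `p`
dividing `A`, `B`, `A - B` exactly once there is no local condition at all if `A B / p ^ 2` is not a
square modulo `p` (the points `(A, 0)`, `(B, 0)` and points near `(0, 0)`).
-/

set_option autoImplicit false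

namespace Pool.Agent.TH841.LS

open Finset Polynomial

open Pool.Agent.TH841.PT (Irr)

open Pool.Agent.W262.RK (fs)

/-- `x = p ^ (2 k) u` with a quadratic nonresidue `u` modulo `p` -/
def NR (p : ℕ) (x : ℤ) : Prop := ∃ (k : ℕ) (u : ℤ), x = (p : ℤ) ^ (2 * k) * u ∧
  jacobiSym u p = -1

/-- the primes dividing both `A` and `B` with odd valuation of `A` -/
def GD (A B : ℤ) : Finset ℕ := (A - B).natAbs.primeFactors.filter (fun p => 11 ≤ p ∧
  Odd (padicValInt p A))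

open Classical in
/-- the primes not dividing `A` (or with even valuation) where the units satisfy a condition -/
noncomputable def C1x (A B : ℤ) : Finset ℕ := (A - B).natAbs.primeFactors.filter (fun p => 11 ≤ p ∧
  ¬ Odd (padicValInt p A) ∧ jacobiSym A p ≠ -1)

open Classical in
/-- the primes with odd valuation of `A` where there is a condition -/
noncomputable def C2x (A B : ℤ) : Finset ℕ := (A - B).natAbs.primeFactors.filter (fun p => 11 ≤ p ∧
  Odd (padicValInt p A) ∧ ¬ NR p (A * B))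

/-- LS-LOCD: the classes `1`, `A`, `B`, `A B` are all the classes. -/
def LOCD : Prop := ∀ (p : ℕ) [Fact p.Prime] (A B d : ℤ), p ≠ 2 → A ≠ 0 → B ≠ 0 → A ≠ B → d ≠ 0 →
  Odd (padicValInt p A) → NR p (A * B) → LocI ℚ_[p] A B d

/-- LS-LOCE: units at the primes dividing `A - B` with `A` a nonresidue. -/
def LOCE : Prop := ∀ (p : ℕ) [Fact p.Prime] (A B d : ℤ), p ≠ 2 → A ≠ 0 → B ≠ 0 → A ≠ B →
  d ≠ 0 → ¬ (p : ℤ) ∣ d → jacobiSym A p = -1 → LocI ℚ_[p] A B d

open Classical in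
/-- LS-TKX: for almost all `t` the sum of the symbols `(w(t) / p)` over the prime factors `p` of
`f(t)` is small, if `w` is not a square modulo `f`. -/
def TKX : Prop := ∀ f w : ℤ[X], Irreducible f → 0 < f.natDegree →
  (∀ q : ℚ[X], ¬ f.map (Int.castRingHom ℚ) ∣ (q ^ 2 - w.map (Int.castRingHom ℚ))) →
  ∀ (δ ε : ℝ) (L : ℕ), 0 < δ → 0 < ε → ∃ M0 : ℕ, ∀ (N : ℤ) (M : ℕ), M0 ≤ M →
    |N| ≤ (M : ℤ) ^ L → (((Ioc N (N + (M : ℤ))).filter (fun t => ¬
      ((∑ p ∈ (f.eval t).natAbs.primeFactors, (jacobiSym (w.eval t) p : ℝ)) ≤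
        δ * Real.log (Real.log M)))).card : ℝ) ≤ ε * M

/-- `v` is a square modulo `f`, over the rationals -/
def SqMod (f v : ℤ[X]) : Prop := ∃ q : ℚ[X], f.map (Int.castRingHom ℚ) ∣
  (q ^ 2 - v.map (Int.castRingHom ℚ))

open Classical in
/-- the sharp constant -/
noncomputable def cst {J : Type} [Fintype J] [DecidableEq J] (cls : J → Fin 4) (a : Fin 3 → ℤ)
    (f : J → ℤ[X]) : ℝ :=
  ((univ.filter (fun j => cls j = 0)).card : ℝ) + (univ.filter (fun j => cls j = 1)).card -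
    ((univ.filter (fun j => cls j = 2)).card +
      (univ.filter (fun j => cls j = 2 ∧ SqMod (f j) (C (a 0) * ∏ l ∈ fs cls 0, f l))).card) / 2 +
    ((univ.filter (fun j => cls j = 3 ∧ ¬ SqMod (f j) (C (a 0 * a 1) *
      ((∏ l ∈ univ.filter (fun l => cls l = 0), f l) *
        ∏ l ∈ univ.filter (fun l => cls l = 1), f l)))).card : ℝ) / 2

open Classical in
/-- LS-CNTX: the sharp count for almost all `t`. -/
def CNTX : Prop := ∀ (J : Type) [Fintype J] [DecidableEq J] (cls : J → Fin 4) (a : Fin 3 → ℤ)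
  (f : J → ℤ[X]), (∀ k, a k ≠ 0) → Irr f →
  C (a 0) * ∏ l ∈ fs cls 0, f l - C (a 1) * ∏ l ∈ fs cls 1, f l =
    C (a 2) * ∏ l ∈ fs cls 2, f l →
  ∀ (δ ε : ℝ) (L : ℕ), 0 < δ → 0 < ε → ∃ M0 : ℕ, ∀ (N : ℤ) (M : ℕ), M0 ≤ M →
    |N| ≤ (M : ℤ) ^ L →
    (((Ioc N (N + (M : ℤ))).filter (fun t => ¬ ((∀ j, (f j).eval t ≠ 0) ∧
      (cst cls a f - δ) * Real.log (Real.log M) +
      ((C1x (PT.Fval cls a (fun l => (f l).eval t) 0)
        (PT.Fval cls a (fun l => (f l).eval t) 1)).card : ℝ) +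
      ((C2x (PT.Fval cls a (fun l => (f l).eval t) 0)
        (PT.Fval cls a (fun l => (f l).eval t) 1)).card : ℝ) ≤
      ((GA (PT.Fval cls a (fun l => (f l).eval t) 0)
        (PT.Fval cls a (fun l => (f l).eval t) 1)).card : ℝ) +
      ((GD (PT.Fval cls a (fun l => (f l).eval t) 0)
        (PT.Fval cls a (fun l => (f l).eval t) 1)).card : ℝ)))).card : ℝ) ≤ ε * M

open Classical in
/-- LS-CNT2X: the sharp count for almost all coprime pairs of short squares. -/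
def CNT2X : Prop := ∀ (D : ℤ), D ≠ 0 → ∀ (δ ε : ℝ) (L : ℕ), 0 < δ → 0 < ε →
  ∃ X0 : ℕ, ∀ (N1 N2 : ℤ) (X : ℕ), X0 ≤ X → N1.natAbs ≤ X ^ L → N2.natAbs ≤ X ^ L →
    (((Icc 1 X ×ˢ Icc 1 X).filter (fun t : ℕ × ℕ =>
      IsCoprime (N1 + (t.1 : ℤ)) (N2 + (t.2 : ℤ)) ∧
      ¬ (N1 + (t.1 : ℤ) ≠ 0 ∧ N2 + (t.2 : ℤ) ≠ 0 ∧ N1 + (t.1 : ℤ) ≠ N2 + (t.2 : ℤ) ∧
        (3 / 2 - δ) * Real.log (Real.log X) +
          ((C1x (D * (N1 + (t.1 : ℤ))) (D * (N2 + (t.2 : ℤ)))).card : ℝ) +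
          ((C2x (D * (N1 + (t.1 : ℤ))) (D * (N2 + (t.2 : ℤ)))).card : ℝ) ≤
        ((GA (D * (N1 + (t.1 : ℤ))) (D * (N2 + (t.2 : ℤ)))).card : ℝ) +
        ((GD (D * (N1 + (t.1 : ℤ))) (D * (N2 + (t.2 : ℤ)))).card : ℝ)))).card : ℝ) ≤ ε * X ^ 2

end Pool.Agent.TH841.LS
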