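import Mathlib
import Pool.Agent.TH841.LS.Stm3
import Pool.Agent.TH374.LS.TK

/-!
# Project LS: the sharp counts for almost all coprime pairs of a short square

Written by helper374 for helper841 (job 4417).
-/

set_option autoImplicit false

namespace Pool.Agent.TH841.LS.CNT2Xf

open Finset

open Pool.Agent.TH374.LS (WW EE tk sqf smx loglog_large)

/-! ### Counting pairs -/

open Classical in
/-- the number of the pairs with a property -/
noncomputable def cc (X : ℕ) (q : ℕ × ℕ → Prop) : ℝ :=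
  (((Icc 1 X ×ˢ Icc 1 X).filter (fun t : ℕ × ℕ => q t)).card : ℝ)

lemma cc_eq (X : ℕ) (q : ℕ × ℕ → Prop) [DecidablePred q] :
    (((Icc 1 X ×ˢ Icc 1 X).filter (fun t : ℕ × ℕ => q t)).card : ℝ) = cc X q := by
  unfold cc
  congr

lemma cc_mono {X : ℕ} {q r : ℕ × ℕ → Prop}
    (h : ∀ t ∈ Icc 1 X ×ˢ Icc 1 X, q t → r t) : cc X q ≤ cc X r := by
  classical
  unfold cc
  have : (Icc 1 X ×ˢ Icc 1 X).filter (fun t : ℕ × ℕ => q t) ⊆
      (Icc 1 X ×ˢ Icc 1 X).filter (fun t : ℕ × ℕ => r t) := by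
    intro t ht
    obtain ⟨h1, h2⟩ := mem_filter.1 ht
    exact mem_filter.2 ⟨h1, h t h1 h2⟩
  exact_mod_cast card_le_card this

lemma cc_or (X : ℕ) (q r : ℕ × ℕ → Prop) : cc X (fun t => q t ∨ r t) ≤ cc X q + cc X r := by
  classical
  have h : (Icc 1 X ×ˢ Icc 1 X).filter (fun t : ℕ × ℕ => q t ∨ r t) ⊆
      (Icc 1 X ×ˢ Icc 1 X).filter (fun t : ℕ × ℕ => q t) ∪
      (Icc 1 X ×ˢ Icc 1 X).filter (fun t : ℕ × ℕ => r t) := by
    intro t ht
    obtain ⟨h1, h2⟩ := mem_filter.1 ht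
    rw [mem_union, mem_filter, mem_filter]
    exact h2.imp (fun h => ⟨h1, h⟩) (fun h => ⟨h1, h⟩)
  have h3 : (((Icc 1 X ×ˢ Icc 1 X).filter (fun t : ℕ × ℕ => q t ∨ r t)).card : ℝ) ≤
      (((Icc 1 X ×ˢ Icc 1 X).filter (fun t : ℕ × ℕ => q t)).card : ℝ) +
      (((Icc 1 X ×ˢ Icc 1 X).filter (fun t : ℕ × ℕ => r t)).card : ℝ) := by
    exact_mod_cast (card_le_card h).trans (card_union_le _ _)
  rw [cc_eq, cc_eq, cc_eq] at h3
  exact h3

lemma cc_fst {X : ℕ} {q : ℕ × ℕ → Prop} {c : ℝ}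
    (h : ∀ t2 ∈ Icc 1 X, ∀ inst : DecidablePred (fun t1 => q (t1, t2)),
      (((Icc 1 X).filter (fun t1 => q (t1, t2))).card : ℝ) ≤ c) : cc X q ≤ c * X := by
  classical
  unfold cc
  rw [card_filter, Finset.sum_product_right]
  push_cast
  have h1 : ∀ t2 ∈ Icc 1 X, ∑ t1 ∈ Icc 1 X, (if q (t1, t2) then (1 : ℝ) else 0) ≤ c := by
    intro t2 ht2
    have h2 := h t2 ht2 (fun _ => Classical.propDecidable _)
    rw [card_filter] at h2
    push_cast at h2
    exact h2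
  refine (sum_le_sum h1).trans ?_
  simp only [sum_const, Nat.card_Icc, Nat.add_sub_cancel, nsmul_eq_mul]
  apply le_of_eq
  ring

lemma cc_snd {X : ℕ} {q : ℕ × ℕ → Prop} {c : ℝ}
    (h : ∀ t1 ∈ Icc 1 X, ∀ inst : DecidablePred (fun t2 => q (t1, t2)),
      (((Icc 1 X).filter (fun t2 => q (t1, t2))).card : ℝ) ≤ c) : cc X q ≤ c * X := by
  classical
  unfold cc
  rw [card_filter, Finset.sum_product]
  push_cast
  have h1 : ∀ t1 ∈ Icc 1 X, ∑ t2 ∈ Icc 1 X, (if q (t1, t2) then (1 : ℝ) else 0) ≤ c := by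
    intro t1 ht1
    have h2 := h t1 ht1 (fun _ => Classical.propDecidable _)
    rw [card_filter] at h2
    push_cast at h2
    exact h2
  refine (sum_le_sum h1).trans ?_
  simp only [sum_const, Nat.card_Icc, Nat.add_sub_cancel, nsmul_eq_mul]
  apply le_of_eq
  ring

/-! ### Arithmetic -/

lemma GA_comm (A B : ℤ) : GA A B = GA B A := by
  unfold GA
  rw [mul_comm A B]
  refine filter_congr fun p _ => ?_
  rw [dvd_sub_comm, or_comm]

lemma not_both {a b : ℤ} (hc : IsCoprime a b) {p : ℕ} (hp : p.Prime) (h1 : (p : ℤ) ∣ a)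
    (h2 : (p : ℤ) ∣ b) : False := by
  have h := hc.isUnit_of_dvd' h1 h2
  rw [Int.isUnit_iff] at h
  have := hp.one_lt
  omega

lemma sub_GA {D a b : ℤ} (hD : D ≠ 0) (ha : a ≠ 0) (hb : b ≠ 0)
    (hc : IsCoprime a b) : a.natAbs.primeFactors.filter (fun p => 11 ≤ p) ⊆
      ((GA (D * a) (D * b)).filter (fun p : ℕ => (p : ℤ) ∣ a)) ∪
      ((a.natAbs.primeFactors.filter (fun p => 11 ≤ p ∧ ((p ^ 2 : ℕ) : ℤ) ∣ a)) ∪
        D.natAbs.primeFactors) := by
  intro p hp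
  obtain ⟨h1, h2⟩ := mem_filter.1 hp
  have hpp := Nat.prime_of_mem_primeFactors h1
  have : Fact p.Prime := ⟨hpp⟩
  have hpi : Prime (p : ℤ) := Nat.prime_iff_prime_int.1 hpp
  have hpa : (p : ℤ) ∣ a := Int.natCast_dvd.2 (Nat.dvd_of_mem_primeFactors h1)
  rw [mem_union, mem_union]
  by_cases h3 : (p : ℤ) ∣ D
  · right; right
    exact Nat.mem_primeFactors.2 ⟨hpp, Int.natCast_dvd.1 h3, by simpa using hD⟩
  by_cases h4 : ((p ^ 2 : ℕ) : ℤ) ∣ a
  · right; left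
    exact mem_filter.2 ⟨h1, h2, h4⟩
  left
  have hpb : ¬ (p : ℤ) ∣ b := fun h => not_both hc hpp hpa h
  refine mem_filter.2 ⟨?_, hpa⟩
  unfold GA
  refine mem_filter.2 ⟨?_, h2, ?_, Or.inl ?_⟩
  · refine Nat.mem_primeFactors.2 ⟨hpp, Int.natCast_dvd.1 ?_, ?_⟩
    · exact Dvd.dvd.mul_right (Dvd.dvd.mul_left hpa D) _
    · have : D * a * (D * b) ≠ 0 := mul_ne_zero (mul_ne_zero hD ha) (mul_ne_zero hD hb)
      simpa using this
  · intro h
    rw [← mul_sub] at h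
    rcases hpi.dvd_or_dvd h with h | h
    · exact h3 h
    · exact hpb ((dvd_sub_right hpa).1 h)
  · have h5 : padicValInt p (D * a) = 1 := by
      rw [padicValInt.mul hD ha, padicValInt.eq_zero_of_not_dvd h3, zero_add]
      have h6 := (padicValInt_dvd_iff (p := p) 1 a).1 (by simpa using hpa)
      have h7 : ¬ 2 ≤ padicValInt p a := by
        intro h
        apply h4
        have := (padicValInt_dvd_iff (p := p) 2 a).2 (Or.inr h)
        push_cast
        exact this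
      rcases h6 with h6 | h6
      · exact absurd h6 ha
      · omega
    rw [h5]
    exact odd_one

lemma GA_ge {D a b : ℤ} (hD : D ≠ 0) (ha : a ≠ 0) (hb : b ≠ 0) (hc : IsCoprime a b) :
    WW a + WW b ≤ (GA (D * a) (D * b)).card + EE a + EE b + 2 * D.natAbs.primeFactors.card := by
  have h1 := card_le_card (sub_GA hD ha hb hc)
  have h2 := card_le_card (sub_GA hD hb ha hc.symm)
  have h3 := h1.trans ((card_union_le _ _).trans (Nat.add_le_add_left (card_union_le _ _) _))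
  have h4 := h2.trans ((card_union_le _ _).trans (Nat.add_le_add_left (card_union_le _ _) _))
  rw [GA_comm (D * b) (D * a)] at h4
  have h5 : ((GA (D * a) (D * b)).filter (fun p : ℕ => (p : ℤ) ∣ a)).card +
      ((GA (D * a) (D * b)).filter (fun p : ℕ => (p : ℤ) ∣ b)).card ≤
        (GA (D * a) (D * b)).card := by
    rw [← card_union_of_disjoint]
    · exact card_le_card (union_subset (filter_subset _ _) (filter_subset _ _))
    · rw [disjoint_left]
      intro p hp1 hp2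
      obtain ⟨h6, h7⟩ := mem_filter.1 hp1
      obtain ⟨_, h8⟩ := mem_filter.1 hp2
      unfold GA at h6
      exact not_both hc (Nat.prime_of_mem_primeFactors (mem_filter.1 h6).1) h7 h8
  unfold WW EE
  omega

lemma C1x_le {D a b : ℤ} (hD : D ≠ 0) (hab : a ≠ b) (hc : IsCoprime a b) :
    ((C1x (D * a) (D * b)).card : ℝ) ≤ D.natAbs.primeFactors.card + ((WW (a - b) : ℝ) +
      ∑ p ∈ (a - b).natAbs.primeFactors.filter (fun p => 11 ≤ p),
        (jacobiSym (D * a) p : ℝ)) / 2 := by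
  classical
  set S := (a - b).natAbs.primeFactors.filter (fun p => 11 ≤ p) with hS
  have h1 : C1x (D * a) (D * b) ⊆ D.natAbs.primeFactors ∪
      S.filter (fun p => jacobiSym (D * a) p = 1) := by
    intro p hp
    unfold C1x at hp
    obtain ⟨h1, h2, _, h3⟩ := mem_filter.1 hp
    have hpp := Nat.prime_of_mem_primeFactors h1
    have hpi : Prime (p : ℤ) := Nat.prime_iff_prime_int.1 hpp
    have h4 : (p : ℤ) ∣ D * a - D * b := Int.natCast_dvd.2 (Nat.dvd_of_mem_primeFactors h1)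
    rw [← mul_sub] at h4
    rw [mem_union]
    by_cases h5 : (p : ℤ) ∣ D
    · left
      exact Nat.mem_primeFactors.2 ⟨hpp, Int.natCast_dvd.1 h5, by simpa using hD⟩
    · right
      have h6 : (p : ℤ) ∣ a - b := (hpi.dvd_or_dvd h4).resolve_left h5
      have h7 : ¬ (p : ℤ) ∣ a := by
        intro h
        exact not_both hc hpp h ((dvd_sub_right h).1 h6)
      refine mem_filter.2 ⟨mem_filter.2 ⟨Nat.mem_primeFactors.2 ⟨hpp, Int.natCast_dvd.1 h6, ?_⟩,
        h2⟩, ?_⟩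
      · have := sub_ne_zero.2 hab
        simpa using this
      · have h8 : ¬ (p : ℤ) ∣ D * a := fun h => (hpi.dvd_or_dvd h).elim h5 h7
        have h9 : (D * a).gcd p = 1 := by
          have h10 := (hpi.coprime_iff_not_dvd.2 h8).symm
          exact Int.isCoprime_iff_gcd_eq_one.1 h10
        have h10 := jacobiSym.ne_zero h9
        rcases jacobiSym.trichotomy (D * a) p with h | h | h
        · exact absurd h h10
        · exact h
        · exact absurd h h3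
  have h2 := (card_le_card h1).trans (card_union_le _ _)
  have h3 : ((S.filter (fun p => jacobiSym (D * a) p = 1)).card : ℝ) ≤
      ((WW (a - b) : ℝ) + ∑ p ∈ S, (jacobiSym (D * a) p : ℝ)) / 2 := by
    have h4 : ((WW (a - b) : ℝ) + ∑ p ∈ S, (jacobiSym (D * a) p : ℝ)) / 2 =
        ∑ p ∈ S, ((1 : ℝ) + (jacobiSym (D * a) p : ℝ)) / 2 := by
      rw [← sum_div, sum_add_distrib, sum_const, nsmul_eq_mul, mul_one]
      rfl
    rw [h4, card_filter]
    push_cast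
    refine sum_le_sum fun p _ => ?_
    have h5 := Pool.Agent.TH374.LS.abs_J_le (D * a) p
    rw [abs_le] at h5
    split_ifs with h
    · rw [h]; norm_num
    · linarith [h5.1]
  have h2R : ((C1x (D * a) (D * b)).card : ℝ) ≤ D.natAbs.primeFactors.card +
      (S.filter (fun p => jacobiSym (D * a) p = 1)).card := by exact_mod_cast h2
  linarith

lemma C2x_le {D a b : ℤ} (hD : D ≠ 0) (hc : IsCoprime a b) :
    (C2x (D * a) (D * b)).card ≤ D.natAbs.primeFactors.card := by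
  classical
  apply card_le_card
  intro p hp
  unfold C2x at hp
  obtain ⟨h1, h2, h3, _⟩ := mem_filter.1 hp
  have hpp := Nat.prime_of_mem_primeFactors h1
  have : Fact p.Prime := ⟨hpp⟩
  have hpi : Prime (p : ℤ) := Nat.prime_iff_prime_int.1 hpp
  have h4 : (p : ℤ) ∣ D * a - D * b := Int.natCast_dvd.2 (Nat.dvd_of_mem_primeFactors h1)
  rw [← mul_sub] at h4
  by_contra h5
  have h5' : ¬ (p : ℤ) ∣ D := fun h =>
    h5 (Nat.mem_primeFactors.2 ⟨hpp, Int.natCast_dvd.1 h, by simpa using hD⟩)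
  have h6 : (p : ℤ) ∣ a - b := (hpi.dvd_or_dvd h4).resolve_left h5'
  have h7 : (p : ℤ) ∣ D * a := by
    by_contra h
    rw [padicValInt.eq_zero_of_not_dvd h] at h3
    exact absurd h3 (by decide)
  have h8 : (p : ℤ) ∣ a := (hpi.dvd_or_dvd h7).resolve_left h5'
  exact not_both hc hpp h8 ((dvd_sub_right h8).1 h6)

/-! ### The count -/

lemma card_le_one_of {X : ℕ} {q : ℕ → Prop} [DecidablePred q]
    (h : ∀ s t, q s → q t → s = t) : (((Icc 1 X).filter q).card : ℝ) ≤ 1 := by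
  have : ((Icc 1 X).filter q).card ≤ 1 := by
    rw [card_le_one]
    intro s hs t ht
    exact h s t (mem_filter.1 hs).2 (mem_filter.1 ht).2
  exact_mod_cast this

/-- LS-CNT2X -/
theorem cnt2x : Pool.Agent.TH841.LS.CNT2X := by
  classical
  intro D hD δ ε L hδ hε
  set w : ℝ := (D.natAbs.primeFactors.card : ℝ) with hw
  have hw0 : 0 ≤ w := Nat.cast_nonneg _
  have hδ' : 0 < δ / 8 := by positivity
  have hε' : 0 < ε / 9 := by positivity
  obtain ⟨X1, h1⟩ := tk (δ / 8) (ε / 9) (L + 2) hδ' hε'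
  obtain ⟨X2, h2⟩ := sqf (δ / 8) (ε / 9) L hδ' hε'
  obtain ⟨X3, h3⟩ := smx D (δ / 8) (ε / 9) L hδ' hε'
  obtain ⟨X4, hX43, h4⟩ := loglog_large (max (32 * w / (3 * δ)) 1)
  obtain ⟨X5, h5⟩ := exists_nat_gt (9 / ε)
  refine ⟨max (max (max X1 X2) (max X3 X4)) X5, fun N1 N2 X hX hN1 hN2 => ?_⟩
  have hX1 : X1 ≤ X := le_trans (le_trans (le_trans (le_max_left _ _) (le_max_left _ _))
    (le_max_left _ _)) hX
  have hX2 : X2 ≤ X := le_trans (le_trans (le_trans (le_max_right _ _) (le_max_left _ _))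
    (le_max_left _ _)) hX
  have hX3 : X3 ≤ X := le_trans (le_trans (le_trans (le_max_left _ _) (le_max_right _ _))
    (le_max_left _ _)) hX
  have hX4 : X4 ≤ X := le_trans (le_trans (le_trans (le_max_right _ _) (le_max_right _ _))
    (le_max_left _ _)) hX
  have hX5 : X5 ≤ X := le_trans (le_max_right _ _) hX
  have hXthree : 3 ≤ X := hX43.trans hX4
  have hLL := h4 X hX4
  set l := Real.log (Real.log X) with hl
  have hl1 : 32 * w / (3 * δ) ≤ l := (le_max_left _ _).trans hLL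
  have hl0 : 1 ≤ l := (le_max_right _ _).trans hLL
  have hwl : 4 * w ≤ 3 / 8 * δ * l := by
    rw [div_le_iff₀ (by positivity)] at hl1
    linarith
  have hXR : (0 : ℝ) < X := by
    have : 0 < X := by omega
    exact_mod_cast this
  have hX9 : 1 * (X : ℝ) ≤ ε / 9 * X ^ 2 := by
    have h6 : 9 / ε < X := h5.trans_le (by exact_mod_cast hX5)
    rw [div_lt_iff₀ hε] at h6
    have h7 : 1 ≤ ε / 9 * X := by linarith
    calc 1 * (X : ℝ) ≤ (ε / 9 * X) * X := by gcongr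
      _ = _ := by ring
  have hpow : X ^ L ≤ X ^ (L + 2) := Nat.pow_le_pow_right (by omega) (by omega)
  -- the sets
  set q1 : ℕ × ℕ → Prop := fun t => N1 + (t.1 : ℤ) = 0 with hq1
  set q2 : ℕ × ℕ → Prop := fun t => N2 + (t.2 : ℤ) = 0 with hq2
  set q3 : ℕ × ℕ → Prop := fun t => N1 + (t.1 : ℤ) = N2 + (t.2 : ℤ) with hq3
  set q4 : ℕ × ℕ → Prop := fun t => N1 + (t.1 : ℤ) ≠ 0 ∧
    δ / 8 * l < |(WW (N1 + (t.1 : ℤ)) : ℝ) - l| with hq4
  set q5 : ℕ × ℕ → Prop := fun t => N2 + (t.2 : ℤ) ≠ 0 ∧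
    δ / 8 * l < |(WW (N2 + (t.2 : ℤ)) : ℝ) - l| with hq5
  set q6 : ℕ × ℕ → Prop := fun t => (N1 - N2 - (t.2 : ℤ)) + (t.1 : ℤ) ≠ 0 ∧
    δ / 8 * l < |(WW ((N1 - N2 - (t.2 : ℤ)) + (t.1 : ℤ)) : ℝ) - l| with hq6
  set q7 : ℕ × ℕ → Prop := fun t => N1 + (t.1 : ℤ) ≠ 0 ∧
    δ / 8 * l < (EE (N1 + (t.1 : ℤ)) : ℝ) with hq7
  set q8 : ℕ × ℕ → Prop := fun t => N2 + (t.2 : ℤ) ≠ 0 ∧
    δ / 8 * l < (EE (N2 + (t.2 : ℤ)) : ℝ) with hq8
  set q9 : ℕ × ℕ → Prop := fun t => N1 + (t.1 : ℤ) ≠ N2 + (t.2 : ℤ) ∧ δ / 8 * l <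
      ∑ p ∈ ((N1 + (t.1 : ℤ)) - (N2 + (t.2 : ℤ))).natAbs.primeFactors.filter (fun p => 11 ≤ p),
        (jacobiSym (D * (N1 + (t.1 : ℤ))) p : ℝ) with hq9
  have c1 : cc X q1 ≤ ε / 9 * X ^ 2 := by
    refine (cc_fst fun t2 _ inst => ?_).trans hX9
    exact card_le_one_of fun s t hs ht => by simp only [hq1] at hs ht; omega
  have c2 : cc X q2 ≤ ε / 9 * X ^ 2 := by
    refine (cc_snd fun t1 _ inst => ?_).trans hX9
    exact card_le_one_of fun s t hs ht => by simp only [hq2] at hs ht; omega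
  have c3 : cc X q3 ≤ ε / 9 * X ^ 2 := by
    refine (cc_fst fun t2 _ inst => ?_).trans hX9
    exact card_le_one_of fun s t hs ht => by simp only [hq3] at hs ht; omega
  have hXX : ε / 9 * (X : ℝ) * X = ε / 9 * X ^ 2 := by ring
  have c4 : cc X q4 ≤ ε / 9 * X ^ 2 := by
    rw [← hXX]
    refine cc_fst fun t2 _ inst => ?_
    have := h1 N1 X hX1 (hN1.trans hpow)
    convert this
  have c5 : cc X q5 ≤ ε / 9 * X ^ 2 := by
    rw [← hXX]
    refine cc_snd fun t2 _ inst => ?_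
    have := h1 N2 X hX1 (hN2.trans hpow)
    convert this
  have c6 : cc X q6 ≤ ε / 9 * X ^ 2 := by
    rw [← hXX]
    refine cc_fst fun t2 ht2 inst => ?_
    have hsz : (N1 - N2 - (t2 : ℤ)).natAbs ≤ X ^ (L + 2) := by
      rw [mem_Icc] at ht2
      have h1 : (N1 - N2 - (t2 : ℤ)).natAbs ≤ N1.natAbs + N2.natAbs + X := by omega
      have h2 : X ≤ X ^ (L + 1) := Nat.le_self_pow (by omega) X
      have h3 : X ^ L ≤ X ^ (L + 1) := Nat.pow_le_pow_right (by omega) (by omega)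
      have h4 : 3 * X ^ (L + 1) ≤ X ^ (L + 2) := by
        rw [pow_succ X (L + 1), mul_comm 3]
        exact Nat.mul_le_mul_left _ hXthree
      omega
    have := h1 (N1 - N2 - (t2 : ℤ)) X hX1 hsz
    convert this
  have c7 : cc X q7 ≤ ε / 9 * X ^ 2 := by
    rw [← hXX]
    refine cc_fst fun t2 _ inst => ?_
    have := h2 N1 X hX2 hN1
    convert this
  have c8 : cc X q8 ≤ ε / 9 * X ^ 2 := by
    rw [← hXX]
    refine cc_snd fun t2 _ inst => ?_
    have := h2 N2 X hX2 hN2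
    convert this
  have c9 : cc X q9 ≤ ε / 9 * X ^ 2 := by
    have := h3 N1 N2 X hX3 hN1 hN2
    rw [← cc_eq]
    convert this
  rw [cc_eq]
  have hsub : cc X (fun t : ℕ × ℕ => IsCoprime (N1 + (t.1 : ℤ)) (N2 + (t.2 : ℤ)) ∧
      ¬ (N1 + (t.1 : ℤ) ≠ 0 ∧ N2 + (t.2 : ℤ) ≠ 0 ∧ N1 + (t.1 : ℤ) ≠ N2 + (t.2 : ℤ) ∧
        (3 / 2 - δ) * l +
          ((C1x (D * (N1 + (t.1 : ℤ))) (D * (N2 + (t.2 : ℤ)))).card : ℝ) +
          ((C2x (D * (N1 + (t.1 : ℤ))) (D * (N2 + (t.2 : ℤ)))).card : ℝ) ≤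
        ((GA (D * (N1 + (t.1 : ℤ))) (D * (N2 + (t.2 : ℤ)))).card : ℝ) +
        ((GD (D * (N1 + (t.1 : ℤ))) (D * (N2 + (t.2 : ℤ)))).card : ℝ))) ≤
      cc X (fun t => q1 t ∨ q2 t ∨ q3 t ∨ q4 t ∨ q5 t ∨ q6 t ∨ q7 t ∨ q8 t ∨ q9 t) := by
    refine cc_mono fun t _ ht => ?_
    obtain ⟨hc, hnot⟩ := ht
    by_contra hcon
    push Not at hcon
    obtain ⟨n1, n2, n3, n4, n5, n6, n7, n8, n9⟩ := hcon
    apply hnot
    simp only [hq1, hq2, hq3] at n1 n2 n3
    refine ⟨n1, n2, n3, ?_⟩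
    set a := N1 + (t.1 : ℤ) with ha
    set b := N2 + (t.2 : ℤ) with hb
    have hab : (N1 - N2 - (t.2 : ℤ)) + (t.1 : ℤ) = a - b := by rw [ha, hb]; ring
    have m4 : |(WW a : ℝ) - l| ≤ δ / 8 * l := by
      by_contra h
      exact n4 ⟨n1, not_le.1 h⟩
    have m5 : |(WW b : ℝ) - l| ≤ δ / 8 * l := by
      by_contra h
      exact n5 ⟨n2, not_le.1 h⟩
    have m6 : |(WW (a - b) : ℝ) - l| ≤ δ / 8 * l := by
      by_contra h
      apply n6
      simp only [hq6]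
      rw [hab]
      exact ⟨sub_ne_zero.2 n3, not_le.1 h⟩
    have m7 : (EE a : ℝ) ≤ δ / 8 * l := by
      by_contra h
      exact n7 ⟨n1, not_le.1 h⟩
    have m8 : (EE b : ℝ) ≤ δ / 8 * l := by
      by_contra h
      exact n8 ⟨n2, not_le.1 h⟩
    have m9 : ∑ p ∈ (a - b).natAbs.primeFactors.filter (fun p => 11 ≤ p),
        (jacobiSym (D * a) p : ℝ) ≤ δ / 8 * l := by
      by_contra h
      exact n9 ⟨n3, not_le.1 h⟩
    rw [abs_le] at m4 m5 m6
    have g1 : (WW a : ℝ) + WW b ≤ (GA (D * a) (D * b)).card + EE a + EE b + 2 * w := by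
      rw [hw]
      exact_mod_cast GA_ge hD n1 n2 hc
    have g2 := C1x_le hD n3 hc
    have g3 : ((C2x (D * a) (D * b)).card : ℝ) ≤ w := by
      rw [hw]
      exact_mod_cast C2x_le hD hc
    rw [← hw] at g2
    have g4 : (0 : ℝ) ≤ ((GD (D * a) (D * b)).card : ℝ) := Nat.cast_nonneg _
    have e4 := m4.1
    have e5 := m5.1
    have e6 := m6.2
    nlinarith
  refine hsub.trans ?_
  have u8 := cc_or X q8 q9
  have u7 := cc_or X q7 (fun t => q8 t ∨ q9 t)
  have u6 := cc_or X q6 (fun t => q7 t ∨ q8 t ∨ q9 t)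
  have u5 := cc_or X q5 (fun t => q6 t ∨ q7 t ∨ q8 t ∨ q9 t)
  have u4 := cc_or X q4 (fun t => q5 t ∨ q6 t ∨ q7 t ∨ q8 t ∨ q9 t)
  have u3 := cc_or X q3 (fun t => q4 t ∨ q5 t ∨ q6 t ∨ q7 t ∨ q8 t ∨ q9 t)
  have u2 := cc_or X q2 (fun t => q3 t ∨ q4 t ∨ q5 t ∨ q6 t ∨ q7 t ∨ q8 t ∨ q9 t)
  have u1 := cc_or X q1 (fun t => q2 t ∨ q3 t ∨ q4 t ∨ q5 t ∨ q6 t ∨ q7 t ∨ q8 t ∨ q9 t)
  have hfin : ε * (X : ℝ) ^ 2 = 9 * (ε / 9 * X ^ 2) := by ring
  rw [hfin]
  linarith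

end Pool.Agent.TH841.LS.CNT2Xf
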