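import Mathlib
import Pool.Agent.TH841.PM.BadB

/-!
# LS-TKX, first part: the inequality of Turan and Kubilius for the sum of the symbols `(w(t) / p)`
over the primes `p` dividing `f(t)` (job 4414 of helper841, written by helper574)
-/

set_option autoImplicit false

namespace Pool.Agent.TH841.LS.TKXf

open Finset Polynomial Pool.Agent.W262.RK Pool.Agent.TH841.PM.BADf

open Pool.Agent.H474R2.PG (rho)

lemma Jr_abs (a : ℤ) (n : ℕ) : |Jr a n| ≤ 1 := by
  unfold Jr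
  rcases jacobiSym.trichotomy a n with h | h | h <;> rw [h] <;> norm_num

lemma Jr_mod (w : ℤ[X]) {p : ℕ} {s t : ℤ} (h : s ≡ t [ZMOD p]) :
    Jr (w.eval s) p = Jr (w.eval t) p := by
  unfold Jr
  have h1 : (p : ℤ) ∣ w.eval t - w.eval s := (Int.modEq_iff_dvd.1 h).trans (sub_dvd_eval_sub t s w)
  have h2 : w.eval s ≡ w.eval t [ZMOD p] := Int.modEq_iff_dvd.2 h1
  rw [jacobiSym.mod_left' h2]

/-- the symbol, if `p` divides `f(t)` -/
noncomputable def hh' (f w : ℤ[X]) (p : ℕ) (t : ℤ) : ℝ :=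
  if (p : ℤ) ∣ f.eval t then Jr (w.eval t) p else 0

/-- the sum of the symbols at the roots -/
noncomputable def rc (f w : ℤ[X]) (p : ℕ) : ℝ := ∑ a ∈ Rt f p, Jr (w.eval (a : ℤ)) p

lemma rc_abs (f w : ℤ[X]) (p : ℕ) : |rc f w p| ≤ rho f p := by
  unfold rc
  refine (abs_sum_le_sum_abs _ _).trans ?_
  refine (sum_le_sum fun a _ => Jr_abs _ _).trans ?_
  rw [sum_const, nsmul_eq_mul, mul_one, card_Rt]

lemma hh_eq (f w : ℤ[X]) {p : ℕ} (hp : 0 < p) (t : ℤ) :
    hh' f w p t = ∑ a ∈ Rt f p, Jr (w.eval (a : ℤ)) p * (if t ≡ (a : ℤ) [ZMOD p] then 1 else 0) := by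
  have hlt : ∀ a ∈ Rt f p, a < p := by
    intro a ha
    unfold Rt at ha
    exact mem_range.1 (mem_filter.1 ha).1
  unfold hh'
  split_ifs with h
  · have h1 := (dvd_eval_iff hp t).1 h
    rw [sum_eq_single (t % p).toNat]
    · have h2 := (emod_eq_iff hp (hlt _ h1) t).1 rfl
      rw [if_pos h2, mul_one]
      exact Jr_mod w h2
    · intro b hb hne
      have h3 : ¬ t ≡ (b : ℤ) [ZMOD p] := fun h4 => hne ((emod_eq_iff hp (hlt b hb) t).2 h4).symm
      rw [if_neg h3, mul_zero]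
    · intro h2
      exact absurd h1 h2
  · symm
    refine sum_eq_zero fun a ha => ?_
    have h3 : ¬ t ≡ (a : ℤ) [ZMOD p] := by
      intro h4
      apply h
      rw [dvd_eval_iff hp, (emod_eq_iff hp (hlt a ha) t).2 h4]
      exact ha
    rw [if_neg h3, mul_zero]

lemma hh_abs (f w : ℤ[X]) (p : ℕ) (t : ℤ) : |hh' f w p t| ≤ 1 := by
  unfold hh'
  split_ifs
  · exact Jr_abs _ _
  · simp

lemma cnt_abs (N : ℤ) (M m : ℕ) (hm : 0 < m) (a : ℤ) :
    |(((Ioc N (N + M)).filter (fun t => t ≡ a [ZMOD m])).card : ℝ) - M / m| ≤ 1 := by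
  obtain ⟨h1, h2⟩ := cnt_mod N M m hm a
  rw [abs_le]
  constructor <;> linarith

lemma cnt_abs2 (N : ℤ) (M p q : ℕ) (hp : p.Prime) (hq : q.Prime) (hpq : p ≠ q) (a b : ℕ) :
    |(((Ioc N (N + M)).filter (fun t => t ≡ (a : ℤ) [ZMOD p] ∧ t ≡ (b : ℤ) [ZMOD q])).card : ℝ) -
      M / (p * q)| ≤ 1 := by
  have hco : Nat.Coprime p q := (Nat.coprime_primes hp hq).2 hpq
  obtain ⟨c, hc1, hc2⟩ := Nat.chineseRemainder hco a b
  have h2 : (Ioc N (N + M)).filter (fun t => t ≡ (a : ℤ) [ZMOD p] ∧ t ≡ (b : ℤ) [ZMOD q]) =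
      (Ioc N (N + M)).filter (fun t => t ≡ (c : ℤ) [ZMOD ((p * q : ℕ) : ℤ)]) := by
    refine filter_congr fun t _ => ?_
    have e1 : (c : ℤ) ≡ (a : ℤ) [ZMOD p] := (Int.natCast_modEq_iff).2 hc1
    have e2 : (c : ℤ) ≡ (b : ℤ) [ZMOD q] := (Int.natCast_modEq_iff).2 hc2
    push_cast
    rw [← Int.modEq_and_modEq_iff_modEq_mul (by simpa using hco)]
    exact ⟨fun h => ⟨h.1.trans e1.symm, h.2.trans e2.symm⟩, fun h => ⟨h.1.trans e1, h.2.trans e2⟩⟩
  rw [h2]
  have h3 := cnt_abs N M (p * q) (Nat.mul_pos hp.pos hq.pos) c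
  push_cast at h3 ⊢
  exact h3

/-- first moment at one prime -/
lemma mom1 (f w : ℤ[X]) (N : ℤ) (M p : ℕ) (hp : 0 < p) :
    |∑ t ∈ Ioc N (N + M), hh' f w p t - M * (rc f w p / p)| ≤ rho f p := by
  have h1 : ∑ t ∈ Ioc N (N + M), hh' f w p t = ∑ a ∈ Rt f p, Jr (w.eval (a : ℤ)) p *
      (((Ioc N (N + M)).filter (fun t => t ≡ (a : ℤ) [ZMOD p])).card : ℝ) := by
    rw [sum_congr rfl fun t _ => hh_eq f w hp t, sum_comm]
    refine sum_congr rfl fun a _ => ?_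
    rw [← mul_sum, sum_ind]
  have h2 : ∑ t ∈ Ioc N (N + M), hh' f w p t - M * (rc f w p / p) =
      ∑ a ∈ Rt f p, Jr (w.eval (a : ℤ)) p *
      ((((Ioc N (N + M)).filter (fun t => t ≡ (a : ℤ) [ZMOD p])).card : ℝ) - M / p) := by
    rw [h1]
    unfold rc
    rw [sum_div, mul_sum, ← sum_sub_distrib]
    exact sum_congr rfl fun a _ => by ring
  rw [h2]
  refine (abs_sum_le_sum_abs _ _).trans ?_
  have h3 : ∀ a ∈ Rt f p, |Jr (w.eval (a : ℤ)) p *
      ((((Ioc N (N + M)).filter (fun t => t ≡ (a : ℤ) [ZMOD p])).card : ℝ) - M / p)| ≤ 1 := by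
    intro a _
    rw [abs_mul]
    exact mul_le_one₀ (Jr_abs _ _) (abs_nonneg _) (cnt_abs N M p hp a)
  refine (sum_le_sum h3).trans ?_
  rw [sum_const, nsmul_eq_mul, mul_one, card_Rt]

/-- second moment at two primes -/
lemma mom2 (f w : ℤ[X]) (N : ℤ) (M p q : ℕ) (hp : p.Prime) (hq : q.Prime) (hpq : p ≠ q) :
    ∑ t ∈ Ioc N (N + M), hh' f w p t * hh' f w q t ≤
      M * (rc f w p / p * (rc f w q / q)) + rho f p * rho f q := by
  have h1 : ∑ t ∈ Ioc N (N + M), hh' f w p t * hh' f w q t =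
      ∑ a ∈ Rt f p, ∑ b ∈ Rt f q, Jr (w.eval (a : ℤ)) p * Jr (w.eval (b : ℤ)) q *
      (((Ioc N (N + M)).filter
        (fun t => t ≡ (a : ℤ) [ZMOD p] ∧ t ≡ (b : ℤ) [ZMOD q])).card : ℝ) := by
    have e1 : ∀ t ∈ Ioc N (N + M), hh' f w p t * hh' f w q t =
        ∑ a ∈ Rt f p, ∑ b ∈ Rt f q, Jr (w.eval (a : ℤ)) p * Jr (w.eval (b : ℤ)) q *
          (if t ≡ (a : ℤ) [ZMOD p] ∧ t ≡ (b : ℤ) [ZMOD q] then 1 else 0) := by
      intro t _
      rw [hh_eq f w hp.pos, hh_eq f w hq.pos, sum_mul_sum]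
      refine sum_congr rfl fun a _ => sum_congr rfl fun b _ => ?_
      by_cases h1 : t ≡ (a : ℤ) [ZMOD p] <;> by_cases h2 : t ≡ (b : ℤ) [ZMOD q] <;> simp [h1, h2]
    rw [sum_congr rfl e1, sum_comm]
    refine sum_congr rfl fun a _ => ?_
    rw [sum_comm]
    refine sum_congr rfl fun b _ => ?_
    rw [← mul_sum, sum_ind]
  have h2 : ∑ t ∈ Ioc N (N + M), hh' f w p t * hh' f w q t -
      M * (rc f w p / p * (rc f w q / q)) =
      ∑ a ∈ Rt f p, ∑ b ∈ Rt f q, Jr (w.eval (a : ℤ)) p * Jr (w.eval (b : ℤ)) q *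
      ((((Ioc N (N + M)).filter
        (fun t => t ≡ (a : ℤ) [ZMOD p] ∧ t ≡ (b : ℤ) [ZMOD q])).card : ℝ) - M / (p * q)) := by
    have e2 : (M : ℝ) * (rc f w p / p * (rc f w q / q)) =
        ∑ a ∈ Rt f p, ∑ b ∈ Rt f q, Jr (w.eval (a : ℤ)) p * Jr (w.eval (b : ℤ)) q *
          (M / (p * q)) := by
      unfold rc
      rw [div_mul_div_comm, sum_mul_sum, sum_div, mul_sum]
      refine sum_congr rfl fun a _ => ?_
      rw [sum_div, mul_sum]
      exact sum_congr rfl fun b _ => by ring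
    rw [h1, e2, ← sum_sub_distrib]
    refine sum_congr rfl fun a _ => ?_
    rw [← sum_sub_distrib]
    exact sum_congr rfl fun b _ => by ring
  have h3 : ∑ a ∈ Rt f p, ∑ b ∈ Rt f q, Jr (w.eval (a : ℤ)) p * Jr (w.eval (b : ℤ)) q *
      ((((Ioc N (N + M)).filter
        (fun t => t ≡ (a : ℤ) [ZMOD p] ∧ t ≡ (b : ℤ) [ZMOD q])).card : ℝ) - M / (p * q)) ≤
      ∑ a ∈ Rt f p, ∑ b ∈ Rt f q, (1 : ℝ) := by
    refine sum_le_sum fun a _ => sum_le_sum fun b _ => (le_abs_self _).trans ?_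
    rw [abs_mul, abs_mul]
    exact mul_le_one₀ (mul_le_one₀ (Jr_abs _ _) (abs_nonneg _) (Jr_abs _ _)) (abs_nonneg _)
      (cnt_abs2 N M p q hp hq hpq a b)
  have h4 : ∑ a ∈ Rt f p, ∑ b ∈ Rt f q, (1 : ℝ) = rho f p * rho f q := by
    rw [sum_const, sum_const, nsmul_eq_mul, nsmul_eq_mul, mul_one, card_Rt, card_Rt]
  linarith

/-- the sum over the primes between `z` and `y` -/
noncomputable def XX (f w : ℤ[X]) (z y : ℕ) (t : ℤ) : ℝ := ∑ p ∈ PS z y, hh' f w p t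

/-- the mean -/
noncomputable def MU (f w : ℤ[X]) (z y : ℕ) : ℝ := ∑ p ∈ PS z y, rc f w p / p

lemma MU_abs (f w : ℤ[X]) (z y : ℕ) : |MU f w z y| ≤ SS f z y := by
  unfold MU SS
  refine (abs_sum_le_sum_abs _ _).trans (sum_le_sum fun p _ => ?_)
  rw [abs_div, Nat.abs_cast]
  exact div_le_div_of_nonneg_right (rc_abs f w p) (Nat.cast_nonneg _)

lemma sum_XX (f w : ℤ[X]) (z y c : ℕ) (hc : ∀ p ∈ PS z y, rho f p ≤ c) (N : ℤ) (M : ℕ) :
    |∑ t ∈ Ioc N (N + M), XX f w z y t - M * MU f w z y| ≤ c * y := by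
  unfold XX MU
  rw [sum_comm, mul_sum, ← sum_sub_distrib]
  refine (abs_sum_le_sum_abs _ _).trans ?_
  have h1 : ∀ p ∈ PS z y, |∑ t ∈ Ioc N (N + M), hh' f w p t - M * (rc f w p / p)| ≤ c := by
    intro p hp
    refine (mom1 f w N M p (mem_PS.1 hp).2.pos).trans ?_
    exact_mod_cast hc p hp
  refine (sum_le_sum h1).trans ?_
  rw [sum_const, nsmul_eq_mul, mul_comm]
  have h4 : ((PS z y).card : ℝ) ≤ y := by exact_mod_cast card_PS z y
  exact mul_le_mul_of_nonneg_left h4 (Nat.cast_nonneg _)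

lemma sum_XX_sq (f w : ℤ[X]) (z y c : ℕ) (hc : ∀ p ∈ PS z y, rho f p ≤ c) (N : ℤ) (M : ℕ) :
    ∑ t ∈ Ioc N (N + M), XX f w z y t ^ 2 ≤
      M * MU f w z y ^ 2 + c ^ 2 * y ^ 2 + M * SS f z y + c * y := by
  have h1 : ∑ t ∈ Ioc N (N + M), XX f w z y t ^ 2 =
      ∑ p ∈ PS z y, ∑ q ∈ PS z y, ∑ t ∈ Ioc N (N + M), hh' f w p t * hh' f w q t := by
    unfold XX
    have : ∀ t ∈ Ioc N (N + M), (∑ p ∈ PS z y, hh' f w p t) ^ 2 =
        ∑ p ∈ PS z y, ∑ q ∈ PS z y, hh' f w p t * hh' f w q t := by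
      intro t _
      rw [sq, sum_mul_sum]
    rw [sum_congr rfl this, sum_comm]
    refine sum_congr rfl fun p _ => ?_
    rw [sum_comm]
  rw [h1]
  have h2 : ∀ p ∈ PS z y, ∀ q ∈ PS z y, ∑ t ∈ Ioc N (N + M), hh' f w p t * hh' f w q t ≤
      ((M : ℝ) * (rc f w p / p * (rc f w q / q)) + c ^ 2) +
        (if p = q then (M : ℝ) * ((rho f p : ℝ) / p) + c else 0) := by
    intro p hp q hq
    have hp' := (mem_PS.1 hp).2
    have hq' := (mem_PS.1 hq).2
    have hcp : (rho f p : ℝ) ≤ c := by exact_mod_cast hc p hp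
    have hcq : (rho f q : ℝ) ≤ c := by exact_mod_cast hc q hq
    have hrp : (0 : ℝ) ≤ rho f p := Nat.cast_nonneg _
    have hrq : (0 : ℝ) ≤ rho f q := Nat.cast_nonneg _
    by_cases hpq : p = q
    · subst hpq
      rw [if_pos rfl]
      have h3 := (cnt_one f N M p hp'.pos).1
      have h4 : (0 : ℝ) ≤ (M : ℝ) * (rc f w p / p * (rc f w p / p)) + c ^ 2 :=
        add_nonneg (mul_nonneg (Nat.cast_nonneg _) (mul_self_nonneg _)) (sq_nonneg _)
      have h5 : (rho f p : ℝ) * (M / p + 1) = (M : ℝ) * ((rho f p : ℝ) / p) + rho f p := by ring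
      have h6 : ∑ t ∈ Ioc N (N + M), hh' f w p t * hh' f w p t ≤
          ∑ t ∈ Ioc N (N + M), (if (p : ℤ) ∣ f.eval t then (1 : ℝ) else 0) := by
        refine sum_le_sum fun t _ => ?_
        unfold hh'
        split_ifs
        · have := Jr_abs (w.eval t) p
          rw [← abs_mul_abs_self]
          exact mul_le_one₀ this (abs_nonneg _) this
        · simp
      rw [sum_ind] at h6
      linarith
    · rw [if_neg hpq, add_zero]
      have h3 := mom2 f w N M p q hp' hq' hpq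
      have h5 : (rho f p : ℝ) * rho f q ≤ c ^ 2 := by
        rw [sq]
        exact mul_le_mul hcp hcq hrq (hrp.trans hcp)
      linarith
  refine (sum_le_sum fun p hp => sum_le_sum fun q hq => h2 p hp q hq).trans ?_
  simp only [sum_add_distrib]
  have h3 : ∑ p ∈ PS z y, ∑ q ∈ PS z y, (M : ℝ) * (rc f w p / p * (rc f w q / q)) =
      M * MU f w z y ^ 2 := by
    unfold MU
    rw [sq, sum_mul_sum, mul_sum]
    exact sum_congr rfl fun p _ => (mul_sum _ _ _).symm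
  have h4 : ∑ p ∈ PS z y, ∑ q ∈ PS z y, (if p = q then (M : ℝ) * ((rho f p : ℝ) / p) + c else 0) =
      M * SS f z y + (PS z y).card * c := by
    have : ∀ p ∈ PS z y, ∑ q ∈ PS z y,
        (if p = q then (M : ℝ) * ((rho f p : ℝ) / p) + c else 0) =
        (M : ℝ) * ((rho f p : ℝ) / p) + c := by
      intro p hp
      rw [sum_ite_eq, if_pos hp]
    rw [sum_congr rfl this, sum_add_distrib, sum_const, nsmul_eq_mul]
    unfold SS
    rw [mul_sum]
  rw [h3, h4]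
  have h5 : ((PS z y).card : ℝ) ≤ y := by exact_mod_cast card_PS z y
  have h6 : ∑ p ∈ PS z y, ∑ q ∈ PS z y, (c : ℝ) ^ 2 ≤ c ^ 2 * y ^ 2 := by
    rw [sum_const, sum_const, nsmul_eq_mul, nsmul_eq_mul]
    have h7 : ((PS z y).card : ℝ) * (PS z y).card ≤ y * y :=
      mul_le_mul h5 h5 (Nat.cast_nonneg _) (Nat.cast_nonneg _)
    have h8 := mul_le_mul_of_nonneg_right h7 (sq_nonneg (c : ℝ))
    nlinarith
  have h7 : ((PS z y).card : ℝ) * c ≤ c * y := by
    rw [mul_comm]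
    exact mul_le_mul_of_nonneg_left h5 (Nat.cast_nonneg _)
  linarith

/-- **the inequality of Turan and Kubilius** -/
lemma turanX (f w : ℤ[X]) (z y c : ℕ) (hc : ∀ p ∈ PS z y, rho f p ≤ c) (N : ℤ) (M : ℕ)
    (hy : y * y ≤ M) : ∑ t ∈ Ioc N (N + M), (XX f w z y t - MU f w z y) ^ 2 ≤
      M * ((2 * c + 1) * SS f z y + (c ^ 2 + c)) := by
  have h1 := sum_XX f w z y c hc N M
  have h2 := sum_XX_sq f w z y c hc N M
  have h0 := SS_nonneg f z y
  have h0' := MU_abs f w z y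
  set S := SS f z y with hS
  set U := MU f w z y with hU
  set T := ∑ t ∈ Ioc N (N + M), XX f w z y t with hT
  have h3 : ∑ t ∈ Ioc N (N + M), (XX f w z y t - U) ^ 2 =
      ∑ t ∈ Ioc N (N + M), XX f w z y t ^ 2 - 2 * U * T + M * U ^ 2 := by
    have h4 : ∀ t : ℤ, (XX f w z y t - U) ^ 2 = XX f w z y t ^ 2 -
      2 * U * XX f w z y t + U ^ 2 := fun n => by ring
    simp only [h4]
    rw [sum_add_distrib, sum_sub_distrib, ← mul_sum, sum_const, Int.card_Ioc, nsmul_eq_mul]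
    congr 2
    simp
  rw [h3]
  have hyy : (y : ℝ) * y ≤ M := by exact_mod_cast hy
  have hyM : (y : ℝ) ≤ M := by
    have : y ≤ y * y := Nat.le_mul_self y
    exact_mod_cast this.trans hy
  have hc0 : (0 : ℝ) ≤ c := Nat.cast_nonneg _
  have h6 : |U * (T - M * U)| ≤ S * (c * y) := by
    rw [abs_mul]
    exact mul_le_mul h0' h1 (abs_nonneg _) h0
  have h6' := (abs_le.1 h6).1
  have h7 : S * (c * y) ≤ S * (c * M) :=
    mul_le_mul_of_nonneg_left (mul_le_mul_of_nonneg_left hyM hc0) h0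
  have h8 : (c : ℝ) ^ 2 * y ^ 2 ≤ c ^ 2 * M := by
    rw [sq (y : ℝ)]
    exact mul_le_mul_of_nonneg_left hyy (by positivity)
  have h9 : (c : ℝ) * y ≤ c * M := mul_le_mul_of_nonneg_left hyM hc0
  have e1 : U * (T - M * U) = U * T - M * U ^ 2 := by ring
  rw [e1] at h6'
  have e2 : (M : ℝ) * ((2 * c + 1) * S + (c ^ 2 + c)) =
      2 * (S * (c * M)) + M * S + c ^ 2 * M + c * M := by ring
  rw [e2]
  linarith

/-- the sum of the symbols over all the prime factors -/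
lemma sum_le_XX (f w : ℤ[X]) (z y k : ℕ) (t : ℤ) (ht : f.eval t ≠ 0)
    (hk : (f.eval t).natAbs < (y + 1) ^ (k + 1)) :
    ∑ p ∈ (f.eval t).natAbs.primeFactors, Jr (w.eval t) p ≤ XX f w z y t + (z + k : ℕ) := by
  classical
  set A := (PS z y).filter (fun p : ℕ => (p : ℤ) ∣ f.eval t) with hA
  have hsub : A ⊆ (f.eval t).natAbs.primeFactors := by
    intro p hp
    rw [hA, mem_filter, mem_PS] at hp
    rw [Nat.mem_primeFactors]
    exact ⟨hp.1.2, Int.natCast_dvd.1 hp.2, Int.natAbs_ne_zero.2 ht⟩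
  have h1 : XX f w z y t = ∑ p ∈ A, Jr (w.eval t) p := by
    unfold XX hh'
    rw [hA, sum_filter]
  have h2 := le_om f z y k t ht hk
  have h3 : om f z y t = A.card := rfl
  rw [h3] at h2
  rw [← sum_sdiff hsub, h1]
  have h4 : ∑ p ∈ (f.eval t).natAbs.primeFactors \ A, Jr (w.eval t) p ≤ (z + k : ℕ) := by
    have h5 : ∑ p ∈ (f.eval t).natAbs.primeFactors \ A, Jr (w.eval t) p ≤
        ∑ p ∈ (f.eval t).natAbs.primeFactors \ A, (1 : ℝ) :=
      sum_le_sum fun p _ => (le_abs_self _).trans (Jr_abs _ _)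
    refine h5.trans ?_
    rw [sum_const, nsmul_eq_mul, mul_one]
    have h6 : ((f.eval t).natAbs.primeFactors \ A).card ≤ z + k := by
      rw [card_sdiff_of_subset hsub]
      omega
    exact_mod_cast h6
  linarith

/-- **the exceptional arguments are rare**, with the sums over the primes as inputs -/
theorem core (f w : ℤ[X]) (z c B : ℕ) (C : ℝ) (hC : 0 ≤ C) (hz : 3 ≤ z)
    (hc : ∀ p : ℕ, p.Prime → z < p → rho f p ≤ c)
    (hS : ∀ y, z < y → SS f z y ≤ Real.log (Real.log y) + C)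
    (hU : ∀ y, z < y → MU f w z y ≤ C)
    (hK : ∃ K : ℕ, ∀ (x : ℤ) (m : ℕ), 1 ≤ m → x.natAbs ≤ m →
      (f.eval x).natAbs ≤ K * m ^ f.natDegree) (δ ε : ℝ) (hδ : 0 < δ) (hε : 0 < ε) :
    ∃ M0 : ℕ, ∀ (N : ℤ) (M : ℕ), M0 ≤ M → |N| ≤ (M : ℤ) ^ B →
      ∀ E : Finset ℤ, E ⊆ Ioc N (N + M) → (∀ t ∈ E, f.eval t ≠ 0) →
      (∀ t ∈ E, δ * Real.log (Real.log M) <
        ∑ p ∈ (f.eval t).natAbs.primeFactors, Jr (w.eval t) p) →
      (E.card : ℝ) ≤ ε * M := by
  obtain ⟨K, hK⟩ := hK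
  set b : ℕ := (B + 2) * f.natDegree + 1 with hb
  set D : ℝ := C + (z + 2 * b : ℕ) with hD
  have hD0 : 0 ≤ D := by positivity
  -- the conditions on the size of `M`
  have e1 := tendsto_LL.eventually_ge_atTop (2 * D / δ)
  have e2 := tendsto_LL.eventually_ge_atTop
    (4 * ((2 * c + 1) * (1 + C) + (c ^ 2 + c)) / (ε * δ ^ 2))
  have e3 := tendsto_LL.eventually_ge_atTop 1
  obtain ⟨M1, hM1⟩ := Filter.eventually_atTop.1 (e1.and (e2.and e3))
  refine ⟨M1 + (z + 2) * (z + 2) + K + 16, fun N M hM hN E hE1 hE2 hE3 => ?_⟩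
  obtain ⟨h1, h2, h3⟩ := hM1 M (by omega)
  set L : ℝ := Real.log (Real.log M) with hL
  set y : ℕ := Nat.sqrt M with hy
  have hyM : y * y ≤ M := Nat.sqrt_le M
  have hyM' : M < (y + 1) * (y + 1) := Nat.lt_succ_sqrt M
  have hzy : z + 2 ≤ y := by
    rw [hy, Nat.le_sqrt]
    have : (z + 2) * (z + 2) ≤ M := by
      have := hM
      omega
    exact this
  have hy3 : 3 ≤ y := by omega
  have hlogy : Real.log y ≤ Real.log M := by
    apply Real.log_le_log
    · exact_mod_cast (by omega : 0 < y)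
    · have : y ≤ y * y := Nat.le_mul_self y
      exact_mod_cast this.trans hyM
  have hlogy1 : 1 < Real.log y := by
    rw [Real.lt_log_iff_exp_lt (by exact_mod_cast (by omega : 0 < y))]
    have h4 := Real.exp_one_lt_d9
    have h5 : (3 : ℝ) ≤ y := by exact_mod_cast hy3
    linarith
  have hLy1 : Real.log (Real.log y) ≤ L := Real.log_le_log (by linarith) hlogy
  have hSL' : SS f z y ≤ L + C := by linarith [hS y (by omega)]
  have hUC := hU y (by omega)
  -- the size of the values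
  have hsize : ∀ t ∈ Ioc N (N + M), (f.eval t).natAbs < (y + 1) ^ (2 * b + 1) := by
    intro t ht
    rw [mem_Ioc] at ht
    have hM0 : 1 ≤ M := by omega
    have e5 : M ^ B ≤ M ^ (B + 1) := Nat.pow_le_pow_right hM0 (by omega)
    have e6 : M ≤ M ^ (B + 1) := Nat.le_self_pow (by omega) M
    have e7 : N.natAbs ≤ M ^ B := by
      have : ((N.natAbs : ℕ) : ℤ) ≤ ((M ^ B : ℕ) : ℤ) := by
        push_cast
        exact hN
      exact_mod_cast this
    have e8 : t.natAbs ≤ M ^ (B + 2) := by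
      calc t.natAbs ≤ N.natAbs + M := by omega
        _ ≤ M ^ (B + 1) + M ^ (B + 1) := Nat.add_le_add (e7.trans e5) e6
        _ = 2 * M ^ (B + 1) := by ring
        _ ≤ M * M ^ (B + 1) := Nat.mul_le_mul_right _ (by omega)
        _ = M ^ (B + 2) := by ring
    have e9 : (f.eval t).natAbs ≤ M ^ b := by
      calc (f.eval t).natAbs ≤ K * (M ^ (B + 2)) ^ f.natDegree :=
            hK t _ (Nat.one_le_pow _ _ hM0) e8
        _ ≤ M * (M ^ (B + 2)) ^ f.natDegree := Nat.mul_le_mul_right _ (by omega)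
        _ = M ^ b := by rw [hb, ← pow_mul]; ring
    calc (f.eval t).natAbs ≤ M ^ b := e9
      _ ≤ ((y + 1) * (y + 1)) ^ b := Nat.pow_le_pow_left hyM'.le b
      _ = (y + 1) ^ (2 * b) := by rw [← pow_two, ← pow_mul]
      _ < (y + 1) ^ (2 * b + 1) := Nat.pow_lt_pow_right (by omega) (by omega)
  -- the exceptions deviate from the mean
  have hDL : D ≤ δ * L / 2 := by
    rw [div_le_iff₀ hδ] at h1
    linarith
  have hdev : ∀ t ∈ E, (δ * L / 2) ^ 2 ≤ (XX f w z y t - MU f w z y) ^ 2 := by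
    intro t ht
    have h5 := sum_le_XX f w z y (2 * b) t (hE2 t ht) (hsize t (hE1 ht))
    have h6 := hE3 t ht
    have h7 : δ * L / 2 ≤ XX f w z y t - MU f w z y := by
      rw [hD] at hDL
      linarith
    have hL0 : 0 ≤ L := by linarith
    exact pow_le_pow_left₀ (by positivity) h7 2
  have hT := turanX f w z y c (fun p hp => hc p (mem_PS.1 hp).2 (mem_PS.1 hp).1.1) N M hyM
  have hcard : (E.card : ℝ) * (δ * L / 2) ^ 2 ≤
      M * ((2 * c + 1) * SS f z y + (c ^ 2 + c)) := by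
    refine le_trans ?_ hT
    rw [← nsmul_eq_mul, ← sum_const]
    refine (sum_le_sum fun t ht => hdev t ht).trans ?_
    exact sum_le_sum_of_subset_of_nonneg hE1 fun _ _ _ => sq_nonneg _
  have hc0 : (0 : ℝ) ≤ c := Nat.cast_nonneg _
  have hL0 : 0 < L := by linarith
  set A : ℝ := (2 * c + 1) * (1 + C) + (c ^ 2 + c) with hA
  have hbd : (2 * (c : ℝ) + 1) * SS f z y + (c ^ 2 + c) ≤ A * L := by
    have h4 : (2 * (c : ℝ) + 1) * SS f z y ≤ (2 * c + 1) * (L + C) :=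
      mul_le_mul_of_nonneg_left hSL' (by positivity)
    have h5 : (2 * (c : ℝ) + 1) * (L + C) ≤ (2 * c + 1) * ((1 + C) * L) := by
      refine mul_le_mul_of_nonneg_left ?_ (by positivity)
      nlinarith
    have h6 : (c : ℝ) ^ 2 + c ≤ (c ^ 2 + c) * L := le_mul_of_one_le_right (by positivity) h3
    rw [hA]
    linarith
  have hAL : 4 * A ≤ L * (ε * δ ^ 2) := by
    rwa [div_le_iff₀ (by positivity)] at h2
  have hM0 : (0 : ℝ) ≤ M := Nat.cast_nonneg _
  have h7 : (E.card : ℝ) * (δ * L / 2) ^ 2 ≤ ε * M * (δ * L / 2) ^ 2 := by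
    refine hcard.trans ?_
    calc (M : ℝ) * ((2 * c + 1) * SS f z y + (c ^ 2 + c)) ≤ M * (A * L) :=
          mul_le_mul_of_nonneg_left hbd hM0
      _ = M * (4 * A) * L / 4 := by ring
      _ ≤ M * (L * (ε * δ ^ 2)) * L / 4 := by
          have := mul_le_mul_of_nonneg_right (mul_le_mul_of_nonneg_left hAL hM0) hL0.le
          linarith
      _ = _ := by ring
  exact le_of_mul_le_mul_right h7 (by positivity)

end Pool.Agent.TH841.LS.TKXf
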