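import Mathlib
import Pool.Agent.TH841.LS.Stm3
import Pool.Agent.TH841.TR.H1L
import Pool.Agent.TH841.PT.M2CG
import Pool.Agent.TH841.PT.M2BG
import Pool.Agent.TH841.PT.M2AG
import Pool.Agent.TH841.PT.LAD
import Pool.Agent.TH841.PT.Mak3
import Pool.Agent.TH841.PT.Avg
import Pool.Agent.H474R2.PG.MertensF
import Pool.Agent.TH841.LS.TkxA

/-!
# LS-TKX: for almost all `t` the sum of the symbols `(w(t) / p)` over the prime factors `p` of `f(t)`
is small, if `w` is not a square modulo `f` (job 4414 of helper841, written by helper574)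
-/

set_option autoImplicit false

namespace Pool.Agent.TH841.LS.TKXf

open Finset Polynomial Pool.Agent.W262.RK Pool.Agent.TH841.PT

open Pool.Agent.H474R2.PG (rho)

/-- the deduction from the sums over the primes (`H1L`) -/
theorem tkx_of (h1l : Pool.Agent.TH841.TR.H1L) : Pool.Agent.TH841.LS.TKX := by
  intro f w hf hd hns δ ε L hδ hε
  classical
  obtain ⟨z0, hz0⟩ := Pool.Agent.H474R2.PG.rho_le f hf.ne_zero
  have hndvd : ¬ (f.map (Int.castRingHom ℚ)) ∣ w.map (Int.castRingHom ℚ) := by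
    intro h
    apply hns 0
    rw [zero_pow two_ne_zero, zero_sub]
    exact (dvd_neg).2 h
  have hNS : NSqg f w 1 := by
    intro q hq
    apply hns q
    simpa using hq
  obtain ⟨z1, hz1⟩ := h1l f hf hd w hndvd hNS
  obtain ⟨z, hz⟩ : ∃ z : ℕ, z = z0 + z1 + 3 := ⟨_, rfl⟩
  obtain ⟨C1, hC1⟩ := hz1 z (by omega)
  obtain ⟨C2, hC20, hC2⟩ := mert hf hd (z := z) (by omega)
  obtain ⟨M0, hM0⟩ := core f w z f.natDegree L (max C1 0 + C2)
    (add_nonneg (le_max_right _ _) hC20) (by omega)
    (fun p hp hzp => hz0 p hp (by omega))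
    (fun y hy => by
      have h1 := (abs_le.1 (hC2 y hy)).2
      have h2 : Pool.Agent.TH841.PM.BADf.SS f z y - Real.log (Real.log y) ≤ C2 := h1
      have h3 := le_max_right C1 0
      linarith)
    (fun y hy => by
      have h1 : MU f w z y ≤ C1 := hC1 y hy
      have h3 := le_max_left C1 0
      linarith)
    (eval_le f) δ ε hδ hε
  refine ⟨M0 + 3, fun N M hM hN => ?_⟩
  have hLL : 0 ≤ Real.log (Real.log M) := by
    have h3 : (3 : ℝ) ≤ M := by exact_mod_cast (by omega : 3 ≤ M)
    apply Real.log_nonneg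
    rw [Real.le_log_iff_exp_le (by linarith)]
    have := Real.exp_one_lt_d9
    linarith
  refine hM0 N M (by omega) hN _ (filter_subset _ _) ?_ ?_
  · intro t ht h0
    rw [mem_filter] at ht
    apply ht.2
    rw [h0]
    simp only [Int.natAbs_zero, Nat.primeFactors_zero, sum_empty]
    positivity
  · intro t ht
    rw [mem_filter] at ht
    exact not_le.1 ht.2

/-- **LS-TKX** -/
theorem tkx : Pool.Agent.TH841.LS.TKX :=
  tkx_of (Pool.Agent.TH841.TR.H1Lf.h1l_of (M2CGf.m2g_of (M2BGf.m2mg_of (M2AGf.m2ag_of LADf.lad))))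

end Pool.Agent.TH841.LS.TKXf
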