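import Mathlib
import Pool.Agent.TH841.LS.Stm
import Pool.Agent.TH841.PM.Bad
import Pool.Agent.TH841.PT.Bas3
import Pool.Agent.TH841.PT.GDP

/-!
# Project LS: the counts for almost all `t`

Written by helper828 for helper841 (project LS).
-/

set_option autoImplicit false

namespace Pool.Agent.TH841.LS.CNTf

open Finset Polynomial

open Pool.Agent.TH841.PT (GoodD Gp Fval Irr exists_Gp eval_le)
open Pool.Agent.TH841.PM.BADf (Ex mem_Ex cnt_mod Rt card_Rt dvd_eval_iff emod_eq_iff mem_PS card_PS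
  sum_ind tendsto_LL normal')
open Pool.Agent.W262.RK (fs PS)
open Pool.Agent.H474R2.PG (rho)

/-- values divisible by the square of a prime, in a residue class -/
lemma cong_sq {D : ℤ[X]} {z c p : ℕ} (hG : GoodD D z c) (hp : p.Prime) (hz : z < p) {t s : ℤ}
    (ht : ((p ^ 2 : ℕ) : ℤ) ∣ D.eval t) (hs : ((p ^ 2 : ℕ) : ℤ) ∣ D.eval s)
    (hts : (p : ℤ) ∣ t - s) : t ≡ s [ZMOD ((p ^ 2 : ℕ) : ℤ)] := by
  obtain ⟨k, hk⟩ := binomExpansion D s (t - s)
  rw [show s + (t - s) = t by ring] at hk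
  have hpd : (p : ℤ) ∣ ((p ^ 2 : ℕ) : ℤ) := by push_cast; exact dvd_pow_self _ two_ne_zero
  have h1 : ¬ (p : ℤ) ∣ D.derivative.eval s := (hG p hp hz).2 s (hpd.trans hs)
  have h2 : ((p ^ 2 : ℕ) : ℤ) ∣ (t - s) ^ 2 := by
    push_cast
    exact pow_dvd_pow_of_dvd hts 2
  have h3 : ((p ^ 2 : ℕ) : ℤ) ∣ D.derivative.eval s * (t - s) := by
    have h4 : D.derivative.eval s * (t - s) = D.eval t - D.eval s - k * (t - s) ^ 2 := by
      rw [hk]; ring
    rw [h4]
    exact dvd_sub (dvd_sub ht hs) (h2.mul_left _)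
  have h5 : IsCoprime ((p ^ 2 : ℕ) : ℤ) (D.derivative.eval s) := by
    push_cast
    exact ((Nat.prime_iff_prime_int.1 hp).coprime_iff_not_dvd.2 h1).pow_left
  have h6 := h5.dvd_of_dvd_mul_left h3
  exact Int.modEq_iff_dvd.2 (by rw [← neg_sub t s, dvd_neg]; exact h6)

lemma cnt_sq {D : ℤ[X]} {z c p : ℕ} (hG : GoodD D z c) (hp : p.Prime) (hz : z < p) (N : ℤ)
    (M : ℕ) : (((Ioc N (N + M)).filter (fun t => ((p ^ 2 : ℕ) : ℤ) ∣ D.eval t)).card : ℝ) ≤
      c * (M / (p : ℝ) ^ 2 + 1) := by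
  have hpd : (p : ℤ) ∣ ((p ^ 2 : ℕ) : ℤ) := by push_cast; exact dvd_pow_self _ two_ne_zero
  have h1 : ((Ioc N (N + M)).filter (fun t => ((p ^ 2 : ℕ) : ℤ) ∣ D.eval t)).card =
      ∑ a ∈ Rt D p, (((Ioc N (N + M)).filter (fun t => ((p ^ 2 : ℕ) : ℤ) ∣ D.eval t)).filter
        (fun t : ℤ => (t % p).toNat = a)).card := by
    rw [card_eq_sum_card_fiberwise (f := fun t : ℤ => (t % p).toNat) (t := Rt D p)]
    intro t ht
    rw [mem_coe, mem_filter] at ht
    exact (dvd_eval_iff hp.pos t).1 (hpd.trans ht.2)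
  have h2 : ∀ a ∈ Rt D p, ((((Ioc N (N + M)).filter
      (fun t => ((p ^ 2 : ℕ) : ℤ) ∣ D.eval t)).filter
        (fun t : ℤ => (t % p).toNat = a)).card : ℝ) ≤ M / (p : ℝ) ^ 2 + 1 := by
    intro a ha
    rcases ((((Ioc N (N + M)).filter
      (fun t => ((p ^ 2 : ℕ) : ℤ) ∣ D.eval t)).filter
        (fun t : ℤ => (t % p).toNat = a))).eq_empty_or_nonempty with he | ⟨s, hs⟩
    · rw [he]
      simp only [card_empty, Nat.cast_zero]
      positivity
    · rw [mem_filter, mem_filter] at hs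
      have h3 := (cnt_mod N M (p ^ 2) (pow_pos hp.pos 2) s).1
      have h4 : (((Ioc N (N + M)).filter (fun t => ((p ^ 2 : ℕ) : ℤ) ∣ D.eval t)).filter
          (fun t : ℤ => (t % p).toNat = a)) ⊆
          (Ioc N (N + M)).filter (fun t => t ≡ s [ZMOD ((p ^ 2 : ℕ) : ℤ)]) := by
        intro t ht
        rw [mem_filter, mem_filter] at ht
        rw [mem_filter]
        refine ⟨ht.1.1, cong_sq hG hp hz ht.1.2 hs.1.2 ?_⟩
        have hp' : (0 : ℤ) < p := by exact_mod_cast hp.pos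
        have h5 := Int.emod_nonneg t hp'.ne'
        have h6 := Int.emod_nonneg s hp'.ne'
        have h7 : t % p = s % p := by
          have e1 : (((t % p).toNat : ℕ) : ℤ) = t % p := Int.toNat_of_nonneg h5
          have e2 : (((s % p).toNat : ℕ) : ℤ) = s % p := Int.toNat_of_nonneg h6
          rw [← e1, ← e2, ht.2, hs.2]
        exact Int.ModEq.dvd (show s ≡ t [ZMOD (p : ℤ)] from h7.symm)
      have h5 : ((((Ioc N (N + M)).filter (fun t => ((p ^ 2 : ℕ) : ℤ) ∣ D.eval t)).filter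
          (fun t : ℤ => (t % p).toNat = a)).card : ℝ) ≤
          (((Ioc N (N + M)).filter (fun t => t ≡ s [ZMOD ((p ^ 2 : ℕ) : ℤ)])).card : ℝ) := by
        exact_mod_cast card_le_card h4
      refine h5.trans (h3.trans ?_)
      push_cast
      exact le_rfl
  rw [h1]
  push_cast
  refine (sum_le_sum h2).trans ?_
  rw [sum_const, nsmul_eq_mul, card_Rt]
  refine mul_le_mul_of_nonneg_right ?_ (by positivity)
  exact_mod_cast (hG p hp hz).1

/-- the large primes whose square divides the value -/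
noncomputable def Tq (D : ℤ[X]) (z : ℕ) (t : ℤ) : Finset ℕ := by
  classical
  exact (D.eval t).natAbs.primeFactors.filter (fun p => z < p ∧ ((p ^ 2 : ℕ) : ℤ) ∣ D.eval t)

lemma mem_Tq {D : ℤ[X]} {z : ℕ} {t : ℤ} {p : ℕ} (h0 : D.eval t ≠ 0) :
    p ∈ Tq D z t ↔ p.Prime ∧ z < p ∧ ((p ^ 2 : ℕ) : ℤ) ∣ D.eval t := by
  classical
  unfold Tq
  rw [mem_filter, Nat.mem_primeFactors]
  constructor
  · rintro ⟨⟨h1, _, _⟩, h2, h3⟩
    exact ⟨h1, h2, h3⟩
  · rintro ⟨h1, h2, h3⟩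
    refine ⟨⟨h1, ?_, Int.natAbs_ne_zero.2 h0⟩, h2, h3⟩
    have hpd : (p : ℤ) ∣ ((p ^ 2 : ℕ) : ℤ) := by push_cast; exact dvd_pow_self _ two_ne_zero
    exact Int.natCast_dvd.1 (hpd.trans h3)

lemma big_primes {n M b : ℕ} (hn : n ≠ 0) (hb : n < (M + 1) ^ (b + 1)) (S : Finset ℕ)
    (hS : ∀ p ∈ S, p.Prime ∧ M < p ∧ p ∣ n) : S.card ≤ b := by
  have h1 : ∏ p ∈ S, p ∣ n := by
    refine (Finset.prod_primes_dvd n (fun p hp => (hS p hp).1.prime) (fun p hp => (hS p hp).2.2))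
  have h2 : (M + 1) ^ S.card ≤ ∏ p ∈ S, p := by
    rw [← prod_const]
    exact prod_le_prod' fun p hp => (hS p hp).2.1
  have h3 : (M + 1) ^ S.card < (M + 1) ^ (b + 1) :=
    (h2.trans (Nat.le_of_dvd (Nat.pos_of_ne_zero hn) h1)).trans_lt hb
  have h4 : S.card < b + 1 := by
    by_contra hc
    exact absurd h3 (not_lt.2 (Nat.pow_le_pow_right (by omega) (by omega)))
  omega

/-- the mean of the number of the large primes whose square divides the value -/
lemma sum_Tq {D : ℤ[X]} {z c b : ℕ} (hG : GoodD D z c) (hz1 : 1 ≤ z) (N : ℤ) (M : ℕ)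
    (hM : z ≤ M)
    (hsize : ∀ t ∈ Ioc N (N + (M : ℤ)), (D.eval t).natAbs < (M + 1) ^ (b + 1)) :
    ∑ t ∈ (Ioc N (N + (M : ℤ))).filter (fun t => D.eval t ≠ 0), ((Tq D z t).card : ℝ) ≤
      (2 * c + b) * M := by
  classical
  have h1 : ∀ t ∈ (Ioc N (N + (M : ℤ))).filter (fun t => D.eval t ≠ 0),
      ((Tq D z t).card : ℝ) ≤
        ((∑ p ∈ PS z M, if ((p ^ 2 : ℕ) : ℤ) ∣ D.eval t then (1 : ℝ) else 0) + b) := by
    intro t ht
    rw [mem_filter] at ht
    have h2 : (Tq D z t).card ≤ ((PS z M).filter (fun p : ℕ => ((p ^ 2 : ℕ) : ℤ) ∣ D.eval t)).card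
        + ((Tq D z t).filter (fun p => M < p)).card := by
      rw [← card_filter_add_card_filter_not (s := Tq D z t) (p := fun p => M < p),
        add_comm]
      refine Nat.add_le_add_right (card_le_card ?_) _
      intro p hp
      rw [mem_filter, mem_Tq ht.2] at hp
      rw [mem_filter, mem_PS]
      exact ⟨⟨⟨hp.1.2.1, not_lt.1 hp.2⟩, hp.1.1⟩, hp.1.2.2⟩
    have h3 : ((Tq D z t).filter (fun p => M < p)).card ≤ b := by
      refine big_primes (Int.natAbs_ne_zero.2 ht.2) (hsize t ht.1) _ fun p hp => ?_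
      rw [mem_filter, mem_Tq ht.2] at hp
      have hpd : (p : ℤ) ∣ ((p ^ 2 : ℕ) : ℤ) := by push_cast; exact dvd_pow_self _ two_ne_zero
      exact ⟨hp.1.1, hp.2, Int.natCast_dvd.1 (hpd.trans hp.1.2.2)⟩
    rw [sum_ite, sum_const_zero, add_zero, sum_const, nsmul_eq_mul, mul_one]
    exact_mod_cast h2.trans (Nat.add_le_add_left h3 _)
  refine (sum_le_sum h1).trans ?_
  have h2 : ∑ t ∈ (Ioc N (N + (M : ℤ))).filter (fun t => D.eval t ≠ 0),
      ((∑ p ∈ PS z M, if ((p ^ 2 : ℕ) : ℤ) ∣ D.eval t then (1 : ℝ) else 0) + b) ≤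
      ∑ t ∈ Ioc N (N + (M : ℤ)),
        ((∑ p ∈ PS z M, if ((p ^ 2 : ℕ) : ℤ) ∣ D.eval t then (1 : ℝ) else 0) + b) := by
    refine sum_le_sum_of_subset_of_nonneg (filter_subset _ _) fun t _ _ => ?_
    refine add_nonneg (sum_nonneg fun p _ => ?_) (Nat.cast_nonneg _)
    split_ifs <;> norm_num
  refine h2.trans ?_
  rw [sum_add_distrib, sum_comm, sum_const, Int.card_Ioc, nsmul_eq_mul]
  simp only [sum_ind]
  have h3 : ∑ p ∈ PS z M, (((Ioc N (N + M)).filter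
      (fun t => ((p ^ 2 : ℕ) : ℤ) ∣ D.eval t)).card : ℝ) ≤
      ∑ p ∈ PS z M, ((c : ℝ) * M * ((p : ℝ) ^ 2)⁻¹ + c) := by
    refine sum_le_sum fun p hp => ?_
    have h4 := cnt_sq hG (mem_PS.1 hp).2 (mem_PS.1 hp).1.1 N M
    refine h4.trans (le_of_eq ?_)
    ring
  have h4 : ∑ p ∈ PS z M, ((p : ℝ) ^ 2)⁻¹ ≤ 1 := by
    have h5 : ∑ p ∈ PS z M, ((p : ℝ) ^ 2)⁻¹ ≤ ∑ p ∈ Ioc z M, ((p : ℝ) ^ 2)⁻¹ := by
      unfold PS
      exact sum_le_sum_of_subset_of_nonneg (filter_subset _ _) fun p _ _ => by positivity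
    have h6 := sum_Ioc_inv_sq_le_sub (α := ℝ) (k := z) (n := M) (by omega) hM
    have h7 : (z : ℝ)⁻¹ ≤ 1 := inv_le_one_of_one_le₀ (by exact_mod_cast hz1)
    have h8 : (0 : ℝ) ≤ (M : ℝ)⁻¹ := by positivity
    linarith
  have h5 : ((PS z M).card : ℝ) ≤ M := by exact_mod_cast card_PS z M
  have hc0 : (0 : ℝ) ≤ c := Nat.cast_nonneg _
  have hM0 : (0 : ℝ) ≤ M := Nat.cast_nonneg _
  have h6 : ∑ p ∈ PS z M, ((c : ℝ) * M * ((p : ℝ) ^ 2)⁻¹ + c) ≤ 2 * c * M := by
    rw [sum_add_distrib, ← mul_sum, sum_const, nsmul_eq_mul]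
    have e1 := mul_le_mul_of_nonneg_left h4 (mul_nonneg hc0 hM0)
    have e2 := mul_le_mul_of_nonneg_right h5 hc0
    linarith
  have h7 : (((N + (M : ℤ) - N).toNat : ℕ) : ℝ) = M := by
    rw [show N + (M : ℤ) - N = (M : ℤ) by ring]
    simp
  rw [h7]
  have h8 := h3.trans h6
  have h9 : (M : ℝ) * b = b * M := mul_comm _ _
  linarith

/-- **Markov** -/
lemma markov {D : ℤ[X]} {z c b : ℕ} (hG : GoodD D z c) (hz1 : 1 ≤ z) (N : ℤ) (M : ℕ)
    (hM : z ≤ M)
    (hsize : ∀ t ∈ Ioc N (N + (M : ℤ)), (D.eval t).natAbs < (M + 1) ^ (b + 1)) (X : ℝ) :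
    (((Ioc N (N + (M : ℤ))).filter (fun t => D.eval t ≠ 0 ∧ X < ((Tq D z t).card : ℝ))).card : ℝ)
      * X ≤ (2 * c + b) * M := by
  refine le_trans ?_ (sum_Tq hG hz1 N M hM hsize)
  rw [← nsmul_eq_mul, ← sum_const]
  refine (sum_le_sum fun t ht => ((mem_filter.1 ht).2.2).le).trans ?_
  refine sum_le_sum_of_subset_of_nonneg ?_ fun t _ _ => Nat.cast_nonneg _
  intro t ht
  rw [mem_filter] at ht ⊢
  exact ⟨ht.1, ht.2.1⟩

section det

variable {J : Type} [Fintype J] [DecidableEq J]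

/-- valuation one -/
lemma odd_val {p : ℕ} (hp : p.Prime) {x R : ℤ} (hx : (p : ℤ) ∣ x)
    (hx2 : ¬ ((p ^ 2 : ℕ) : ℤ) ∣ x) (hR : ¬ (p : ℤ) ∣ R) : Odd (padicValInt p (R * x)) := by
  have : Fact p.Prime := ⟨hp⟩
  have hx0 : x ≠ 0 := by
    rintro rfl
    exact hx2 (dvd_zero _)
  have hR0 : R ≠ 0 := by
    rintro rfl
    exact hR (dvd_zero _)
  have h0 : R * x ≠ 0 := mul_ne_zero hR0 hx0
  have h1 : 1 ≤ padicValInt p (R * x) := by
    have h2 := (padicValInt_dvd_iff (p := p) 1 (R * x)).1 (by rw [pow_one]; exact hx.mul_left R)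
    exact h2.resolve_left h0
  have h2 : ¬ 2 ≤ padicValInt p (R * x) := by
    intro h3
    have h4 := (padicValInt_dvd_iff (p := p) 2 (R * x)).2 (Or.inr h3)
    have h5 : IsCoprime ((p : ℤ) ^ 2) R :=
      ((Nat.prime_iff_prime_int.1 hp).coprime_iff_not_dvd.2 hR).pow_left
    apply hx2
    push_cast
    exact h5.dvd_of_dvd_mul_left h4
  have h3 : padicValInt p (R * x) = 1 := by omega
  rw [h3]
  exact odd_one

/-- the value is `R x_j` with `p` not dividing `R` -/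
lemma Fval_split {cls : J → Fin 4} {a : Fin 3 → ℤ} {f : J → ℤ[X]} {z c : ℕ} (h : Gp a f z c)
    {p : ℕ} (hp : p.Prime) (hz : z < p) {t : ℤ} {j : J} (hj : (p : ℤ) ∣ (f j).eval t)
    {k : Fin 3} (hjk : j ∈ fs cls k) :
    ∃ R : ℤ, ¬ (p : ℤ) ∣ R ∧ Fval cls a (fun l => (f l).eval t) k = R * (f j).eval t := by
  refine ⟨a k * ∏ l ∈ (fs cls k).erase j, (f l).eval t, ?_, ?_⟩
  · intro hd
    have hpi := Nat.prime_iff_prime_int.1 hp
    rcases hpi.dvd_or_dvd hd with h1 | h1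
    · exact h.const p hp hz k h1
    · obtain ⟨l, hl, h2⟩ := (hpi.dvd_finsetProd_iff _).1 h1
      exact h.pair p hp hz j l (ne_of_mem_erase hl).symm t ⟨hj, h2⟩
  · unfold Fval
    rw [← mul_prod_erase _ _ hjk]
    ring

lemma dvd_Fval {cls : J → Fin 4} {a : Fin 3 → ℤ} {f : J → ℤ[X]} {z c : ℕ} (h : Gp a f z c)
    {p : ℕ} (hp : p.Prime) (hz : z < p) {t : ℤ} {k : Fin 3}
    (hd : (p : ℤ) ∣ Fval cls a (fun l => (f l).eval t) k) :
    ∃ l ∈ fs cls k, (p : ℤ) ∣ (f l).eval t := by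
  have hpi := Nat.prime_iff_prime_int.1 hp
  unfold Fval at hd
  rcases hpi.dvd_or_dvd hd with h1 | h1
  · exact absurd h1 (h.const p hp hz k)
  · exact (hpi.dvd_finsetProd_iff _).1 h1

lemma Fval_ne {cls : J → Fin 4} {a : Fin 3 → ℤ} {f : J → ℤ[X]} (ha : ∀ k, a k ≠ 0) {t : ℤ}
    (h0 : ∀ j, (f j).eval t ≠ 0) (k : Fin 3) : Fval cls a (fun l => (f l).eval t) k ≠ 0 := by
  unfold Fval
  exact mul_ne_zero (ha k) (prod_ne_zero_iff.2 fun l _ => h0 l)

lemma mem_Tq_prod {f : J → ℤ[X]} {z p : ℕ} {t : ℤ} (h0 : ∀ j, (f j).eval t ≠ 0)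
    (hp : p.Prime) (hz : z < p) {j : J} (hj : ((p ^ 2 : ℕ) : ℤ) ∣ (f j).eval t) :
    p ∈ Tq (∏ j, f j) z t := by
  have h1 : (∏ j, f j).eval t ≠ 0 := by
    rw [eval_prod]
    exact prod_ne_zero_iff.2 fun l _ => h0 l
  rw [mem_Tq h1]
  refine ⟨hp, hz, ?_⟩
  rw [eval_prod]
  exact hj.trans (dvd_prod_of_mem _ (mem_univ j))

/-- the prime factors of exact order one -/
noncomputable def Pj (f : J → ℤ[X]) (z : ℕ) (t : ℤ) (j : J) : Finset ℕ := by
  classical
  exact ((f j).eval t).natAbs.primeFactors.filter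
    (fun p => z < p ∧ ¬ ((p ^ 2 : ℕ) : ℤ) ∣ (f j).eval t)

lemma mem_Pj {f : J → ℤ[X]} {z : ℕ} {t : ℤ} {j : J} {p : ℕ} (h0 : (f j).eval t ≠ 0) :
    p ∈ Pj f z t j ↔ p.Prime ∧ (p : ℤ) ∣ (f j).eval t ∧ z < p ∧
      ¬ ((p ^ 2 : ℕ) : ℤ) ∣ (f j).eval t := by
  classical
  unfold Pj
  rw [mem_filter, Nat.mem_primeFactors, ← Int.natCast_dvd]
  constructor
  · rintro ⟨⟨h1, h2, _⟩, h3, h4⟩
    exact ⟨h1, h2, h3, h4⟩
  · rintro ⟨h1, h2, h3, h4⟩
    exact ⟨⟨h1, h2, Int.natAbs_ne_zero.2 h0⟩, h3, h4⟩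

/-- the lower bound for `GA` -/
lemma GA_ge {cls : J → Fin 4} {a : Fin 3 → ℤ} {f : J → ℤ[X]} {z c : ℕ} (h : Gp a f z c)
    (hz11 : 11 ≤ z) (ha : ∀ k, a k ≠ 0) {t : ℤ} (h0 : ∀ j, (f j).eval t ≠ 0)
    (hsub : Fval cls a (fun l => (f l).eval t) 0 - Fval cls a (fun l => (f l).eval t) 1 =
      Fval cls a (fun l => (f l).eval t) 2) :
    ∑ j ∈ univ.filter (fun j => cls j = 0 ∨ cls j = 1),
        ((f j).eval t).natAbs.primeFactors.card ≤
      (GA (Fval cls a (fun l => (f l).eval t) 0) (Fval cls a (fun l => (f l).eval t) 1)).card +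
        (univ.filter (fun j => cls j = 0 ∨ cls j = 1)).card *
          ((z + 1) + (Tq (∏ j, f j) z t).card) := by
  classical
  set x : J → ℤ := fun l => (f l).eval t with hx
  have h1 : ∀ j, ((f j).eval t).natAbs.primeFactors.card ≤
      (Pj f z t j).card + ((z + 1) + (Tq (∏ j, f j) z t).card) := by
    intro j
    have h2 : ((f j).eval t).natAbs.primeFactors ⊆
        Pj f z t j ∪ (range (z + 1) ∪ Tq (∏ j, f j) z t) := by
      intro p hp
      rw [Nat.mem_primeFactors, ← Int.natCast_dvd] at hp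
      rw [mem_union, mem_union, mem_range]
      by_cases hpz : p < z + 1
      · exact Or.inr (Or.inl hpz)
      · by_cases hp2 : ((p ^ 2 : ℕ) : ℤ) ∣ (f j).eval t
        · exact Or.inr (Or.inr (mem_Tq_prod h0 hp.1 (by omega) hp2))
        · exact Or.inl ((mem_Pj (h0 j)).2 ⟨hp.1, hp.2.1, by omega, hp2⟩)
    refine (card_le_card h2).trans ((card_union_le _ _).trans ?_)
    refine Nat.add_le_add_left ((card_union_le _ _).trans ?_) _
    rw [card_range]
  have h2 : ∑ j ∈ univ.filter (fun j => cls j = 0 ∨ cls j = 1), (Pj f z t j).card ≤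
      (GA (Fval cls a x 0) (Fval cls a x 1)).card := by
    rw [← card_biUnion]
    · refine card_le_card ?_
      intro p hp
      rw [mem_biUnion] at hp
      obtain ⟨j, hj, hpj⟩ := hp
      rw [mem_filter] at hj
      rw [mem_Pj (h0 j)] at hpj
      obtain ⟨hp1, hp2, hp3, hp4⟩ := hpj
      have hA := Fval_ne (cls := cls) ha h0 0
      have hB := Fval_ne (cls := cls) ha h0 1
      have hnd : ¬ (p : ℤ) ∣ Fval cls a x 0 - Fval cls a x 1 := by
        rw [hsub]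
        intro hd
        obtain ⟨l, hl, h3⟩ := dvd_Fval h hp1 hp3 hd
        refine h.pair p hp1 hp3 j l ?_ t ⟨hp2, h3⟩
        rintro rfl
        unfold fs at hl
        rw [mem_filter] at hl
        rcases hj.2 with e | e <;> rcases hl.2 with e' | e' <;> rw [e] at e' <;>
          exact absurd e' (by decide)
      unfold GA
      rw [mem_filter, Nat.mem_primeFactors, ← Int.natCast_dvd]
      rcases hj.2 with e | e
      · have hjk : j ∈ fs cls 0 := by
          unfold fs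
          rw [mem_filter]
          exact ⟨mem_univ _, Or.inl (by rw [e]; rfl)⟩
        obtain ⟨R, hR1, hR2⟩ := Fval_split h hp1 hp3 hp2 hjk
        refine ⟨⟨hp1, ?_, Int.natAbs_ne_zero.2 (mul_ne_zero hA hB)⟩, by omega, hnd, Or.inl ?_⟩
        · refine Dvd.dvd.mul_right ?_ _
          rw [hR2]
          exact hp2.mul_left R
        · rw [hR2]
          exact odd_val hp1 hp2 hp4 hR1
      · have hjk : j ∈ fs cls 1 := by
          unfold fs
          rw [mem_filter]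
          exact ⟨mem_univ _, Or.inl (by rw [e]; rfl)⟩
        obtain ⟨R, hR1, hR2⟩ := Fval_split h hp1 hp3 hp2 hjk
        refine ⟨⟨hp1, ?_, Int.natAbs_ne_zero.2 (mul_ne_zero hA hB)⟩, by omega, hnd, Or.inr ?_⟩
        · refine Dvd.dvd.mul_left ?_ _
          rw [hR2]
          exact hp2.mul_left R
        · rw [hR2]
          exact odd_val hp1 hp2 hp4 hR1
    · intro j _ l _ hjl
      rw [Function.onFun, disjoint_left]
      intro p hp hp'
      rw [mem_Pj (h0 _)] at hp hp'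
      exact h.pair p hp.1 hp.2.2.1 j l hjl t ⟨hp.2.1, hp'.2.1⟩
  refine (sum_le_sum fun j _ => h1 j).trans ?_
  rw [sum_add_distrib, sum_const, smul_eq_mul]
  exact Nat.add_le_add_right h2 _

/-- the upper bound for `C1` -/
lemma C1_le {cls : J → Fin 4} {a : Fin 3 → ℤ} {f : J → ℤ[X]} {z c : ℕ} (h : Gp a f z c)
    {t : ℤ} (h0 : ∀ j, (f j).eval t ≠ 0)
    (hsub : Fval cls a (fun l => (f l).eval t) 0 - Fval cls a (fun l => (f l).eval t) 1 =
      Fval cls a (fun l => (f l).eval t) 2) :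
    (C1 (Fval cls a (fun l => (f l).eval t) 0) (Fval cls a (fun l => (f l).eval t) 1)).card ≤
      ∑ j ∈ univ.filter (fun j => cls j = 2), ((f j).eval t).natAbs.primeFactors.card +
        ((z + 1) + (Tq (∏ j, f j) z t).card) := by
  classical
  set x : J → ℤ := fun l => (f l).eval t with hx
  have h1 : C1 (Fval cls a x 0) (Fval cls a x 1) ⊆
      (univ.filter (fun j => cls j = 2)).biUnion
        (fun j => ((f j).eval t).natAbs.primeFactors) ∪ (range (z + 1) ∪ Tq (∏ j, f j) z t) := by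
    intro p hp
    unfold C1 at hp
    rw [mem_filter, Nat.mem_primeFactors, ← Int.natCast_dvd] at hp
    obtain ⟨⟨hp1, hp2, _⟩, hp3, hp4⟩ := hp
    rw [mem_union, mem_union, mem_range]
    by_cases hpz : p < z + 1
    · exact Or.inr (Or.inl hpz)
    · have hpz' : z < p := by omega
      rw [hsub] at hp2
      obtain ⟨l, hl, h3⟩ := dvd_Fval h hp1 hpz' hp2
      unfold fs at hl
      rw [mem_filter] at hl
      rcases hl.2 with e | e
      · refine Or.inl (mem_biUnion.2 ⟨l, mem_filter.2 ⟨mem_univ _, by rw [e]; rfl⟩, ?_⟩)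
        rw [Nat.mem_primeFactors, ← Int.natCast_dvd]
        exact ⟨hp1, h3, Int.natAbs_ne_zero.2 (h0 l)⟩
      · by_cases h4 : ((p ^ 2 : ℕ) : ℤ) ∣ (f l).eval t
        · exact Or.inr (Or.inr (mem_Tq_prod h0 hp1 hpz' h4))
        · exfalso
          apply hp4
          have hjk : l ∈ fs cls 0 := by
            unfold fs
            rw [mem_filter]
            exact ⟨mem_univ _, Or.inr e⟩
          obtain ⟨R, hR1, hR2⟩ := Fval_split h hp1 hpz' h3 hjk
          rw [hR2]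
          exact odd_val hp1 h3 h4 hR1
  refine (card_le_card h1).trans ((card_union_le _ _).trans (Nat.add_le_add card_biUnion_le ?_))
  refine (card_union_le _ _).trans ?_
  rw [card_range]

end det

lemma zeros {D : ℤ[X]} (hD : D ≠ 0) (N : ℤ) (M : ℕ) :
    ((Ioc N (N + (M : ℤ))).filter (fun t => D.eval t = 0)).card ≤ D.natDegree := by
  classical
  have h1 : (Ioc N (N + (M : ℤ))).filter (fun t => D.eval t = 0) ⊆ D.roots.toFinset := by
    intro t ht
    rw [Multiset.mem_toFinset, mem_roots hD]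
    exact (mem_filter.1 ht).2
  exact (card_le_card h1).trans ((Multiset.toFinset_card_le _).trans (card_roots' D))

lemma size (D : ℤ[X]) (L : ℕ) : ∃ b M0 : ℕ, ∀ (N : ℤ) (M : ℕ), M0 ≤ M → |N| ≤ (M : ℤ) ^ L →
    ∀ t ∈ Ioc N (N + (M : ℤ)), (D.eval t).natAbs < (M + 1) ^ (b + 1) := by
  obtain ⟨K, hK⟩ := eval_le D
  refine ⟨(L + 2) * D.natDegree + 1, K + 2, fun N M hM hN t ht => ?_⟩
  rw [mem_Ioc] at ht
  have hM0 : 1 ≤ M := by omega
  have e5 : M ^ L ≤ M ^ (L + 1) := Nat.pow_le_pow_right hM0 (by omega)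
  have e6 : M ≤ M ^ (L + 1) := Nat.le_self_pow (by omega) M
  have e7 : N.natAbs ≤ M ^ L := by
    have : ((N.natAbs : ℕ) : ℤ) ≤ ((M ^ L : ℕ) : ℤ) := by
      push_cast
      exact hN
    exact_mod_cast this
  have e8 : t.natAbs ≤ M ^ (L + 2) := by
    calc t.natAbs ≤ N.natAbs + M := by omega
      _ ≤ M ^ (L + 1) + M ^ (L + 1) := Nat.add_le_add (e7.trans e5) e6
      _ = 2 * M ^ (L + 1) := by ring
      _ ≤ M * M ^ (L + 1) := Nat.mul_le_mul_right _ (by omega)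
      _ = M ^ (L + 2) := by ring
  calc (D.eval t).natAbs ≤ K * (M ^ (L + 2)) ^ D.natDegree :=
        hK t _ (Nat.one_le_pow _ _ hM0) e8
    _ ≤ M * (M ^ (L + 2)) ^ D.natDegree := Nat.mul_le_mul_right _ (by omega)
    _ = M ^ ((L + 2) * D.natDegree + 1) := by rw [← pow_mul]; ring
    _ ≤ (M + 1) ^ ((L + 2) * D.natDegree + 1) := Nat.pow_le_pow_left (Nat.le_succ M) _
    _ < (M + 1) ^ ((L + 2) * D.natDegree + 1 + 1) := Nat.pow_lt_pow_right (by omega) (by omega)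

/-- the arithmetic of the final step -/
lemma arith {n n0 n1 n2 δ δ' LL z T G K S01 S2 : ℝ} (hn0 : 0 ≤ n0) (hn1 : 0 ≤ n1)
    (h01 : n0 + n1 ≤ n) (h2 : n2 ≤ n) (hδ' : 0 ≤ δ') (hLL : 0 ≤ LL)
    (hz : 0 ≤ z) (hδn : (3 * n + 1) * δ' = δ / 2) (hbig : (n + 1) * (z + 1) ≤ δ / 2 * LL)
    (hT : T ≤ δ' * LL) (hS01 : (n0 + n1) * (LL - δ' * LL) ≤ S01) (hS2 : S2 ≤ n2 * (LL + δ' * LL))
    (hG : S01 ≤ G + (n0 + n1) * ((z + 1) + T)) (hK : K ≤ S2 + ((z + 1) + T)) :
    (n0 + n1 - n2 - δ) * LL + K ≤ G := by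
  have hP : 0 ≤ δ' * LL := mul_nonneg hδ' hLL
  have e1 : (n0 + n1) * (δ' * LL) ≤ n * (δ' * LL) := mul_le_mul_of_nonneg_right h01 hP
  have e2 : n2 * (δ' * LL) ≤ n * (δ' * LL) := mul_le_mul_of_nonneg_right h2 hP
  have e3 : (n0 + n1) * T ≤ (n0 + n1) * (δ' * LL) := mul_le_mul_of_nonneg_left hT (by linarith)
  have e4 : (n0 + n1) * (z + 1) ≤ n * (z + 1) := mul_le_mul_of_nonneg_right h01 (by linarith)
  have e5 : (3 * n + 1) * (δ' * LL) = δ / 2 * LL := by rw [← mul_assoc, hδn]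
  nlinarith

theorem cnt_aux {J : Type} [Fintype J] [DecidableEq J] (cls : J → Fin 4) (a : Fin 3 → ℤ)
    (f : J → ℤ[X]) (ha : ∀ k, a k ≠ 0) (hf0 : ∀ j, f j ≠ 0)
    (hF : C (a 0) * ∏ l ∈ fs cls 0, f l - C (a 1) * ∏ l ∈ fs cls 1, f l =
      C (a 2) * ∏ l ∈ fs cls 2, f l) (z c : ℕ) (hG : Gp a f z c) (hz11 : 11 ≤ z)
    (δ ε : ℝ) (L : ℕ) (hδ : 0 < δ) (hε : 0 < ε)
    (hnorm : ∀ (j : J) (δ ε : ℝ), 0 < δ → 0 < ε → ∃ M0 : ℕ, ∀ (N : ℤ) (M : ℕ), M0 ≤ M →
      |N| ≤ (M : ℤ) ^ L → ((Ex (f j) N M δ).card : ℝ) ≤ ε * M) :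
    ∃ M0 : ℕ, ∀ (N : ℤ) (M : ℕ), M0 ≤ M → |N| ≤ (M : ℤ) ^ L → ∀ S : Finset ℤ,
    (∀ t ∈ S, t ∈ Ioc N (N + (M : ℤ)) ∧ ¬ ((∀ j, (f j).eval t ≠ 0) ∧
      (((univ.filter (fun j => cls j = 0)).card : ℝ) + (univ.filter (fun j => cls j = 1)).card -
        (univ.filter (fun j => cls j = 2)).card - δ) * Real.log (Real.log M) +
      ((C1 (Fval cls a (fun l => (f l).eval t) 0)
        (Fval cls a (fun l => (f l).eval t) 1)).card : ℝ) ≤
      ((GA (Fval cls a (fun l => (f l).eval t) 0)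
        (Fval cls a (fun l => (f l).eval t) 1)).card : ℝ))) → (S.card : ℝ) ≤ ε * M := by
  classical
  have hD0 : (∏ j, f j) ≠ 0 := prod_ne_zero_iff.2 fun j _ => hf0 j
  obtain ⟨b, M1, hsize⟩ := size (∏ j, f j) L
  obtain ⟨n, hn⟩ : ∃ n : ℕ, n = Fintype.card J := ⟨_, rfl⟩
  obtain ⟨δ', hδ'⟩ : ∃ δ' : ℝ, δ' = δ / (2 * (3 * n + 1)) := ⟨_, rfl⟩
  have hδ'0 : 0 < δ' := by rw [hδ']; positivity
  choose M2 hM2 using fun j : J => hnorm j δ' (ε / (3 * (n + 1))) hδ'0 (by positivity)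
  have e1 := tendsto_LL.eventually_ge_atTop (2 * ((n + 1) * (z + 1)) / δ)
  have e2 := tendsto_LL.eventually_ge_atTop (3 * (2 * c + b) / (δ' * ε))
  have e3 := tendsto_LL.eventually_ge_atTop 1
  have e4 : ∀ᶠ M : ℕ in Filter.atTop, 3 * ((∏ j, f j).natDegree : ℝ) / ε ≤ M :=
    tendsto_natCast_atTop_atTop.eventually_ge_atTop _
  obtain ⟨M3, hM3⟩ := Filter.eventually_atTop.1 (e1.and (e2.and (e3.and e4)))
  refine ⟨M1 + ∑ j, M2 j + M3 + z, fun N M hM hN S hS => ?_⟩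
  obtain ⟨h1, h2, h3, h4⟩ := hM3 M (by omega)
  obtain ⟨LL, hLL⟩ : ∃ LL : ℝ, LL = Real.log (Real.log M) := ⟨_, rfl⟩
  rw [← hLL] at h1 h2 h3
  have hsub : ∀ t, Fval cls a (fun l => (f l).eval t) 0 - Fval cls a (fun l => (f l).eval t) 1 =
      Fval cls a (fun l => (f l).eval t) 2 := by
    intro t
    have h5 := congrArg (Polynomial.eval t) hF
    rw [eval_sub, eval_mul, eval_mul, eval_mul, eval_C, eval_C, eval_C, eval_prod, eval_prod,
      eval_prod] at h5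
    exact h5
  set S0 := (Ioc N (N + (M : ℤ))).filter (fun t => (∏ j, f j).eval t = 0) with hS0
  set S1 := univ.biUnion (fun j => Ex (f j) N M δ') with hS1
  set S2 := (Ioc N (N + (M : ℤ))).filter (fun t => (∏ j, f j).eval t ≠ 0 ∧
    δ' * LL < ((Tq (∏ j, f j) z t).card : ℝ)) with hS2
  have hn1 : (univ.filter (fun j => cls j = 0 ∨ cls j = 1)).card =
      (univ.filter (fun j => cls j = 0)).card + (univ.filter (fun j => cls j = 1)).card := by
    rw [filter_or, card_union_of_disjoint]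
    rw [disjoint_left]
    intro j hj hj'
    rw [mem_filter] at hj hj'
    exact absurd (hj.2.symm.trans hj'.2) (by decide)
  have hn2 : (univ.filter (fun j => cls j = 0 ∨ cls j = 1)).card ≤ n := by
    rw [hn]
    exact card_le_univ _
  have hn3 : (univ.filter (fun j => cls j = 2)).card ≤ n := by
    rw [hn]
    exact card_le_univ _
  have hLL0 : 0 ≤ LL := by linarith
  have hsubset : S ⊆ S0 ∪ (S1 ∪ S2) := by
    intro t ht
    obtain ⟨ht1, ht2⟩ := hS t ht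
    by_contra hc
    rw [mem_union, mem_union, not_or, not_or] at hc
    obtain ⟨c1, c2, c3⟩ := hc
    have d1 : (∏ j, f j).eval t ≠ 0 := fun h => c1 (mem_filter.2 ⟨ht1, h⟩)
    have d2 : ∀ j, (f j).eval t ≠ 0 := by
      rw [eval_prod] at d1
      exact fun j => (prod_ne_zero_iff.1 d1) j (mem_univ j)
    have d3 : ∀ j, |(((f j).eval t).natAbs.primeFactors.card : ℝ) - LL| ≤ δ' * LL := by
      intro j
      by_contra h5
      push Not at h5
      refine c2 (mem_biUnion.2 ⟨j, mem_univ j, mem_Ex.2 ⟨ht1, d2 j, ?_⟩⟩)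
      rw [← hLL]
      exact h5
    have d4 : ((Tq (∏ j, f j) z t).card : ℝ) ≤ δ' * LL := by
      by_contra h5
      push Not at h5
      exact c3 (mem_filter.2 ⟨ht1, d1, h5⟩)
    refine ht2 ⟨d2, ?_⟩
    rw [← hLL]
    have g1 := GA_ge hG hz11 ha d2 (hsub t)
    have g2 := C1_le hG d2 (hsub t)
    have g1' : ((∑ j ∈ univ.filter (fun j => cls j = 0 ∨ cls j = 1),
        ((f j).eval t).natAbs.primeFactors.card : ℕ) : ℝ) ≤
        ((GA (Fval cls a (fun l => (f l).eval t) 0)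
          (Fval cls a (fun l => (f l).eval t) 1)).card : ℝ) +
        (((univ.filter (fun j => cls j = 0)).card : ℝ) + (univ.filter (fun j => cls j = 1)).card) *
          (((z : ℝ) + 1) + (Tq (∏ j, f j) z t).card) := by
      rw [hn1] at g1
      exact_mod_cast g1
    have g2' : ((C1 (Fval cls a (fun l => (f l).eval t) 0)
          (Fval cls a (fun l => (f l).eval t) 1)).card : ℝ) ≤
        ((∑ j ∈ univ.filter (fun j => cls j = 2),
          ((f j).eval t).natAbs.primeFactors.card : ℕ) : ℝ) +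
          (((z : ℝ) + 1) + (Tq (∏ j, f j) z t).card) := by
      exact_mod_cast g2
    refine arith (n := n) (δ' := δ') (z := z) (Nat.cast_nonneg _) (Nat.cast_nonneg _) ?_ ?_ hδ'0.le
      hLL0 (Nat.cast_nonneg _) ?_ ?_ d4 ?_ ?_ g1' g2'
    · rw [hn1] at hn2
      exact_mod_cast hn2
    · exact_mod_cast hn3
    · rw [hδ']
      field_simp
    · rw [div_le_iff₀ hδ] at h1
      linarith
    · push_cast
      have g3 : ∑ j ∈ univ.filter (fun j => cls j = 0 ∨ cls j = 1), (LL - δ' * LL) ≤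
          ∑ j ∈ univ.filter (fun j => cls j = 0 ∨ cls j = 1),
            (((f j).eval t).natAbs.primeFactors.card : ℝ) := by
        refine sum_le_sum fun j _ => ?_
        have := (abs_le.1 (d3 j)).1
        linarith
      rw [sum_const, nsmul_eq_mul, hn1] at g3
      push_cast at g3
      exact g3
    · push_cast
      have g3 : ∑ j ∈ univ.filter (fun j => cls j = 2),
            (((f j).eval t).natAbs.primeFactors.card : ℝ) ≤
          ∑ j ∈ univ.filter (fun j => cls j = 2), (LL + δ' * LL) := by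
        refine sum_le_sum fun j _ => ?_
        have := (abs_le.1 (d3 j)).2
        linarith
      rw [sum_const, nsmul_eq_mul] at g3
      exact g3
  have hM0 : (0 : ℝ) ≤ M := Nat.cast_nonneg _
  have k0 : (S0.card : ℝ) ≤ ε / 3 * M := by
    have h5 : (S0.card : ℝ) ≤ (∏ j, f j).natDegree := by exact_mod_cast zeros hD0 N M
    rw [div_le_iff₀ hε] at h4
    linarith
  have k1 : (S1.card : ℝ) ≤ ε / 3 * M := by
    have h5 : (S1.card : ℝ) ≤ ∑ j, ((Ex (f j) N M δ').card : ℝ) := by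
      exact_mod_cast card_biUnion_le
    have h6 : ∀ j, ((Ex (f j) N M δ').card : ℝ) ≤ ε / (3 * (n + 1)) * M := fun j =>
      hM2 j N M ((single_le_sum (f := M2) (fun _ _ => Nat.zero_le _) (mem_univ j)).trans
        (by omega)) hN
    refine h5.trans ((sum_le_sum fun j _ => h6 j).trans ?_)
    rw [sum_const, nsmul_eq_mul, card_univ, ← hn]
    have h7 : (n : ℝ) * (ε / (3 * (n + 1))) ≤ ε / 3 := by
      rw [mul_div_assoc', div_le_div_iff₀ (by positivity) (by norm_num)]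
      nlinarith [hε.le, (Nat.cast_nonneg n : (0 : ℝ) ≤ n)]
    calc (n : ℝ) * (ε / (3 * (n + 1)) * M) = (n : ℝ) * (ε / (3 * (n + 1))) * M := by ring
      _ ≤ ε / 3 * M := mul_le_mul_of_nonneg_right h7 hM0
  have k2 : (S2.card : ℝ) ≤ ε / 3 * M := by
    have h5 := markov hG.good (by omega) N M (by omega) (hsize N M (by omega) hN) (δ' * LL)
    have h6 : 0 < δ' * LL := mul_pos hδ'0 (by linarith)
    have h7 : 3 * (2 * (c : ℝ) + b) ≤ LL * (δ' * ε) := by
      rwa [div_le_iff₀ (by positivity)] at h2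
    have h8 : (S2.card : ℝ) * (δ' * LL) ≤ ε / 3 * M * (δ' * LL) := by
      refine h5.trans ?_
      have h9 := mul_le_mul_of_nonneg_right h7 hM0
      nlinarith
    exact le_of_mul_le_mul_right h8 h6
  have k3 : (S.card : ℝ) ≤ S0.card + (S1.card + S2.card) := by
    have h5 := (card_le_card hsubset).trans ((card_union_le _ _).trans
      (Nat.add_le_add_left (card_union_le _ _) _))
    exact_mod_cast h5
  linarith

/-- **LS-CNT** -/
theorem cnt : Pool.Agent.TH841.LS.CNT := by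
  intro J _ _ cls a f ha hf hF δ ε L hδ hε
  obtain ⟨z0, hz0⟩ := exists_Gp Pool.Agent.TH841.PT.GDPf.gdp hf ha ((∏ j, f j).natDegree + 1) le_rfl
  obtain ⟨M0, hM0⟩ := cnt_aux cls a f ha (fun j => (hf.irr j).ne_zero) hF (z0 + 11) _
    (hz0 (z0 + 11) (by omega)) (by omega) δ ε L hδ hε
    (fun j δ ε hδ hε => normal' (f j) (hf.irr j) (hf.deg j) L δ ε hδ hε)
  refine ⟨M0, fun N M hM hN => hM0 N M hM hN _ fun t ht => ?_⟩
  rw [mem_filter] at ht
  exact ht

end Pool.Agent.TH841.LS.CNTf
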