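import Mathlib
import Pool.Agent.TH841.LS.Loca0

/-!
# Local points of `y² = x (x - A) (x - B)` at bad primes (jobs LS-LOCD, LS-LOCE)
-/

set_option autoImplicit false

namespace Pool.Agent.TH841.LS.LOCD0

open Finset

variable {p : ℕ} [hp : Fact p.Prime]

/-- integers which are quadratic residues are squares of p-adic numbers -/
theorem sqz (h2 : p ≠ 2) {z : ℤ} (hz : quadraticChar (ZMod p) (z : ZMod p) = 1) :
    ∃ v : ℚ_[p], (z : ℚ_[p]) = v ^ 2 := by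
  obtain ⟨v, hv⟩ := Pool.Agent.TH841.LS.LOCA0.sq_of_char h2 (u := (z : ℤ_[p])) (by
    rw [map_intCast]; exact hz)
  refine ⟨v, ?_⟩
  have h : (((z : ℤ_[p])) : ℚ_[p]) = ((v * v : ℤ_[p]) : ℚ_[p]) := by rw [hv]
  push_cast at h
  rw [h]
  ring

theorem one_sub (h2 : p ≠ 2) (z : ℤ) : ∃ v : ℚ_[p], 1 - (z : ℚ_[p]) * (p : ℚ_[p]) ^ 2 = v ^ 2 := by
  obtain ⟨v, hv⟩ := sqz h2 (z := 1 - z * (p : ℤ) ^ 2) (by
    push_cast
    rw [ZMod.natCast_self]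
    simp)
  push_cast at hv
  exact ⟨v, hv⟩

theorem dec {z : ℤ} (hz : z ≠ 0) :
    ∃ z' : ℤ, z = (p : ℤ) ^ (padicValInt p z) * z' ∧ ¬ (p : ℤ) ∣ z' := by
  obtain ⟨z', hz'⟩ := padicValInt_dvd (p := p) z
  refine ⟨z', hz', fun hd => ?_⟩
  have h1 : (p : ℤ) ^ (padicValInt p z + 1) ∣ z := by
    obtain ⟨c, hc⟩ := hd
    refine ⟨c, ?_⟩
    rw [pow_succ, mul_assoc, ← hc]
    exact hz'
  rcases (padicValInt_dvd_iff _ _).1 h1 with h | h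
  · exact hz h
  · omega

theorem chi_ne {z : ℤ} (hz : ¬ (p : ℤ) ∣ z) : (z : ZMod p) ≠ 0 := fun h =>
  hz ((ZMod.intCast_zmod_eq_zero_iff_dvd z p).1 h)

theorem chi_of_jac {z : ℤ} (h : jacobiSym z p = -1) :
    quadraticChar (ZMod p) (z : ZMod p) = -1 := by
  rw [← jacobiSym.legendreSym.to_jacobiSym] at h
  exact h

/-- if `d` is a square then there is a point -/
theorem pt_sq (h2 : p ≠ 2) (A B : ℤ) {d s : ℚ_[p]} (hd : d ≠ 0) (hs : d = s ^ 2) :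
    ∃ X Y r : ℚ_[p], X ≠ 0 ∧ Y ^ 2 = X * (X - (A : ℚ_[p])) * (X - (B : ℚ_[p])) ∧
      X = d * r ^ 2 := by
  have hp0 : (p : ℚ_[p]) ≠ 0 := by exact_mod_cast hp.out.ne_zero
  obtain ⟨u, hu⟩ := one_sub h2 A
  obtain ⟨v, hv⟩ := one_sub h2 B
  have hs0 : s ≠ 0 := by
    rintro rfl
    apply hd
    rw [hs]; ring
  refine ⟨1 / (p : ℚ_[p]) ^ 2, u * v / (p : ℚ_[p]) ^ 3, 1 / (p * s), ?_, ?_, ?_⟩
  · exact div_ne_zero one_ne_zero (pow_ne_zero 2 hp0)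
  · have hA' : 1 / (p : ℚ_[p]) ^ 2 - A = u ^ 2 / (p : ℚ_[p]) ^ 2 := by
      rw [← hu]; field_simp
    have hB' : 1 / (p : ℚ_[p]) ^ 2 - B = v ^ 2 / (p : ℚ_[p]) ^ 2 := by
      rw [← hv]; field_simp
    rw [hA', hB']
    field_simp
  · rw [hs]
    field_simp

/-- if `d A` is a square then `(A, 0)` is a point -/
theorem pt_A {A : ℤ} (B : ℤ) (hA : A ≠ 0) {d t : ℚ_[p]} (hd : d ≠ 0) (ht : d * A = t ^ 2) :
    ∃ X Y r : ℚ_[p], X ≠ 0 ∧ Y ^ 2 = X * (X - (A : ℚ_[p])) * (X - (B : ℚ_[p])) ∧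
      X = d * r ^ 2 := by
  have hA0 : (A : ℚ_[p]) ≠ 0 := by exact_mod_cast hA
  refine ⟨A, 0, t / d, hA0, by ring, ?_⟩
  field_simp
  linear_combination ht

theorem pt_B (A : ℤ) {B : ℤ} (hB : B ≠ 0) {d t : ℚ_[p]} (hd : d ≠ 0) (ht : d * B = t ^ 2) :
    ∃ X Y r : ℚ_[p], X ≠ 0 ∧ Y ^ 2 = X * (X - (A : ℚ_[p])) * (X - (B : ℚ_[p])) ∧
      X = d * r ^ 2 := by
  have hB0 : (B : ℚ_[p]) ≠ 0 := by exact_mod_cast hB
  refine ⟨B, 0, t / d, hB0, by ring, ?_⟩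
  field_simp
  linear_combination ht

/-- if `d A B` is a square then there is a point near `(0, 0)` -/
theorem pt_AB (h2 : p ≠ 2) {A B : ℤ} (hA : A ≠ 0) (hB : B ≠ 0) {d t : ℚ_[p]} (hd : d ≠ 0)
    (ht : d * (A * B) = t ^ 2) :
    ∃ X Y r : ℚ_[p], X ≠ 0 ∧ Y ^ 2 = X * (X - (A : ℚ_[p])) * (X - (B : ℚ_[p])) ∧
      X = d * r ^ 2 := by
  have hp0 : (p : ℚ_[p]) ≠ 0 := by exact_mod_cast hp.out.ne_zero
  have hA0 : (A : ℚ_[p]) ≠ 0 := by exact_mod_cast hA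
  have hB0 : (B : ℚ_[p]) ≠ 0 := by exact_mod_cast hB
  obtain ⟨u, hu⟩ := one_sub h2 A
  obtain ⟨v, hv⟩ := one_sub h2 B
  refine ⟨A * B * (p : ℚ_[p]) ^ 2, A * B * p * u * v, t * p / d,
    mul_ne_zero (mul_ne_zero hA0 hB0) (pow_ne_zero 2 hp0), ?_, ?_⟩
  · calc (A * B * p * u * v : ℚ_[p]) ^ 2 = A ^ 2 * B ^ 2 * p ^ 2 * u ^ 2 * v ^ 2 := by ring
      _ = _ := by rw [← hu, ← hv]; ring
  · field_simp
    linear_combination ht

theorem loce0 (p : ℕ) [hp : Fact p.Prime] (A B d : ℤ) (h2 : p ≠ 2) (hA : A ≠ 0) (hd : d ≠ 0)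
    (hpd : ¬ (p : ℤ) ∣ d) (hj : jacobiSym A p = -1) :
    ∃ X Y r : ℚ_[p], X ≠ 0 ∧ Y ^ 2 = X * (X - (A : ℚ_[p])) * (X - (B : ℚ_[p])) ∧
      X = (d : ℚ_[p]) * r ^ 2 := by
  have hd0 : (d : ℚ_[p]) ≠ 0 := by exact_mod_cast hd
  have hA1 := chi_of_jac hj
  rcases quadraticChar_dichotomy (chi_ne hpd) with h | h
  · obtain ⟨s, hs⟩ := sqz h2 h
    exact pt_sq h2 A B hd0 hs
  · obtain ⟨t, ht⟩ := sqz h2 (z := d * A) (by
      push_cast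
      rw [map_mul, h, hA1]
      norm_num)
    push_cast at ht
    exact pt_A B hA hd0 ht

theorem locd0 (p : ℕ) [hp : Fact p.Prime] (A B d : ℤ) (h2 : p ≠ 2) (hA : A ≠ 0) (hB : B ≠ 0)
    (hd : d ≠ 0) (ho : Odd (padicValInt p A)) (k : ℕ) (u : ℤ)
    (hu : A * B = (p : ℤ) ^ (2 * k) * u) (hj : jacobiSym u p = -1) :
    ∃ X Y r : ℚ_[p], X ≠ 0 ∧ Y ^ 2 = X * (X - (A : ℚ_[p])) * (X - (B : ℚ_[p])) ∧
      X = (d : ℚ_[p]) * r ^ 2 := by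
  have hd0 : (d : ℚ_[p]) ≠ 0 := by exact_mod_cast hd
  have hA0 : (A : ℚ_[p]) ≠ 0 := by exact_mod_cast hA
  have hp0 : (p : ℚ_[p]) ≠ 0 := by exact_mod_cast hp.out.ne_zero
  have hu1 := chi_of_jac hj
  have huq : (A : ℚ_[p]) * B = ((p : ℚ_[p]) ^ k) ^ 2 * u := by
    have : (((A * B : ℤ)) : ℚ_[p]) = (((p : ℤ) ^ (2 * k) * u : ℤ) : ℚ_[p]) := by rw [hu]
    push_cast at this
    rw [this]
    ring
  obtain ⟨e, he, hpe⟩ := dec (p := p) hd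
  obtain ⟨A', hA', hpA'⟩ := dec (p := p) hA
  rcases Nat.even_or_odd (padicValInt p d) with hev | hod
  · obtain ⟨m, hm⟩ := hev
    have hdq : (d : ℚ_[p]) = ((p : ℚ_[p]) ^ m) ^ 2 * e := by
      have : ((d : ℤ) : ℚ_[p]) = (((p : ℤ) ^ (padicValInt p d) * e : ℤ) : ℚ_[p]) := by rw [← he]
      push_cast at this
      rw [this, hm, ← pow_mul, mul_two]
    rcases quadraticChar_dichotomy (chi_ne hpe) with h | h
    · obtain ⟨s, hs⟩ := sqz h2 h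
      exact pt_sq h2 A B hd0 (s := (p : ℚ_[p]) ^ m * s) (by rw [hdq, hs]; ring)
    · obtain ⟨s, hs⟩ := sqz h2 (z := e * u) (by
        push_cast
        rw [map_mul, h, hu1]
        norm_num)
      push_cast at hs
      refine pt_AB h2 hA hB hd0 (t := (p : ℚ_[p]) ^ m * (p : ℚ_[p]) ^ k * s) ?_
      rw [huq, hdq]
      linear_combination ((p : ℚ_[p]) ^ m) ^ 2 * ((p : ℚ_[p]) ^ k) ^ 2 * hs
  · obtain ⟨i, hi⟩ := hod.add_odd ho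
    have hdA : (d : ℚ_[p]) * A = ((p : ℚ_[p]) ^ i) ^ 2 * ((e * A' : ℤ) : ℚ_[p]) := by
      have h1 : ((d * A : ℤ) : ℚ_[p]) = (((p : ℤ) ^ (padicValInt p d) * e *
          ((p : ℤ) ^ (padicValInt p A) * A') : ℤ) : ℚ_[p]) := by rw [← he, ← hA']
      push_cast at h1 ⊢
      rw [h1]
      have h3 : (p : ℚ_[p]) ^ (padicValInt p d) * (p : ℚ_[p]) ^ (padicValInt p A) =
          ((p : ℚ_[p]) ^ i) ^ 2 := by
        rw [← pow_add, hi, ← pow_mul, mul_two]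
      rw [← h3]
      ring
    have hw : ((e * A' : ℤ) : ZMod p) ≠ 0 := by
      push_cast
      exact mul_ne_zero (chi_ne hpe) (chi_ne hpA')
    rcases quadraticChar_dichotomy hw with h | h
    · obtain ⟨s, hs⟩ := sqz h2 h
      exact pt_A B hA hd0 (t := (p : ℚ_[p]) ^ i * s) (by rw [hdA, hs]; ring)
    · obtain ⟨s, hs⟩ := sqz h2 (z := e * A' * u) (by
        rw [Int.cast_mul, map_mul, h, hu1]
        norm_num)
      have hw0 : ((e * A' : ℤ) : ℚ_[p]) ≠ 0 := by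
        intro h0
        have : e * A' = 0 := by exact_mod_cast h0
        rw [this] at hw
        exact hw (by simp)
      have hs' : ((e * A' : ℤ) : ℚ_[p]) * u = s ^ 2 := by
        rw [← hs]
        push_cast
        ring
      refine pt_B A hB hd0
        (t := (d : ℚ_[p]) * (p : ℚ_[p]) ^ k * s / ((p : ℚ_[p]) ^ i * ((e * A' : ℤ) : ℚ_[p]))) ?_
      have hpi : (p : ℚ_[p]) ^ i ≠ 0 := pow_ne_zero _ hp0
      rw [div_pow, eq_div_iff (pow_ne_zero 2 (mul_ne_zero hpi hw0))]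
      -- d B (p^i w)^2 = (d p^k s)^2
      have h5 : (d : ℚ_[p]) * B * ((d : ℚ_[p]) * A) = (d : ℚ_[p]) ^ 2 * (((p : ℚ_[p]) ^ k) ^ 2 * u) := by
        rw [← huq]
        ring
      rw [hdA] at h5
      generalize ((e * A' : ℤ) : ℚ_[p]) = w at *
      calc (d : ℚ_[p]) * B * ((p : ℚ_[p]) ^ i * w) ^ 2 =
          ((d : ℚ_[p]) * B * (((p : ℚ_[p]) ^ i) ^ 2 * w)) * w := by ring
        _ = (d : ℚ_[p]) ^ 2 * ((p : ℚ_[p]) ^ k) ^ 2 * (w * u) := by rw [h5]; ring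
        _ = _ := by rw [hs']; ring

end Pool.Agent.TH841.LS.LOCD0
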