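import Mathlib
import Pool.Agent.TH841.LS.Stm
import Pool.Agent.TH841.SH.Alg
import Pool.Agent.H437R2.Man.MWWeak

/-!
# LS-KER: the number of the classes that come from rational points
-/

set_option autoImplicit false

namespace Pool.Agent.TH841.LS.KERf

open Finset WeierstrassCurve

open Pool.Agent.TH841.SH

open Pool.Agent.TH841.PT (EQ)

open Pool.Agent.TH841.LS (dd)

open Pool.Agent.H437R2.Man.MW (crv pt_fg)

/-- a bound for the number of the classes modulo two -/
theorem card_bound {G : Type} [AddCommGroup G] (hG : AddGroup.FG G)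
    (h4 : ∀ s : Finset G, (∀ g ∈ s, g + g = 0) → s.card ≤ 4) {ι : Type} [Fintype ι] (f : ι → G)
    (hf : ∀ i j, (∃ q, f i - f j = q + q) → i = j) :
    Fintype.card ι ≤ 2 ^ (Module.finrank ℤ G + 2) := by
  classical
  have : Module.Finite ℤ G := Module.Finite.iff_addGroup_fg.mpr hG
  let M := G ⧸ Submodule.torsion ℤ G
  have hr : Module.finrank ℤ M = Module.finrank ℤ G :=
    finrank_quotient_eq_of_le_torsion le_rfl
  have : Module.Finite ℤ M := inferInstance
  have : Module.Free ℤ M := inferInstance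
  let r := Module.finrank ℤ M
  let b : Module.Basis (Fin r) ℤ M := Module.finBasis ℤ M
  let φ : G → (Fin r → ZMod 2) := fun g i =>
    ((b.repr ((Submodule.torsion ℤ G).mkQ g) i : ℤ) : ZMod 2)
  have hφsub : ∀ g h, φ (g - h) = φ g - φ h := by
    intro g h
    ext i
    simp [φ]
  have hφker : ∀ g, φ g = 0 → ∃ q : G, ∃ τ ∈ Submodule.torsion ℤ G, g = q + q + τ := by
    intro g hg
    have h1 : ∀ i, ∃ k : ℤ, b.repr ((Submodule.torsion ℤ G).mkQ g) i = k + k := by
      intro i
      have := congrFun hg i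
      simp only [φ, Pi.zero_apply] at this
      rw [ZMod.intCast_zmod_eq_zero_iff_dvd] at this
      obtain ⟨k, hk⟩ := this
      refine ⟨k, ?_⟩
      rw [hk]
      push_cast
      ring
    choose k hk using h1
    obtain ⟨q, hq⟩ := (Submodule.torsion ℤ G).mkQ_surjective (b.equivFun.symm k)
    refine ⟨q, g - (q + q), ?_, by abel⟩
    rw [← Submodule.Quotient.mk_eq_zero, ← Submodule.mkQ_apply]
    apply b.equivFun.injective
    ext i
    rw [map_sub, map_add, map_sub, map_add, hq]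
    simp only [Pi.sub_apply, Pi.add_apply, LinearEquiv.apply_symm_apply, map_zero, Pi.zero_apply]
    rw [Module.Basis.equivFun_apply, hk]
    ring
  -- the torsion
  let T := Submodule.torsion ℤ G
  have hTf : Module.Finite ℤ T := inferInstance
  have hTfin : Finite T := by
    have h1 : Module.IsTorsion ℤ T := Submodule.torsion_isTorsion
    exact Module.finite_of_fg_torsion T h1
  have : Fintype T := Fintype.ofFinite T
  let D : T →+ T := nsmulAddMonoidHom 2
  have hker : Nat.card D.ker ≤ 4 := by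
    have hfin : Finite D.ker := inferInstance
    have : Fintype D.ker := Fintype.ofFinite _
    rw [Nat.card_eq_fintype_card]
    have h1 := h4 (Finset.univ.image (fun x : D.ker => ((x : T) : G))) (by
      intro g hg
      obtain ⟨x, _, rfl⟩ := Finset.mem_image.1 hg
      have h2 : D x = 0 := x.2
      have h3 : (2 : ℕ) • (x : T) = 0 := h2
      have h5 : (((2 : ℕ) • (x : T) : T) : G) = 0 := by rw [h3]; rfl
      rw [two_nsmul] at h5
      exact h5)
    rw [Finset.card_image_of_injective _ (by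
      intro x y hxy
      exact Subtype.ext (Subtype.ext hxy)), Finset.card_univ] at h1
    exact h1
  have hquot : Nat.card (T ⧸ D.range) ≤ 4 := by
    have e1 : Nat.card T = Nat.card D.range * Nat.card D.ker := by
      rw [AddSubgroup.card_eq_card_quotient_mul_card_addSubgroup D.ker]
      congr 1
      exact Nat.card_congr (QuotientAddGroup.quotientKerEquivRange D).toEquiv
    have e2 : Nat.card T = Nat.card (T ⧸ D.range) * Nat.card D.range :=
      AddSubgroup.card_eq_card_quotient_mul_card_addSubgroup D.range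
    have e3 : 0 < Nat.card D.range := Nat.card_pos
    have e4 : Nat.card (T ⧸ D.range) * Nat.card D.range = Nat.card D.ker * Nat.card D.range := by
      rw [← e2, e1, mul_comm]
    rw [Nat.eq_of_mul_eq_mul_right e3 e4]
    exact hker
  have hqf : Finite (T ⧸ D.range) := inferInstance
  have : Fintype (T ⧸ D.range) := Fintype.ofFinite _
  -- base elements
  have hbase : ∀ v : Fin r → ZMod 2, ∃ g : G, ∀ i, φ (f i) = v → φ (f i - g) = 0 := by
    intro v
    by_cases h : ∃ i, φ (f i) = v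
    · obtain ⟨j, hj⟩ := h
      refine ⟨f j, fun i hi => ?_⟩
      rw [hφsub, hi, hj, sub_self]
    · exact ⟨0, fun i hi => absurd ⟨i, hi⟩ h⟩
  choose g hg using hbase
  have hdec : ∀ i, ∃ q : G, ∃ τ : T, f i - g (φ (f i)) = q + q + τ := by
    intro i
    obtain ⟨q, τ, hτ, h⟩ := hφker _ (hg _ i rfl)
    exact ⟨q, ⟨τ, hτ⟩, h⟩
  choose q τ hqτ using hdec
  have hinj : Function.Injective (fun i : ι =>
      ((φ (f i), (QuotientAddGroup.mk (τ i) : T ⧸ D.range)) : (Fin r → ZMod 2) × (T ⧸ D.range))) := by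
    intro i j hij
    simp only [Prod.mk.injEq] at hij
    obtain ⟨h1, h2⟩ := hij
    rw [QuotientAddGroup.eq] at h2
    obtain ⟨t, ht⟩ := h2
    have ht' : (2 : ℕ) • t = -τ i + τ j := ht
    rw [two_nsmul] at ht'
    have ht2 : (t : G) + t = -(τ i : G) + τ j := by
      have := congrArg (fun x : T => (x : G)) ht'
      exact this
    apply hf
    refine ⟨q i - q j - t, ?_⟩
    have e1 := hqτ i
    have e2 := hqτ j
    rw [h1] at e1
    have e3 : f i - f j = (f i - g (φ (f j))) - (f j - g (φ (f j))) := by abel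
    rw [e3, e1, e2]
    have e4 : (τ i : G) = τ j - (t + t) := by rw [ht2]; abel
    rw [e4]
    abel
  have hcard := Fintype.card_le_of_injective _ hinj
  rw [Fintype.card_prod, Fintype.card_fun, ZMod.card, Fintype.card_fin] at hcard
  rw [Nat.card_eq_fintype_card] at hquot
  calc Fintype.card ι ≤ 2 ^ r * Fintype.card (T ⧸ D.range) := hcard
    _ ≤ 2 ^ r * 4 := Nat.mul_le_mul_left _ hquot
    _ = 2 ^ (Module.finrank ℤ G + 2) := by
      rw [← hr, pow_add]
      rfl

lemma isR (A B : ℤ) : IsR (EQ A B) 0 (A : ℚ) (B : ℚ) :=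
  ⟨rfl, by show -((A : ℚ) + B) = -(0 + A + B); ring, rfl,
    by show (A : ℚ) * B = 0 * A + 0 * B + A * B; ring, by show (0 : ℚ) = -(0 * A * B); ring⟩

/-- the class of a point -/
noncomputable def al (A B : ℤ) : (EQ A B).toAffine.Point → ℚ
  | 0 => 1
  | .some x _ _ => if x = 0 then A * B else x

lemma al_ne {A B : ℤ} (hA : A ≠ 0) (hB : B ≠ 0) (P : (EQ A B).toAffine.Point) : al A B P ≠ 0 := by
  rcases P with _ | ⟨x, y, h⟩
  · exact one_ne_zero
  · show (if x = 0 then (A : ℚ) * B else x) ≠ 0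
    by_cases hx : x = 0
    · rw [if_pos hx]
      exact mul_ne_zero (by exact_mod_cast hA) (by exact_mod_cast hB)
    · rw [if_neg hx]
      exact hx

lemma al_neg (A B : ℤ) (P : (EQ A B).toAffine.Point) : al A B (-P) = al A B P := by
  rcases P with _ | ⟨x, y, h⟩
  · rfl
  · rw [Affine.Point.neg_some]
    rfl

lemma key {A B : ℤ} {x₁ x₂ y₁ y₂ : ℚ} (h₁ : (EQ A B).toAffine.Equation x₁ y₁)
    (h₂ : (EQ A B).toAffine.Equation x₂ y₂)
    (hxy : ¬(x₁ = x₂ ∧ y₁ = (EQ A B).toAffine.negY x₂ y₂)) :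
    ∃ ν ℓ : ℚ, x₁ * x₂ * (EQ A B).toAffine.addX x₁ x₂ ((EQ A B).toAffine.slope x₁ x₂ y₁ y₂) = ν ^ 2 ∧
      x₁ * x₂ + (x₁ + x₂) * (EQ A B).toAffine.addX x₁ x₂ ((EQ A B).toAffine.slope x₁ x₂ y₁ y₂) =
        A * B - 2 * ℓ * ν := by
  have h := Affine.addPolynomial_slope h₁ h₂ hxy
  set ℓ := (EQ A B).toAffine.slope x₁ x₂ y₁ y₂
  set x₃ := (EQ A B).toAffine.addX x₁ x₂ ℓ
  rw [Affine.addPolynomial_eq, neg_inj, Cubic.prod_X_sub_C_eq, Cubic.toPoly_injective] at h
  have hc := congrArg Cubic.c h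
  have hd := congrArg Cubic.d h
  have e1 := ((isR A B).eqn x₁ y₁).1 h₁
  have a1 : (EQ A B).toAffine.a₁ = 0 := rfl
  have a2 : (EQ A B).toAffine.a₂ = -((A : ℚ) + B) := rfl
  have a3 : (EQ A B).toAffine.a₃ = 0 := rfl
  have a4 : (EQ A B).toAffine.a₄ = (A : ℚ) * B := rfl
  have a6 : (EQ A B).toAffine.a₆ = 0 := rfl
  simp only [a1, a2, a3, a4, a6] at hc hd
  refine ⟨y₁ - ℓ * x₁, ℓ, ?_, ?_⟩
  · linear_combination hd
  · linear_combination -hc

/-- `al` is a homomorphism modulo squares -/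
lemma al_add {A B : ℤ} (hA : A ≠ 0) (hB : B ≠ 0) (P Q : (EQ A B).toAffine.Point) :
    IsSquare (al A B P * al A B Q * al A B (P + Q)) := by
  have hAB : (A : ℚ) * B ≠ 0 := mul_ne_zero (by exact_mod_cast hA) (by exact_mod_cast hB)
  rcases P with _ | ⟨x₁, y₁, h₁⟩
  · rw [show (Affine.Point.zero : (EQ A B).toAffine.Point) = 0 from rfl, zero_add]
    exact ⟨al A B Q, by show 1 * _ * _ = _; ring⟩
  rcases Q with _ | ⟨x₂, y₂, h₂⟩
  · rw [show (Affine.Point.zero : (EQ A B).toAffine.Point) = 0 from rfl, add_zero]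
    exact ⟨al A B (.some x₁ y₁ h₁), by show _ * 1 * _ = _; ring⟩
  by_cases hxy : x₁ = x₂ ∧ y₁ = (EQ A B).toAffine.negY x₂ y₂
  · obtain ⟨hx, hy⟩ := hxy
    subst hx
    rw [Affine.Point.add_of_Y_eq rfl hy]
    exact ⟨al A B (.some x₁ y₁ h₁), by
      show (if x₁ = 0 then (A : ℚ) * B else x₁) * (if x₁ = 0 then (A : ℚ) * B else x₁) * 1 =
        (if x₁ = 0 then (A : ℚ) * B else x₁) * (if x₁ = 0 then (A : ℚ) * B else x₁)
      ring⟩
  · obtain ⟨ν, ℓ, k1, k2⟩ := key h₁.1 h₂.1 hxy
    rw [Affine.Point.add_some hxy]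
    show IsSquare ((if x₁ = 0 then (A : ℚ) * B else x₁) * (if x₂ = 0 then (A : ℚ) * B else x₂) *
      (if (EQ A B).toAffine.addX x₁ x₂ ((EQ A B).toAffine.slope x₁ x₂ y₁ y₂) = 0 then (A : ℚ) * B
        else (EQ A B).toAffine.addX x₁ x₂ ((EQ A B).toAffine.slope x₁ x₂ y₁ y₂)))
    generalize (EQ A B).toAffine.addX x₁ x₂ ((EQ A B).toAffine.slope x₁ x₂ y₁ y₂) = x₃ at k1 k2 ⊢
    by_cases g1 : x₁ = 0
    · have hν : ν = 0 := by
        rw [g1, zero_mul, zero_mul] at k1
        exact pow_eq_zero_iff two_ne_zero |>.1 k1.symm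
      rw [g1, hν] at k2
      have k3 : x₂ * x₃ = A * B := by linear_combination k2
      have g2 : x₂ ≠ 0 := fun h => hAB (by rw [← k3, h, zero_mul])
      have g3 : x₃ ≠ 0 := fun h => hAB (by rw [← k3, h, mul_zero])
      rw [if_pos g1, if_neg g2, if_neg g3]
      exact ⟨A * B, by rw [mul_assoc, k3]⟩
    by_cases g2 : x₂ = 0
    · have hν : ν = 0 := by
        rw [g2, mul_zero, zero_mul] at k1
        exact pow_eq_zero_iff two_ne_zero |>.1 k1.symm
      rw [g2, hν] at k2
      have k3 : x₁ * x₃ = A * B := by linear_combination k2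
      have g3 : x₃ ≠ 0 := fun h => hAB (by rw [← k3, h, mul_zero])
      rw [if_neg g1, if_pos g2, if_neg g3]
      exact ⟨A * B, by linear_combination (A * B : ℚ) * k3⟩
    by_cases g3 : x₃ = 0
    · have hν : ν = 0 := by
        rw [g3, mul_zero] at k1
        exact pow_eq_zero_iff two_ne_zero |>.1 k1.symm
      rw [g3, hν] at k2
      have k3 : x₁ * x₂ = A * B := by linear_combination k2
      rw [if_neg g1, if_neg g2, if_pos g3]
      exact ⟨A * B, by rw [k3]⟩
    · rw [if_neg g1, if_neg g2, if_neg g3]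
      exact ⟨ν, by rw [k1]; ring⟩

lemma sq_cancel {a b : ℚ} (h : IsSquare (a * b)) (hb : IsSquare b) (hb0 : b ≠ 0) : IsSquare a := by
  have : a = a * b / b := by field_simp
  rw [this]
  exact h.div hb

lemma al_coset {A B : ℤ} (hA : A ≠ 0) (hB : B ≠ 0) {P Q R : (EQ A B).toAffine.Point}
    (h : P - Q = R + R) : IsSquare (al A B P * al A B Q) := by
  have h1 := al_add hA hB P (-Q)
  rw [← sub_eq_add_neg, h, al_neg] at h1
  have h2 := al_add hA hB R R
  have hR := al_ne hA hB R
  have h3 : IsSquare (al A B (R + R)) :=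
    sq_cancel (b := al A B R * al A B R) (by
      rw [mul_comm]
      exact h2) ⟨_, rfl⟩ (mul_ne_zero hR hR)
  exact sq_cancel h1 h3 (al_ne hA hB _)

/-- the same as a natural number -/
def nn (G : Finset ℕ) (ε : G → ZMod 2) : ℕ := ∏ p : G, if ε p = 1 then (p : ℕ) else 1

lemma dd_eq (G : Finset ℕ) (ε : G → ZMod 2) : dd G ε = (nn G ε : ℤ) := by
  unfold dd nn
  rw [Nat.cast_prod]
  refine Finset.prod_congr rfl fun p _ => ?_
  split_ifs <;> simp

lemma nn_ne {G : Finset ℕ} (hG : ∀ p ∈ G, p.Prime) (ε : G → ZMod 2) : nn G ε ≠ 0 := by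
  unfold nn
  rw [Finset.prod_ne_zero_iff]
  intro p _
  split_ifs
  · exact (hG p p.2).ne_zero
  · exact one_ne_zero

lemma nn_fac {G : Finset ℕ} (hG : ∀ p ∈ G, p.Prime) (ε : G → ZMod 2) (p : G) :
    (nn G ε).factorization p = if ε p = 1 then 1 else 0 := by
  unfold nn
  rw [Nat.factorization_prod (by
    intro q _
    split_ifs
    · exact (hG q q.2).ne_zero
    · exact one_ne_zero), Finsupp.finsetSum_apply, Finset.sum_eq_single p]
  · split_ifs with h
    · exact (hG p p.2).factorization_self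
    · simp
  · intro q _ hqp
    split_ifs with h
    · rw [(hG q q.2).factorization, Finsupp.single_apply, if_neg]
      intro h'
      exact hqp (Subtype.ext h')
    · simp
  · intro h
    exact absurd (Finset.mem_univ _) h

lemma dd_inj {G : Finset ℕ} (hG : ∀ p ∈ G, p.Prime) {ε ε' : G → ZMod 2}
    (h : IsSquare ((dd G ε : ℚ) * (dd G ε' : ℚ))) : ε = ε' := by
  rw [dd_eq, dd_eq] at h
  have h1 : IsSquare (((nn G ε * nn G ε' : ℕ)) : ℚ) := by
    push_cast
    push_cast at h
    exact h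
  rw [Rat.isSquare_natCast_iff] at h1
  obtain ⟨m, hm⟩ := h1
  have hm0 : m ≠ 0 := by
    rintro rfl
    exact mul_ne_zero (nn_ne hG ε) (nn_ne hG ε') (by rw [hm, mul_zero])
  funext p
  have h2 : (nn G ε * nn G ε').factorization p = (m * m).factorization p := by rw [hm]
  rw [Nat.factorization_mul (nn_ne hG ε) (nn_ne hG ε'), Nat.factorization_mul hm0 hm0,
    Finsupp.add_apply, Finsupp.add_apply, nn_fac hG, nn_fac hG] at h2
  have h3 : ∀ x : ZMod 2, x = 0 ∨ x = 1 := by decide
  rcases h3 (ε p) with h4 | h4 <;> rcases h3 (ε' p) with h5 | h5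
  · rw [h4, h5]
  · rw [h4, h5, if_neg (by decide), if_pos rfl] at h2
    omega
  · rw [h4, h5, if_pos rfl, if_neg (by decide)] at h2
    omega
  · rw [h4, h5]


theorem ker : Pool.Agent.TH841.LS.KER := by
  intro A B hAB hA hB G hG S hS
  have qA : (0 : ℚ) ≠ A := by exact_mod_cast hA.symm
  have qB : (0 : ℚ) ≠ B := by exact_mod_cast hB.symm
  have qAB : (A : ℚ) ≠ B := by exact_mod_cast hAB
  have hR := isR A B
  have n0 : (EQ A B).toAffine.Nonsingular 0 0 :=
    hR.nons two_ne_zero qA qB qAB (by ring)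
  have nA : (EQ A B).toAffine.Nonsingular (A : ℚ) 0 :=
    hR.nons two_ne_zero qA qB qAB (by ring)
  have nB : (EQ A B).toAffine.Nonsingular (B : ℚ) 0 :=
    hR.nons two_ne_zero qA qB qAB (by ring)
  have hP : ∀ ε : S, ∃ P : (EQ A B).toAffine.Point,
      IsSquare (al A B P * (dd G (ε : G → ZMod 2) : ℚ)) := by
    intro ε
    rcases hS ε ε.2 with h | h | ⟨X, Y, r, hX, hY, hXr⟩
    · refine ⟨0, ?_⟩
      show IsSquare (1 * (dd G (ε : G → ZMod 2) : ℚ))
      rw [one_mul]
      exact h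
    · refine ⟨.some 0 0 n0, ?_⟩
      show IsSquare ((if (0 : ℚ) = 0 then (A : ℚ) * B else 0) * (dd G (ε : G → ZMod 2) : ℚ))
      rw [if_pos rfl, mul_comm]
      exact h
    · have hn : (EQ A B).toAffine.Nonsingular X Y :=
        hR.nons two_ne_zero qA qB qAB (by rw [hY]; ring)
      refine ⟨.some X Y hn, ?_⟩
      show IsSquare ((if X = 0 then (A : ℚ) * B else X) * (dd G (ε : G → ZMod 2) : ℚ))
      rw [if_neg hX, hXr]
      exact ⟨(dd G (ε : G → ZMod 2) : ℚ) * r, by ring⟩
  choose P hPs using hP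
  have hW : EQ A B = crv (-(0 : ℚ)) (-(A : ℚ)) (-(B : ℚ)) := by
    apply WeierstrassCurve.ext
    · rfl
    · show -((A : ℚ) + B) = -(0 : ℚ) + -(A : ℚ) + -(B : ℚ)
      ring
    · rfl
    · show (A : ℚ) * B = -(0 : ℚ) * -(A : ℚ) + -(0 : ℚ) * -(B : ℚ) + -(A : ℚ) * -(B : ℚ)
      ring
    · show (0 : ℚ) = -(0 : ℚ) * -(A : ℚ) * -(B : ℚ)
      ring
  have hfg : AddGroup.FG (EQ A B).toAffine.Point := by
    rw [hW]
    exact pt_fg (fun h => qA (neg_injective h)) (fun h => qB (neg_injective h))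
      (fun h => qAB (neg_injective h))
  have h := card_bound hfg (by
    intro s hs
    classical
    have hsub : s ⊆ {0, .some 0 0 n0, .some (A : ℚ) 0 nA, .some (B : ℚ) 0 nB} := by
      intro g hg
      simp only [Finset.mem_insert, Finset.mem_singleton]
      rcases hR.tors two_ne_zero (hs g hg) with h1 | ⟨_, h1⟩ | ⟨_, h1⟩ | ⟨_, h1⟩
      · exact Or.inl h1
      · exact Or.inr (Or.inl h1)
      · exact Or.inr (Or.inr (Or.inl h1))
      · exact Or.inr (Or.inr (Or.inr h1))
    exact (Finset.card_le_card hsub).trans Finset.card_le_four) P (by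
    rintro i j ⟨q, hq⟩
    have h1 := al_coset hA hB hq
    have h2 := hPs i
    have h3 := hPs j
    have h4 : IsSquare (((dd G (i : G → ZMod 2) : ℚ) * (dd G (j : G → ZMod 2) : ℚ)) *
        (al A B (P i) * al A B (P j))) := by
      have : ((dd G (i : G → ZMod 2) : ℚ) * (dd G (j : G → ZMod 2) : ℚ)) *
        (al A B (P i) * al A B (P j)) = (al A B (P i) * (dd G (i : G → ZMod 2) : ℚ)) *
        (al A B (P j) * (dd G (j : G → ZMod 2) : ℚ)) := by ring
      rw [this]
      exact h2.mul h3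
    exact Subtype.ext (dd_inj hG
      (sq_cancel h4 h1 (mul_ne_zero (al_ne hA hB _) (al_ne hA hB _)))))
  rw [Fintype.card_coe] at h
  exact h

end Pool.Agent.TH841.LS.KERf
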