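import Mathlib
import Pool.Agent.TH841.LS.Stm

/-!
# Linear algebra over `𝔽₂` for local square conditions (job LS-LIN)

The lemma `padic_sq` is the one of `Pool/Agent/W262/TW/Ex3.lean`.
-/

set_option autoImplicit false

namespace Pool.Agent.TH841.LS.LINf

open Finset Polynomial

lemma padic_sq {p : ℕ} [hp : Fact p.Prime] (hp2 : p ≠ 2) {n : ℤ} (hn : ¬ (p : ℤ) ∣ n)
    (h : IsSquare (n : ZMod p)) : IsSquare (n : ℚ_[p]) := by
  obtain ⟨a, ha⟩ := h
  obtain ⟨s, hs⟩ := ZMod.intCast_surjective a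
  have h1 : (p : ℤ) ∣ s ^ 2 - n := by
    rw [← ZMod.intCast_zmod_eq_zero_iff_dvd]
    push_cast
    rw [ha, hs]
    ring
  have h2 : ¬ (p : ℤ) ∣ 2 * s := by
    intro h2
    have hpi : Prime (p : ℤ) := Nat.prime_iff_prime_int.1 hp.out
    rcases hpi.dvd_or_dvd h2 with h3 | h3
    · have h5 : p ∣ 2 := by exact_mod_cast h3
      exact hp2 ((Nat.prime_dvd_prime_iff_eq hp.out Nat.prime_two).1 h5)
    · apply hn
      have := dvd_sub ((dvd_pow h3 two_ne_zero : (p : ℤ) ∣ s ^ 2)) h1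
      simpa using this
  have e1 : ∀ w : ℤ_[p], (aeval w) (X ^ 2 - C (n : ℤ_[p]) : ℤ_[p][X]) = w ^ 2 - n := by
    intro w; simp
  have e2 : ∀ w : ℤ_[p], (aeval w) (derivative (X ^ 2 - C (n : ℤ_[p]) : ℤ_[p][X])) = 2 * w := by
    intro w; simp; norm_num
  obtain ⟨z, hz, -⟩ := hensels_lemma (p := p) (R := ℤ_[p]) (F := X ^ 2 - C (n : ℤ_[p]))
    (a := (s : ℤ_[p])) (by
      rw [e1, e2]
      have h3 : ‖((s ^ 2 - n : ℤ) : ℤ_[p])‖ < 1 := by
        rw [PadicInt.norm_intCast_lt_one_iff]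
        exact h1
      have h4 : ‖((2 * s : ℤ) : ℤ_[p])‖ = 1 := by
        have h5 : ¬ ‖((2 * s : ℤ) : ℤ_[p])‖ < 1 := by
          rw [PadicInt.norm_intCast_lt_one_iff]
          exact h2
        exact le_antisymm (PadicInt.norm_le_one _) (not_lt.1 h5)
      push_cast at h3 h4
      rw [h4]
      simpa using h3)
  rw [e1] at hz
  have h6 := congrArg (fun w : ℤ_[p] => (w : ℚ_[p])) (sub_eq_zero.1 hz)
  push_cast at h6
  exact ⟨z, by rw [← h6]; ring⟩

lemma padic_sq2 {n : ℤ} (hn : n % 8 = 1) : IsSquare (n : ℚ_[2]) := by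
  have e1 : ∀ w : ℤ_[2], (aeval w) (X ^ 2 - C (n : ℤ_[2]) : ℤ_[2][X]) = w ^ 2 - n := by
    intro w; simp
  have e2 : ∀ w : ℤ_[2], (aeval w) (derivative (X ^ 2 - C (n : ℤ_[2]) : ℤ_[2][X])) = 2 * w := by
    intro w; simp; norm_num
  obtain ⟨z, hz, -⟩ := hensels_lemma (p := 2) (R := ℤ_[2]) (F := X ^ 2 - C (n : ℤ_[2]))
    (a := 1) (by
      rw [e1, e2]
      have h4 : ‖(2 : ℤ_[2])‖ = 2⁻¹ := by
        have := PadicInt.norm_p (p := 2)
        exact_mod_cast this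
      have h3 : ‖((1 - n : ℤ) : ℤ_[2])‖ ≤ ((2 : ℕ) : ℝ) ^ (-(3 : ℕ) : ℤ) := by
        rw [PadicInt.norm_int_le_pow_iff_dvd]
        push_cast
        omega
      push_cast at h3
      rw [one_pow, mul_one, h4]
      refine lt_of_le_of_lt h3 ?_
      norm_num)
  rw [e1] at hz
  have h6 := congrArg (fun w : ℤ_[2] => (w : ℚ_[2])) (sub_eq_zero.1 hz)
  push_cast at h6
  exact ⟨z, by rw [← h6]; ring⟩

lemma ker_big {ι κ : Type} [Fintype ι] [Fintype κ] (c : ι → κ → ZMod 2) :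
    ∃ V : Submodule (ZMod 2) (κ → ZMod 2),
      Fintype.card κ ≤ Module.finrank (ZMod 2) V + Fintype.card ι ∧
      ∀ ε ∈ V, ∀ i, ∑ k, ε k * c i k = 0 := by
  classical
  refine ⟨LinearMap.ker (Matrix.mulVecLin (Matrix.of c)), ?_, ?_⟩
  · have h1 := LinearMap.finrank_range_add_finrank_ker (Matrix.mulVecLin (Matrix.of c))
    rw [Module.finrank_fintype_fun_eq_card] at h1
    have h2 := Submodule.finrank_le (LinearMap.range (Matrix.mulVecLin (Matrix.of c)))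
    rw [Module.finrank_fintype_fun_eq_card] at h2
    omega
  · intro ε hε i
    rw [LinearMap.mem_ker] at hε
    have h1 := congrFun hε i
    simp only [Matrix.mulVecLin_apply, Matrix.mulVec, dotProduct, Matrix.of_apply,
      Pi.zero_apply] at h1
    rw [← h1]
    exact Finset.sum_congr rfl fun k _ => mul_comm _ _

lemma s_prod (s : ℤ → ZMod 2) (U : ℤ → Prop) (h1 : U 1) (hs1 : s 1 = 0)
    (hmul : ∀ a b, U a → U b → U (a * b) ∧ s (a * b) = s a + s b) {κ : Type} (T : Finset κ)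
    (f : κ → ℤ) (ε : κ → ZMod 2) (hU : ∀ k ∈ T, U (f k)) :
    U (∏ k ∈ T, if ε k = 1 then f k else 1) ∧
      s (∏ k ∈ T, if ε k = 1 then f k else 1) = ∑ k ∈ T, ε k * s (f k) := by
  classical
  induction T using Finset.induction_on with
  | empty => simpa using ⟨h1, hs1⟩
  | insert a T ha ih =>
    rw [Finset.prod_insert ha, Finset.sum_insert ha]
    obtain ⟨i1, i2⟩ := ih fun k hk => hU k (Finset.mem_insert_of_mem hk)
    have hUa := hU a (Finset.mem_insert_self _ _)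
    have h01 : ∀ z : ZMod 2, z = 1 ∨ z = 0 := by decide
    rcases h01 (ε a) with h | h
    · rw [if_pos h]
      obtain ⟨j1, j2⟩ := hmul _ _ hUa i1
      refine ⟨j1, ?_⟩
      rw [j2, i2, h, one_mul]
    · rw [if_neg (by rw [h]; decide), one_mul, h, zero_mul, zero_add]
      exact ⟨i1, i2⟩

open Classical in
/-- quadratic residue symbol, additively -/
noncomputable def sp (p : ℕ) (a : ℤ) : ZMod 2 := if IsSquare (a : ZMod p) then 0 else 1

lemma sp_one (p : ℕ) : sp p 1 = 0 := by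
  unfold sp
  rw [if_pos]
  rw [Int.cast_one]
  exact ⟨1, by ring⟩

lemma sq_of_sp {p : ℕ} {a : ℤ} (h : sp p a = 0) : IsSquare (a : ZMod p) := by
  unfold sp at h
  by_contra hne
  rw [if_neg hne] at h
  exact absurd h (by decide)

lemma sp_eq (p : ℕ) [hp : Fact p.Prime] {a : ℤ} (a0 : (a : ZMod p) ≠ 0) :
    sp p a = if legendreSym p a = 1 then 0 else 1 := by
  unfold sp
  by_cases h : IsSquare (a : ZMod p)
  · rw [if_pos h, if_pos ((legendreSym.eq_one_iff p a0).2 h)]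
  · rw [if_neg h, if_neg (fun h' => h ((legendreSym.eq_one_iff p a0).1 h'))]

lemma sp_mul (p : ℕ) [hp : Fact p.Prime] (a b : ℤ) (ha : ¬ (p : ℤ) ∣ a) (hb : ¬ (p : ℤ) ∣ b) :
    ¬ (p : ℤ) ∣ a * b ∧ sp p (a * b) = sp p a + sp p b := by
  have hpi : Prime (p : ℤ) := Nat.prime_iff_prime_int.1 hp.out
  have hab : ¬ (p : ℤ) ∣ a * b := fun h => (hpi.dvd_or_dvd h).elim ha hb
  refine ⟨hab, ?_⟩
  have a0 : (a : ZMod p) ≠ 0 := fun h => ha ((ZMod.intCast_zmod_eq_zero_iff_dvd _ _).1 h)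
  have b0 : (b : ZMod p) ≠ 0 := fun h => hb ((ZMod.intCast_zmod_eq_zero_iff_dvd _ _).1 h)
  have ab0 : ((a * b : ℤ) : ZMod p) ≠ 0 := fun h =>
    hab ((ZMod.intCast_zmod_eq_zero_iff_dvd _ _).1 h)
  rw [sp_eq p a0, sp_eq p b0, sp_eq p ab0, legendreSym.mul]
  rcases legendreSym.eq_one_or_neg_one p a0 with h | h <;>
  rcases legendreSym.eq_one_or_neg_one p b0 with h' | h' <;>
  rw [h, h'] <;> decide

/-- the two symbols at `2` -/
def s4 (a : ℤ) : ZMod 2 := if a % 4 = 1 then 0 else 1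

def s8 (a : ℤ) : ZMod 2 := if a % 8 = 1 ∨ a % 8 = 7 then 0 else 1

lemma s4_mul (a b : ℤ) (ha : a % 2 = 1) (hb : b % 2 = 1) :
    (a * b) % 2 = 1 ∧ s4 (a * b) = s4 a + s4 b := by
  have h1 : (a * b) % 2 = 1 := by rw [Int.mul_emod, ha, hb]; rfl
  refine ⟨h1, ?_⟩
  unfold s4
  have h2 : a % 4 = 1 ∨ a % 4 = 3 := by omega
  have h3 : b % 4 = 1 ∨ b % 4 = 3 := by omega
  rw [Int.mul_emod]
  rcases h2 with h | h <;> rcases h3 with h' | h' <;> rw [h, h'] <;> decide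

lemma s8_mul (a b : ℤ) (ha : a % 2 = 1) (hb : b % 2 = 1) :
    (a * b) % 2 = 1 ∧ s8 (a * b) = s8 a + s8 b := by
  have h1 : (a * b) % 2 = 1 := by rw [Int.mul_emod, ha, hb]; rfl
  refine ⟨h1, ?_⟩
  unfold s8
  have h2 : a % 8 = 1 ∨ a % 8 = 3 ∨ a % 8 = 5 ∨ a % 8 = 7 := by omega
  have h3 : b % 8 = 1 ∨ b % 8 = 3 ∨ b % 8 = 5 ∨ b % 8 = 7 := by omega
  rw [Int.mul_emod]
  rcases h2 with h | h | h | h <;> rcases h3 with h' | h' | h' | h' <;> rw [h, h'] <;> decide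

lemma mod8 {a : ℤ} (ha : a % 2 = 1) (h4 : s4 a = 0) (h8 : s8 a = 0) : a % 8 = 1 := by
  unfold s4 at h4
  unfold s8 at h8
  have k4 : a % 4 = 1 := by
    by_contra h
    rw [if_neg h] at h4
    exact absurd h4 (by decide)
  have k8 : a % 8 = 1 ∨ a % 8 = 7 := by
    by_contra h
    rw [if_neg h] at h8
    exact absurd h8 (by decide)
  omega

lemma not_dvd_prime {p q : ℕ} (hp : p.Prime) (hq : q.Prime) (h : q ≠ p) :
    ¬ (p : ℤ) ∣ ((q : ℕ) : ℤ) := by
  intro hd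
  have h1 : p ∣ q := by exact_mod_cast hd
  exact h ((Nat.prime_dvd_prime_iff_eq hp hq).1 h1).symm

open Classical in
theorem lin : Pool.Agent.TH841.LS.LIN := by
  intro A G C1 C2 hG hC1 hC2
  -- the coefficients of the functionals
  let A1 : ℕ → ℤ := fun p => A / (p : ℤ) ^ padicValInt p A
  let c : (C1 ⊕ C2) ⊕ Fin 2 → G → ZMod 2 := fun i q => match i with
    | Sum.inl (Sum.inl p) => sp p ((q : ℕ) : ℤ)
    | Sum.inl (Sum.inr p) => if (q : ℕ) = p then sp p (A1 p) else sp p ((q : ℕ) : ℤ)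
    | Sum.inr k => if k = 0 then s4 ((q : ℕ) : ℤ) else s8 ((q : ℕ) : ℤ)
  obtain ⟨V, hV, hker⟩ := ker_big c
  refine ⟨V, ?_, ?_⟩
  · rw [Fintype.card_sum, Fintype.card_sum, Fintype.card_coe, Fintype.card_coe, Fintype.card_coe,
      Fintype.card_fin] at hV
    omega
  intro ε hε
  have hk := hker ε hε
  constructor
  · intro p hp hp'
    by_cases hp2 : p = 2
    · subst hp2
      apply padic_sq2
      have hodd : ∀ k ∈ (Finset.univ : Finset G), ((k : ℕ) : ℤ) % 2 = 1 := by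
        intro k _
        have h1 := (hG k k.2).1.eq_two_or_odd
        have h2 := (hG k k.2).2
        omega
      have k1 := s_prod s4 (fun a => a % 2 = 1) rfl rfl s4_mul Finset.univ
        (fun k : G => ((k : ℕ) : ℤ)) ε hodd
      have k2 := s_prod s8 (fun a => a % 2 = 1) rfl rfl s8_mul Finset.univ
        (fun k : G => ((k : ℕ) : ℤ)) ε hodd
      have l1 := hk (Sum.inr 0)
      have l2 := hk (Sum.inr 1)
      exact mod8 k1.1 (k1.2.trans l1) (k2.2.trans l2)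
    · have hpC : p ∈ C1 := hp'.resolve_right hp2
      have hnd : ∀ k ∈ (Finset.univ : Finset G), ¬ (p : ℤ) ∣ ((k : ℕ) : ℤ) := by
        intro k _
        exact not_dvd_prime hp.out (hG k k.2).1 (fun h => (hC1 p hpC).2.2 (h ▸ k.2))
      have k1 := s_prod (sp p) (fun a => ¬ (p : ℤ) ∣ a)
        (fun h => hp.out.one_lt.ne' (by exact_mod_cast Int.eq_one_of_dvd_one (by positivity) h))
        (sp_one p) (sp_mul p) Finset.univ (fun k : G => ((k : ℕ) : ℤ)) ε hnd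
      have l1 := hk (Sum.inl (Sum.inl ⟨p, hpC⟩))
      exact padic_sq hp2 k1.1 (sq_of_sp (k1.2.trans l1))
  · intro p hp hpC
    obtain ⟨hpG, hvo⟩ := hC2 p hpC
    have hp2 : p ≠ 2 := (hG p hpG).2
    have hpi : Prime (p : ℤ) := Nat.prime_iff_prime_int.1 hp.out
    have hA0 : A ≠ 0 := by
      rintro rfl
      rw [padicValInt.zero] at hvo
      exact absurd hvo (by decide)
    have hAe : A = (p : ℤ) ^ padicValInt p A * A1 p :=
      (Int.mul_ediv_cancel' (padicValInt_dvd A)).symm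
    have hA1 : ¬ (p : ℤ) ∣ A1 p := by
      intro hd
      have h1 : (p : ℤ) ^ (padicValInt p A + 1) ∣ A := by
        rw [pow_succ]
        conv_rhs => rw [hAe]
        exact mul_dvd_mul_left _ hd
      rw [padicValInt_dvd_iff] at h1
      rcases h1 with h1 | h1
      · exact hA0 h1
      · omega
    have hone : ¬ (p : ℤ) ∣ 1 :=
      fun h => hp.out.one_lt.ne' (by exact_mod_cast Int.eq_one_of_dvd_one (by positivity) h)
    have hnd : ∀ k ∈ (Finset.univ : Finset G).erase ⟨p, hpG⟩, ¬ (p : ℤ) ∣ ((k : ℕ) : ℤ) := by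
      intro k hk'
      refine not_dvd_prime hp.out (hG k k.2).1 (fun h => ?_)
      exact (Finset.mem_erase.1 hk').1 (Subtype.ext h)
    have k1 := s_prod (sp p) (fun a => ¬ (p : ℤ) ∣ a) hone (sp_one p) (sp_mul p)
      ((Finset.univ : Finset G).erase ⟨p, hpG⟩) (fun k : G => ((k : ℕ) : ℤ)) ε hnd
    set m : ℤ := ∏ k ∈ (Finset.univ : Finset G).erase ⟨p, hpG⟩,
      if ε k = 1 then ((k : ℕ) : ℤ) else 1 with hm
    have hdd : dd G ε = (if ε ⟨p, hpG⟩ = 1 then (p : ℤ) else 1) * m := by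
      unfold dd
      rw [hm, ← Finset.mul_prod_erase (Finset.univ : Finset G)
        (fun k : G => if ε k = 1 then ((k : ℕ) : ℤ) else 1) (Finset.mem_univ ⟨p, hpG⟩)]
    have l1 := hk (Sum.inl (Sum.inr ⟨p, hpC⟩))
    rw [← Finset.add_sum_erase _ _ (Finset.mem_univ (⟨p, hpG⟩ : G))] at l1
    have l2 : ∑ k ∈ (Finset.univ : Finset G).erase ⟨p, hpG⟩,
        ε k * c (Sum.inl (Sum.inr ⟨p, hpC⟩)) k =
        ∑ k ∈ (Finset.univ : Finset G).erase ⟨p, hpG⟩, ε k * sp p ((k : ℕ) : ℤ) := by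
      refine Finset.sum_congr rfl fun k hk' => ?_
      have hne : (k : ℕ) ≠ p := fun h => (Finset.mem_erase.1 hk').1 (Subtype.ext h)
      show ε k * (if (k : ℕ) = p then sp p (A1 p) else sp p ((k : ℕ) : ℤ)) = _
      rw [if_neg hne]
    rw [l2, ← k1.2] at l1
    have l3 : c (Sum.inl (Sum.inr ⟨p, hpC⟩)) ⟨p, hpG⟩ = sp p (A1 p) := by
      show (if p = p then sp p (A1 p) else sp p ((p : ℕ) : ℤ)) = _
      rw [if_pos rfl]
    rw [l3] at l1
    have h01 : ∀ z : ZMod 2, z = 1 ∨ z = 0 := by decide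
    rcases h01 (ε ⟨p, hpG⟩) with h | h
    · right
      rw [h, one_mul] at l1
      rw [if_pos h] at hdd
      obtain ⟨q1, q2⟩ := sp_mul p (A1 p) m hA1 k1.1
      obtain ⟨r, hr⟩ := padic_sq hp2 q1 (sq_of_sp (q2.trans l1))
      obtain ⟨e, he⟩ := hvo
      refine ⟨(p : ℚ_[p]) ^ (e + 1) * r, ?_⟩
      have h5 : dd G ε * A = (p : ℤ) ^ (2 * (e + 1)) * (A1 p * m) := by
        rw [hdd]
        conv_lhs => rw [hAe, he]
        ring
      have h6 := congrArg (fun w : ℤ => (w : ℚ_[p])) h5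
      push_cast at h6 hr
      rw [h6, hr]
      ring
    · left
      rw [h, zero_mul, zero_add] at l1
      rw [if_neg (by rw [h]; decide), one_mul] at hdd
      rw [hdd]
      exact padic_sq hp2 k1.1 (sq_of_sp l1)

end Pool.Agent.TH841.LS.LINf
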