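import Mathlib
import Pool.Agent.TH841.LS.Stm
import Pool.Agent.TH841.LS.Loca0

set_option autoImplicit false

namespace Pool.Agent.TH841.LS.LOCAf

/-- LS-LOCA (see `Loca0.lean`) -/
theorem loca : Pool.Agent.TH841.LS.LOCA := by
  intro p hp A B d h11 hA hB hAB hd
  exact Pool.Agent.TH841.LS.LOCA0.aux p A B d (by omega) hA hB hAB hd

end Pool.Agent.TH841.LS.LOCAf
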