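import Mathlib
import Pool.Agent.TH841.LS.Loca0

/-!
# Local points of `y² = x (x - A) (x - B)` at the primes with odd valuation of `A` (job LS-LOCB)
-/

set_option autoImplicit false

namespace Pool.Agent.TH841.LS.LOCB0

open Finset

open Pool.Agent.TH841.LS.LOCA0 (ringChar_ne sum_mul sq_of_char)

section chi

variable {p : ℕ} [hp : Fact p.Prime]

theorem sum_mul3 (h2 : p ≠ 2) :
    ∑ w : ZMod p, quadraticChar (ZMod p) w * quadraticChar (ZMod p) (w * (w - 1)) =
      -quadraticChar (ZMod p) (-1) := by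
  have hF := ringChar_ne (p := p) h2
  have h1 : ∀ w : ZMod p, quadraticChar (ZMod p) w * quadraticChar (ZMod p) (w * (w - 1)) =
      quadraticChar (ZMod p) (w - 1) - (if w = 0 then quadraticChar (ZMod p) (-1) else 0) := by
    intro w
    by_cases hw : w = 0
    · subst hw
      simp
    · rw [if_neg hw, sub_zero, map_mul, ← mul_assoc]
      rcases quadraticChar_dichotomy hw with h | h <;> rw [h] <;> ring
  rw [Finset.sum_congr rfl fun w _ => h1 w, Finset.sum_sub_distrib]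
  have h3 : ∑ w : ZMod p, quadraticChar (ZMod p) (w - 1) = 0 := by
    rw [← quadraticChar_sum_zero hF]
    exact Fintype.sum_equiv (Equiv.subRight 1) _ _ fun w => rfl
  rw [h3, Finset.sum_ite_eq' Finset.univ (0 : ZMod p)]
  simp

theorem exists_w (h11 : 11 ≤ p) (s t : ℤ) (hs : s = 1 ∨ s = -1) (ht : t = 1 ∨ t = -1) :
    ∃ w : ZMod p, quadraticChar (ZMod p) w = s ∧ quadraticChar (ZMod p) (w * (w - 1)) = t := by
  have h2 : p ≠ 2 := by omega
  have hF := ringChar_ne (p := p) h2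
  by_contra hcon
  push Not at hcon
  -- the sum of `(1 + s χ(w)) (1 + t χ(w (w - 1)))`
  set χ := quadraticChar (ZMod p) with hχ
  have h00 : χ 0 = 0 := by rw [hχ, quadraticChar_zero]
  have hb : ∀ w : ZMod p, (1 + s * χ w) * (1 + t * χ (w * (w - 1))) ≤
      (if w = 0 then 1 else 0) + (if w = 1 then 2 else 0) := by
    intro w
    by_cases h0 : w = 0
    · subst h0
      simp [h00]
    by_cases h1 : w = 1
    · subst h1
      rcases hs with rfl | rfl <;> simp [h00]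
    rw [if_neg h0, if_neg h1]
    have h3 : w * (w - 1) ≠ 0 := mul_ne_zero h0 (sub_ne_zero.2 h1)
    have h4 : χ w = s ∨ χ w = -s := by
      rcases quadraticChar_dichotomy h0 with h | h <;> rcases hs with rfl | rfl <;> rw [hχ, h] <;>
        simp
    have h5 : χ (w * (w - 1)) = t ∨ χ (w * (w - 1)) = -t := by
      rcases quadraticChar_dichotomy h3 with h | h <;> rcases ht with rfl | rfl <;> rw [hχ, h] <;>
        simp
    rcases h4 with h4 | h4
    · rcases h5 with h5 | h5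
      · exact absurd h5 (hcon w h4)
      · rw [h5]
        rcases ht with rfl | rfl <;> simp
    · rw [h4]
      rcases hs with rfl | rfl <;> simp
  have hsum : ∑ w : ZMod p, (1 + s * χ w) * (1 + t * χ (w * (w - 1))) ≤ 3 := by
    refine (Finset.sum_le_sum fun w _ => hb w).trans ?_
    rw [Finset.sum_add_distrib, Finset.sum_ite_eq' Finset.univ (0 : ZMod p),
      Finset.sum_ite_eq' Finset.univ (1 : ZMod p)]
    simp
  have he : ∑ w : ZMod p, (1 + s * χ w) * (1 + t * χ (w * (w - 1))) =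
      (p : ℤ) - t - s * t * χ (-1) := by
    have e1 : ∀ w : ZMod p, (1 + s * χ w) * (1 + t * χ (w * (w - 1))) =
        1 + s * χ w + t * χ (w * (w - 1)) + s * t * (χ w * χ (w * (w - 1))) := fun w => by ring
    rw [Finset.sum_congr rfl fun w _ => e1 w, Finset.sum_add_distrib, Finset.sum_add_distrib,
      Finset.sum_add_distrib, ← Finset.mul_sum, ← Finset.mul_sum, ← Finset.mul_sum,
      quadraticChar_sum_zero hF, sum_mul h2 one_ne_zero, sum_mul3 h2, Finset.sum_const,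
      Finset.card_univ, ZMod.card, nsmul_eq_mul, mul_one, hχ]
    ring
  have hm1 : χ (-1) = 1 ∨ χ (-1) = -1 := quadraticChar_dichotomy (neg_ne_zero.2 one_ne_zero)
  rw [he] at hsum
  have hp' : (11 : ℤ) ≤ p := by exact_mod_cast h11
  rcases hs with rfl | rfl <;> rcases ht with rfl | rfl <;> rcases hm1 with h | h <;>
    rw [h] at hsum <;> linarith

end chi

theorem aux (p : ℕ) [hp : Fact p.Prime] (A B d : ℤ) (h11 : 11 ≤ p) (hA : A ≠ 0)
    (hB : ¬ (p : ℤ) ∣ B) (hodd : Odd (padicValInt p A)) (hpd : (p : ℤ) ∣ d)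
    (hpd2 : ¬ (p : ℤ) ^ 2 ∣ d) :
    ∃ X Y r : ℚ_[p], X ≠ 0 ∧ Y ^ 2 = X * (X - (A : ℚ_[p])) * (X - (B : ℚ_[p])) ∧
      X = (d : ℚ_[p]) * r ^ 2 := by
  have h2 : p ≠ 2 := by omega
  obtain ⟨e, he⟩ := hodd
  obtain ⟨A', hA'⟩ : (p : ℤ) ^ (2 * e + 1) ∣ A := by
    rw [← he]
    exact padicValInt_dvd A
  obtain ⟨d', hd'⟩ := hpd
  have hA'p : ¬ (p : ℤ) ∣ A' := by
    rintro ⟨c, hc⟩
    have h : (p : ℤ) ^ (padicValInt p A + 1) ∣ A := by
      rw [he]
      exact ⟨c, by rw [hA', hc]; ring⟩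
    rw [padicValInt_dvd_iff] at h
    rcases h with h | h
    · exact hA h
    · omega
  have hd'p : ¬ (p : ℤ) ∣ d' := by
    rintro ⟨c, hc⟩
    exact hpd2 ⟨c, by rw [hd', hc]; ring⟩
  have zA : (A' : ZMod p) ≠ 0 := fun h => hA'p ((ZMod.intCast_zmod_eq_zero_iff_dvd A' p).1 h)
  have zd : (d' : ZMod p) ≠ 0 := fun h => hd'p ((ZMod.intCast_zmod_eq_zero_iff_dvd d' p).1 h)
  have zB : (B : ZMod p) ≠ 0 := fun h => hB ((ZMod.intCast_zmod_eq_zero_iff_dvd B p).1 h)
  have hp0 : (p : ℚ_[p]) ≠ 0 := by exact_mod_cast hp.out.ne_zero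
  have hA0 : (A : ℚ_[p]) ≠ 0 := by exact_mod_cast hA
  have hd0 : (d' : ℚ_[p]) ≠ 0 := by
    have : d' ≠ 0 := by
      rintro rfl
      exact hd'p (dvd_zero _)
    exact_mod_cast this
  -- squares of p-adic integers
  have sq : ∀ u : ℤ_[p], quadraticChar (ZMod p) (PadicInt.toZMod u) = 1 →
      ∃ v : ℚ_[p], (u : ℚ_[p]) = v ^ 2 := by
    intro u hu
    obtain ⟨v, hv⟩ := sq_of_char h2 hu
    exact ⟨v, by rw [hv]; push_cast; ring⟩
  have hnB : -(B : ZMod p) ≠ 0 := neg_ne_zero.2 zB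
  have hm : (A' : ZMod p) * (d' : ZMod p) ≠ 0 := mul_ne_zero zA zd
  obtain ⟨w, hw1, hw2⟩ := exists_w h11 (quadraticChar (ZMod p) ((A' : ZMod p) * (d' : ZMod p)))
    (quadraticChar (ZMod p) (-(B : ZMod p))) (quadraticChar_dichotomy hm)
    (quadraticChar_dichotomy hnB)
  set w0 : ℤ_[p] := ((w.val : ℕ) : ℤ_[p]) with hw0
  have hww : PadicInt.toZMod w0 = w := by
    rw [hw0, map_natCast, ZMod.natCast_zmod_val]
  have hsq1 : ∀ x : ZMod p, x ≠ 0 → quadraticChar (ZMod p) x * quadraticChar (ZMod p) x = 1 := by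
    intro x hx
    rcases quadraticChar_dichotomy hx with h | h <;> rw [h] <;> norm_num
  obtain ⟨v, hv⟩ := sq (w0 * ((A' : ℤ_[p]) * (d' : ℤ_[p]))) (by
    have e1 : PadicInt.toZMod (w0 * ((A' : ℤ_[p]) * (d' : ℤ_[p]))) =
        w * ((A' : ZMod p) * (d' : ZMod p)) := by
      simp only [map_mul, map_intCast, hww]
    rw [e1, map_mul, hw1]
    exact hsq1 _ hm)
  obtain ⟨y, hy⟩ := sq (w0 * (w0 - 1) * ((A : ℤ_[p]) * w0 - (B : ℤ_[p]))) (by
    have hAz : (A : ZMod p) = 0 := by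
      rw [ZMod.intCast_zmod_eq_zero_iff_dvd]
      exact ⟨(p : ℤ) ^ (2 * e) * A', by rw [hA']; ring⟩
    have e1 : PadicInt.toZMod (w0 * (w0 - 1) * ((A : ℤ_[p]) * w0 - (B : ℤ_[p]))) =
        w * (w - 1) * (-(B : ZMod p)) := by
      simp only [map_mul, map_sub, map_intCast, map_one, hww, hAz]
      ring
    rw [e1, map_mul, hw2]
    exact hsq1 _ hnB)
  have hw00 : (w0 : ℚ_[p]) ≠ 0 := by
    intro h0
    have h0' : w0 = 0 := Subtype.ext h0
    rw [h0', map_zero] at hww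
    rw [← hww, quadraticChar_zero] at hw1
    rcases quadraticChar_dichotomy hm with h | h <;> rw [h] at hw1 <;> norm_num at hw1
  push_cast at hv hy
  have hAc : (A : ℚ_[p]) = (p : ℚ_[p]) ^ (2 * e + 1) * (A' : ℚ_[p]) := by
    rw [hA']; push_cast; ring
  have hdc : (d : ℚ_[p]) = (p : ℚ_[p]) * (d' : ℚ_[p]) := by
    rw [hd']; push_cast; ring
  refine ⟨(A : ℚ_[p]) * w0, (A : ℚ_[p]) * y, (p : ℚ_[p]) ^ e * v / d', mul_ne_zero hA0 hw00, ?_, ?_⟩
  · rw [mul_pow, ← hy]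
    ring
  · rw [hdc, div_pow, mul_pow, ← hv, hAc]
    field_simp
    ring

end Pool.Agent.TH841.LS.LOCB0
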