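import Mathlib
import Pool.Agent.TH841.LS.Stm
import Pool.Agent.TH841.LS.Locb0
import Pool.Agent.TH841.SH.Sel

set_option autoImplicit false

namespace Pool.Agent.TH841.LS.LOCBf

/-- LS-LOCB (see `Locb0.lean`) -/
theorem locb : Pool.Agent.TH841.LS.LOCB := by
  intro p hp A B d h11 hA _ _ hpB hodd hpd hpd2
  exact Pool.Agent.TH841.LS.LOCB0.aux p A B d h11 hA hpB hodd hpd hpd2

/-- from a point with `x` a nonzero square to a point with `X ∈ d K*²`, `d` a square -/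
theorem of_sq {K : Type} [Field K] {A B d : ℤ} (hd : (d : K) ≠ 0) (hsq : IsSquare (d : K))
    (h : ∃ x y : K, y ≠ 0 ∧ y ^ 2 = (x - ((0 : ℤ) : K)) * (x - (A : K)) * (x - (B : K)) ∧
      IsSquare (x - ((0 : ℤ) : K)) ∧ IsSquare (x - (A : K)) ∧ IsSquare (x - (B : K))) :
    Pool.Agent.TH841.LS.LocI K A B d := by
  obtain ⟨s, hs⟩ := hsq
  obtain ⟨x, y, hy, he, ⟨q, hq⟩, -, -⟩ := h
  rw [Int.cast_zero, sub_zero] at he hq
  have hs0 : s ≠ 0 := by
    rintro rfl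
    apply hd
    rw [hs, zero_mul]
  refine ⟨x, y, q / s, ?_, he, ?_⟩
  · rintro rfl
    rw [zero_mul, zero_mul] at he
    exact hy (pow_eq_zero_iff (two_ne_zero) |>.1 he)
  · rw [hq, hs]
    field_simp

/-- LS-LOCC -/
theorem locc : Pool.Agent.TH841.LS.LOCC := by
  intro A B d hA _ _ hd
  refine ⟨?_, ?_⟩
  · intro p hp h
    have hd0 : (d : ℚ_[p]) ≠ 0 := by exact_mod_cast hd
    have hA0 : (A : ℚ_[p]) ≠ 0 := by exact_mod_cast hA
    rcases h with h | h
    · exact of_sq hd0 h (Pool.Agent.TH841.SH.pt_pad p 0 A B)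
    · obtain ⟨s, hs⟩ := h
      refine ⟨A, 0, s / d, hA0, by ring, ?_⟩
      field_simp
      linear_combination hs
  · intro hpos
    have hd0 : (0 : ℝ) < (d : ℝ) := by exact_mod_cast hpos
    exact of_sq hd0.ne' ⟨Real.sqrt d, (Real.mul_self_sqrt hd0.le).symm⟩
      (Pool.Agent.TH841.SH.pt_real 0 A B)

end Pool.Agent.TH841.LS.LOCBf
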