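import Mathlib
import Pool.Agent.TH841.LS.Stm3
import Pool.Agent.TH841.LS.Locd0

/-!
# Jobs LS-LOCD, LS-LOCE (helper416 for helper841), see `Locd0.lean`
-/

set_option autoImplicit false

namespace Pool.Agent.TH841.LS.LOCDf

/-- LS-LOCD -/
theorem locd : Pool.Agent.TH841.LS.LOCD := by
  intro p hp A B d h2 hA hB hAB hd ho hnr
  obtain ⟨k, u, hu, hj⟩ := hnr
  exact Pool.Agent.TH841.LS.LOCD0.locd0 p A B d h2 hA hB hd ho k u hu hj

/-- LS-LOCE -/
theorem loce : Pool.Agent.TH841.LS.LOCE := by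
  intro p hp A B d h2 hA hB hAB hd hpd hj
  exact Pool.Agent.TH841.LS.LOCD0.loce0 p A B d h2 hA hd hpd hj

end Pool.Agent.TH841.LS.LOCDf
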