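import Mathlib
import Pool.Agent.TH841.LS.Stm

/-!
# LS-LOT: local triviality of `χ_d T`

If `(X, Y) ∈ E(K)` with `X = d r²`, `s = 2 r √d`, then `P = (x, s x)`, `x = 2 X - (A + B) + 4 Y / s`,
is a point of `W` over the algebraic closure of `K` and `τ P - P = χ_d(τ) T`.
-/

set_option autoImplicit false

namespace Pool.Agent.TH841.LS.LOTf

open WeierstrassCurve Pool.Agent.TH841.SH.D Pool.Agent.TH841.LS

lemma act_some' (W : WeierstrassCurve ℚ) {F L : Type} [Field F] [Field L] [Algebra ℚ F]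
    [Algebra ℚ L] (φ : F →ₐ[ℚ] L) {x y : F} (h : (W.baseChange F).toAffine.Nonsingular x y) :
    act W φ (Affine.Point.some x y h) =
      Affine.Point.some (φ x) (φ y) ((Affine.baseChange_nonsingular W φ.injective ..).mpr h) := rfl

lemma some_congr {L : Type} [Field L] (W : WeierstrassCurve.Affine L) {x y x' y' : L}
    (h : W.Nonsingular x y) (h' : W.Nonsingular x' y') (hx : x = x') (hy : y = y') :
    (Affine.Point.some x y h : W.Point) = Affine.Point.some x' y' h' := by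
  subst hx hy
  rfl

section

variable {A B : ℤ} {L : Type} [Field L] [Algebra ℚ L]

lemma wa1 : ((WI A B).baseChange L).toAffine.a₁ = 0 := map_zero (algebraMap ℚ L)

lemma wa3 : ((WI A B).baseChange L).toAffine.a₃ = 0 := map_zero (algebraMap ℚ L)

lemma wa6 : ((WI A B).baseChange L).toAffine.a₆ = 0 := map_zero (algebraMap ℚ L)

lemma wa2 : ((WI A B).baseChange L).toAffine.a₂ = 2 * ((A : L) + B) := by
  change algebraMap ℚ L (2 * ((A : ℚ) + B)) = _
  rw [map_mul, map_add, map_ofNat, map_intCast, map_intCast]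

lemma wa4 : ((WI A B).baseChange L).toAffine.a₄ = ((A : L) - B) ^ 2 := by
  change algebraMap ℚ L (((A : ℚ) - B) ^ 2) = _
  rw [map_pow, map_sub, map_intCast, map_intCast]

lemma hne {A B : ℤ} (h : A ≠ B) (L : Type) [Field L] [Algebra ℚ L] : ((A : L) - B) ^ 2 ≠ 0 := by
  have : CharZero L := algebraRat.charZero L
  exact pow_ne_zero 2 (sub_ne_zero.2 (by exact_mod_cast h))

/-- the points `(x, s x)` -/
lemma nons (h : A ≠ B) {s x : L} (hs : s ≠ 0) (hx : x * (s ^ 2 - 2 * (A + B) - x) = (A - B) ^ 2) :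
    ((WI A B).baseChange L).toAffine.Nonsingular x (s * x) := by
  have : CharZero L := algebraRat.charZero L
  have hx0 : x ≠ 0 := by
    rintro rfl
    rw [zero_mul] at hx
    exact hne h L hx.symm
  rw [Affine.nonsingular_iff', Affine.equation_iff', wa1, wa2, wa3, wa4, wa6]
  refine ⟨?_, Or.inr ?_⟩
  · rw [← hx]
    ring
  · have : (2 : L) * (s * x) ≠ 0 := mul_ne_zero two_ne_zero (mul_ne_zero hs hx0)
    simpa using this

/-- the point `(x, s x)` -/
def mkP (h : A ≠ B) {s x : L} (hs : s ≠ 0)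
    (hx : x * (s ^ 2 - 2 * (A + B) - x) = (A - B) ^ 2) : Pt (WI A B) L :=
  Affine.Point.some x (s * x) (nons h hs hx)

/-- `(0, 0) + (x, s x) = (x', -s x')`, `x + x' = s ^ 2 - 2 (A + B)` -/
lemma add_T0 (h : A ≠ B) {s x : L} (hs : s ≠ 0)
    (hx : x * (s ^ 2 - 2 * (A + B) - x) = (A - B) ^ 2) {x' y' : L}
    (hx' : x' = s ^ 2 - 2 * (A + B) - x) (hy' : y' = - s * x')
    (hn : ((WI A B).baseChange L).toAffine.Nonsingular x' y') :
    T0 h L + mkP h hs hx = Affine.Point.some x' y' hn := by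
  have hx0 : x ≠ 0 := by
    rintro rfl
    rw [zero_mul] at hx
    exact hne h L hx.symm
  have h1 : (0 : L) ≠ x := fun h2 => hx0 h2.symm
  let _ : DecidableEq L := Classical.decEq L
  have hsl : ((WI A B).baseChange L).toAffine.slope 0 x 0 (s * x) = s := by
    rw [Affine.slope_of_X_ne h1, zero_sub, zero_sub, neg_div_neg_eq, mul_div_cancel_right₀ _ hx0]
  refine Eq.trans (@Affine.Point.add_of_X_ne L _ ((WI A B).baseChange L).toAffine
    (Classical.decEq L) 0 x 0 (s * x) (ns0 h L) (nons h hs hx) h1) ?_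
  refine some_congr _ _ _ ?_ ?_
  · rw [hsl, Affine.addX, wa1, wa2, hx']
    ring
  · rw [hsl, Affine.addY, Affine.negAddY, Affine.negY, Affine.addX, wa1, wa2, wa3, hy', hx']
    ring

end

lemma act_T0 {A B : ℤ} (h : A ≠ B) {F L : Type} [Field F] [Field L] [Algebra ℚ F]
    [Algebra ℚ L] (φ : F →ₐ[ℚ] L) : act (WI A B) φ (T0 h F) = T0 h L := by
  rw [T0, act_some']
  exact some_congr _ _ _ (map_zero φ) (map_zero φ)

/-- the geometric form -/
lemma lot_aux {A B : ℤ} (h : A ≠ B) (d : ℤ) {F : Type} [Field F] [Algebra ℚ F]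
    (ι : AlgebraicClosure ℚ →ₐ[ℚ] F) (X' Y' r' : F) (hX0 : X' ≠ 0) (eX : X' = d * r' ^ 2)
    (eY : Y' ^ 2 = X' * (X' - A) * (X' - B)) :
    ∃ P : Pt (WI A B) F, ∀ (τ' : F →ₐ[ℚ] F) (σ : Gal ℚ), τ' X' = X' → τ' Y' = Y' → τ' r' = r' →
      (∀ z, τ' (ι z) = ι (σ z)) → act (WI A B) ι (coc h d σ) = act (WI A B) τ' P - P := by
  have hF0 : CharZero F := algebraRat.charZero F
  obtain ⟨s0, hs0⟩ := IsAlgClosed.exists_pow_nat_eq (d : AlgebraicClosure ℚ) (n := 2) (by norm_num)
  have hq : (ι s0) ^ 2 = (d : F) := by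
    rw [← map_pow, hs0, map_intCast]
  have h40 : (4 : F) * X' ≠ 0 := mul_ne_zero (by norm_num) hX0
  obtain ⟨s, hs⟩ : ∃ s : F, s = 2 * r' * ι s0 := ⟨_, rfl⟩
  have hs2 : s ^ 2 = 4 * X' := by
    rw [hs, mul_pow, hq, eX]
    ring
  have hsne : s ≠ 0 := by
    intro h0
    rw [h0] at hs2
    apply h40
    rw [← hs2]
    ring
  obtain ⟨x, hxdef⟩ : ∃ x : F, x = 2 * X' - (A + B) + 4 * Y' / s := ⟨_, rfl⟩
  have hx : x * (s ^ 2 - 2 * (A + B) - x) = ((A : F) - B) ^ 2 := by
    have h3 : (4 * Y' / s) ^ 2 = 4 * (X' - A) * (X' - B) := by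
      rw [div_pow, hs2, mul_pow, eY, div_eq_iff h40]
      ring
    have h4 : x * (s ^ 2 - 2 * (A + B) - x) = (2 * X' - (A + B)) ^ 2 - (4 * Y' / s) ^ 2 := by
      rw [hs2, hxdef]
      ring
    rw [h4, h3]
    ring
  refine ⟨mkP h hsne hx, fun τ' σ hτX hτY hτr hτι => ?_⟩
  have hτx : τ' x = 2 * X' - (A + B) + 4 * Y' / τ' s := by
    rw [hxdef, map_add, map_sub, map_mul, map_div₀, map_mul, map_add, map_ofNat, map_ofNat,
      map_intCast, map_intCast, hτX, hτY]
  have hP : act (WI A B) τ' (mkP h hsne hx) =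
      Affine.Point.some (τ' x) (τ' (s * x))
        ((Affine.baseChange_nonsingular (WI A B) τ'.injective ..).mpr (nons h hsne hx)) := rfl
  by_cases hσ : ∃ t : AlgebraicClosure ℚ, t ^ 2 = (d : AlgebraicClosure ℚ) ∧ σ t ≠ t
  · -- `σ √d = - √d`
    have hc : coc h d σ = T0 h (AlgebraicClosure ℚ) := if_pos hσ
    have hc2 : act (WI A B) ι (coc h d σ) = T0 h F := by
      rw [hc, act_T0]
    have hσ0 : σ s0 = - s0 := by
      have h5 : (σ s0) ^ 2 = s0 ^ 2 := by rw [← map_pow, hs0, map_intCast]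
      rcases sq_eq_sq_iff_eq_or_eq_neg.1 h5 with h6 | h6
      · exfalso
        obtain ⟨t, ht, ht2⟩ := hσ
        apply ht2
        rw [← hs0] at ht
        rcases sq_eq_sq_iff_eq_or_eq_neg.1 ht with h7 | h7
        · rw [h7, h6]
        · rw [h7, map_neg, h6]
      · exact h6
    have hτs : τ' s = - s := by
      rw [hs, map_mul, map_mul, map_ofNat, hτr, hτι, hσ0, map_neg]
      ring
    have e1 : τ' x = s ^ 2 - 2 * (A + B) - x := by
      rw [hτx, hτs, hs2, hxdef, div_neg]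
      ring
    exact eq_sub_of_add_eq ((congrArg (fun z => z + mkP h hsne hx) hc2).trans
      ((add_T0 h hsne hx e1 (by rw [map_mul, hτs]) _).trans hP.symm))
  · have hc : coc h d σ = 0 := if_neg hσ
    have hc2 : act (WI A B) ι (coc h d σ) = 0 :=
      (congrArg (act (WI A B) ι) hc).trans (map_zero (act (WI A B) ι))
    have hσ0 : σ s0 = s0 := by
      by_contra h5
      exact hσ ⟨s0, hs0, h5⟩
    have hτs : τ' s = s := by
      rw [hs, map_mul, map_mul, map_ofNat, hτr, hτι, hσ0]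
    have e1 : τ' x = x := by
      rw [hτx, hτs, hxdef]
    have e2 : act (WI A B) τ' (mkP h hsne hx) = mkP h hsne hx :=
      hP.trans (some_congr _ _ _ e1 (by rw [map_mul, hτs, e1]))
    exact hc2.trans (sub_eq_zero.2 e2).symm

theorem lot : LOT := by
  intro A B h d _ _ _ K _ _ ⟨X, Y, r, hX, hY, hXd⟩ ι
  obtain ⟨P, hP⟩ := lot_aux h d ι (algebraMap K (AlgebraicClosure K) X)
    (algebraMap K (AlgebraicClosure K) Y) (algebraMap K (AlgebraicClosure K) r)
    (fun h0 => hX ((algebraMap K (AlgebraicClosure K)).injective (by rw [h0, map_zero])))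
    (by rw [hXd, map_mul, map_pow, map_intCast])
    (by rw [← map_pow, hY, map_mul, map_mul, map_sub, map_sub, map_intCast, map_intCast])
  exact ⟨P, fun τ σ hτσ => hP (τ.toAlgHom.restrictScalars ℚ) σ (τ.commutes X) (τ.commutes Y)
    (τ.commutes r) hτσ⟩


end Pool.Agent.TH841.LS.LOTf
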