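import Mathlib
import Pool.Agent.TH841.LS.Stm

/-!
# Project LS: the lower bound for the Tate-Shafarevich group
-/

set_option autoImplicit false

namespace Pool.Agent.TH841.LS

open Finset WeierstrassCurve

open Pool.Agent.TH841.SH.D

open Pool.Agent.TH841.PT (EQ)

lemma dd_ne {G : Finset ℕ} (hG : ∀ p ∈ G, p.Prime) (ε : G → ZMod 2) : dd G ε ≠ 0 := by
  unfold dd
  rw [prod_ne_zero_iff]
  intro p _
  split_ifs
  · exact_mod_cast (hG p.1 p.2).ne_zero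
  · exact one_ne_zero

instance fact2 : Fact (Nat.Prime 2) := ⟨Nat.prime_two⟩

theorem shl_of (hcoc : COC) (hlot : LOT) (hcob : COB) (hker : KER) : SHL := by
  classical
  intro A B h hA hB G hG V hV
  obtain ⟨c1, c2, c3⟩ := hcoc A B h
  -- the cocycles
  have hsha : ∀ ε : V, coc h (dd G ε.1) ∈ shaCoc (WI A B) := fun ε =>
    ⟨c1 _, fun p _ => hlot A B h _ hA hB (dd_ne hG _) _ ((hV ε.1 ε.2).1 p),
      hlot A B h _ hA hB (dd_ne hG _) _ (hV ε.1 ε.2).2⟩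
  let Θ₀ : V → shaCoc (WI A B) := fun ε => ⟨coc h (dd G ε.1), hsha ε⟩
  have hadd : ∀ ε ε' : V, Θ₀ (ε + ε') = Θ₀ ε + Θ₀ ε' := fun ε ε' =>
    Subtype.ext (c3 G hG ε.1 ε'.1)
  let Θ₁ : V →+ shaCoc (WI A B) := AddMonoidHom.mk' Θ₀ hadd
  let Θ : V →+ Sha (WI A B) :=
    (QuotientAddGroup.mk' ((cob (WI A B)).addSubgroupOf (shaCoc (WI A B)))).comp Θ₁
  have hk : ∀ ε : V, Θ ε = 0 → IsCob (WI A B) (coc h (dd G ε.1)) := by
    intro ε hε
    have h1 : (QuotientAddGroup.mk' ((cob (WI A B)).addSubgroupOf (shaCoc (WI A B)))) (Θ₁ ε) = 0 :=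
      hε
    rw [← AddMonoidHom.mem_ker, QuotientAddGroup.ker_mk', AddSubgroup.mem_addSubgroupOf] at h1
    exact h1
  -- the kernel
  let Kr : Submodule (ZMod 2) V := AddSubgroup.toZModSubmodule 2 Θ.ker
  have hKr : ∀ ε : V, ε ∈ Kr ↔ Θ ε = 0 := fun ε => Iff.rfl
  have hcard : Nat.card Kr ≤ 2 ^ (rk (EQ A B) + 2) := by
    let S : Finset (G → ZMod 2) := univ.filter (fun ε => ∃ hε : ε ∈ V, Θ ⟨ε, hε⟩ = 0)
    have h1 := hker A B h hA hB G hG S (by
      intro ε hε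
      obtain ⟨hV', hz⟩ := (mem_filter.1 hε).2
      exact hcob A B h _ hA hB (dd_ne hG ε) (hk ⟨ε, hV'⟩ hz))
    refine le_trans ?_ h1
    have h2 : Nat.card S = S.card := by
      rw [Nat.card_eq_fintype_card, Fintype.card_coe]
    rw [← h2]
    refine Nat.card_le_card_of_injective (fun x : Kr => (⟨x.1.1, mem_filter.2 ⟨mem_univ _,
      x.1.2, (hKr x.1).1 x.2⟩⟩ : S)) ?_
    intro x y hxy
    have h3 : x.1.1 = y.1.1 := congrArg (fun z : S => z.1) hxy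
    exact Subtype.ext (Subtype.ext h3)
  have hfr : Module.finrank (ZMod 2) Kr ≤ rk (EQ A B) + 2 := by
    rw [Module.natCard_eq_pow_finrank (K := ZMod 2), Nat.card_zmod] at hcard
    exact (Nat.pow_le_pow_iff_right (by norm_num)).1 hcard
  obtain ⟨Q, hQ⟩ := Submodule.exists_isCompl Kr
  have hsum := Submodule.finrank_add_eq_of_isCompl hQ
  refine ⟨Module.finrank (ZMod 2) Q, by omega, ?_⟩
  let e : (Fin (Module.finrank (ZMod 2) Q) → ZMod 2) ≃ₗ[ZMod 2] Q :=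
    (Module.finBasis (ZMod 2) Q).equivFun.symm
  refine ⟨(Θ.comp Q.subtype.toAddMonoidHom).comp e.toLinearMap.toAddMonoidHom, ?_⟩
  rw [injective_iff_map_eq_zero]
  intro x hx
  have h1 : (e x : V) ∈ Kr := (hKr _).2 hx
  have h2 : (e x : V) ∈ Kr ⊓ Q := ⟨h1, (e x).2⟩
  rw [hQ.inf_eq_bot, Submodule.mem_bot] at h2
  have h3 : e x = 0 := Subtype.ext h2
  exact (LinearEquiv.map_eq_zero_iff e).1 h3

end Pool.Agent.TH841.LS
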