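import Mathlib
import Pool.Agent.TH841.LS.Shl
import Pool.Agent.TH841.LS.Stm3

/-!
# Project LS: the space of the everywhere locally trivial classes
-/

set_option autoImplicit false

namespace Pool.Agent.TH841.LS

open Finset

lemma dd_pos {G : Finset ℕ} (hG : ∀ p ∈ G, p.Prime) (ε : G → ZMod 2) : 0 < dd G ε := by
  unfold dd
  refine prod_pos fun p _ => ?_
  split_ifs
  · exact_mod_cast (hG p.1 p.2).pos
  · exact one_pos

lemma dvd_factor {G : Finset ℕ} (hG : ∀ p ∈ G, p.Prime) (ε : G → ZMod 2) {p : ℕ} (hp : p.Prime)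
    (q : G) (h : (p : ℤ) ∣ (if ε q = 1 then ((q : ℕ) : ℤ) else 1)) : ε q = 1 ∧ (q : ℕ) = p := by
  split_ifs at h with h1
  · refine ⟨h1, ?_⟩
    have h2 : p ∣ (q : ℕ) := by exact_mod_cast h
    exact ((Nat.prime_dvd_prime_iff_eq hp (hG q.1 q.2)).1 h2).symm
  · exfalso
    have h2 : p ∣ 1 := by exact_mod_cast h
    exact hp.one_lt.ne' (Nat.dvd_one.1 h2)

lemma dvd_dd {G : Finset ℕ} (hG : ∀ p ∈ G, p.Prime) (ε : G → ZMod 2) {p : ℕ} (hp : p.Prime)
    (h : (p : ℤ) ∣ dd G ε) : p ∈ G := by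
  unfold dd at h
  obtain ⟨q, _, hq⟩ := (Prime.dvd_finset_prod_iff (Nat.prime_iff_prime_int.1 hp) _).1 h
  rw [← (dvd_factor hG ε hp q hq).2]
  exact q.2

lemma sq_dd {G : Finset ℕ} (hG : ∀ p ∈ G, p.Prime) (ε : G → ZMod 2) {p : ℕ} (hp : p.Prime) :
    ¬ (p : ℤ) ^ 2 ∣ dd G ε := by
  classical
  intro h
  have h1 : p ∈ G := dvd_dd hG ε hp ((dvd_pow_self _ two_ne_zero).trans h)
  unfold dd at h
  rw [← mul_prod_erase univ _ (mem_univ (⟨p, h1⟩ : G))] at h
  have hpp : Prime (p : ℤ) := Nat.prime_iff_prime_int.1 hp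
  have h3 : (p : ℤ) ∣ ∏ q ∈ univ.erase (⟨p, h1⟩ : G), (if ε q = 1 then ((q : ℕ) : ℤ) else 1) := by
    by_cases he : ε ⟨p, h1⟩ = 1
    · rw [if_pos he, pow_two] at h
      exact (mul_dvd_mul_iff_left hpp.ne_zero).1 h
    · rw [if_neg he, one_mul] at h
      exact (dvd_pow_self _ two_ne_zero).trans h
  obtain ⟨q, hq, hd⟩ := (Prime.dvd_finset_prod_iff hpp _).1 h3
  exact (ne_of_mem_erase hq) (Subtype.ext (dvd_factor hG ε hp q hd).2)

lemma locI_swap {K : Type} [Field K] {A B d : ℤ} (h : LocI K A B d) : LocI K B A d := by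
  obtain ⟨X, Y, r, hX, hY, hr⟩ := h
  exact ⟨X, Y, r, hX, by rw [hY]; ring, hr⟩

lemma locI_scale {K : Type} [Field K] [CharZero K] {A B d c : ℤ} (hc : c ≠ 0)
    (h : LocI K A B d) : LocI K (A * c ^ 2) (B * c ^ 2) d := by
  obtain ⟨X, Y, r, hX, hY, hr⟩ := h
  have hcK : (c : K) ≠ 0 := by exact_mod_cast hc
  refine ⟨(c : K) ^ 2 * X, (c : K) ^ 3 * Y, c * r, mul_ne_zero (pow_ne_zero 2 hcK) hX, ?_, ?_⟩
  · push_cast
    linear_combination (c : K) ^ 6 * hY
  · rw [hr]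
    ring

theorem loc_all (hLA : LOCA) (hLB : LOCB) (hLC : LOCC) (hL : LIN) (A B : ℤ) (h : A ≠ B)
    (hA : A ≠ 0) (hB : B ≠ 0) :
    ∃ (G : Finset ℕ) (V : Submodule (ZMod 2) (G → ZMod 2)), (∀ p ∈ G, p.Prime) ∧
      (∀ ε ∈ V, (∀ (p : ℕ) [Fact p.Prime], LocI ℚ_[p] A B (dd G ε)) ∧ LocI ℝ A B (dd G ε)) ∧
      (GA A B).card ≤ Module.finrank (ZMod 2) V + (C1 A B).card + 5 := by
  classical
  have hAB : A - B ≠ 0 := sub_ne_zero.2 h
  have hmemD : ∀ p, p ∈ GD A B ↔ (p.Prime ∧ (p : ℤ) ∣ A - B) ∧ 11 ≤ p ∧ Odd (padicValInt p A) := by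
    intro p
    unfold GD
    rw [mem_filter, Nat.mem_primeFactors]
    have h1 : (A - B).natAbs ≠ 0 := Int.natAbs_ne_zero.2 hAB
    constructor
    · rintro ⟨⟨h2, h3, _⟩, h4⟩
      exact ⟨⟨h2, Int.natCast_dvd.2 h3⟩, h4⟩
    · rintro ⟨⟨h2, h3⟩, h4⟩
      exact ⟨⟨h2, Int.natCast_dvd.1 h3, h1⟩, h4⟩
  have hmemC : ∀ p, p ∈ C1 A B ↔ (p.Prime ∧ (p : ℤ) ∣ A - B) ∧ 11 ≤ p ∧
      ¬ Odd (padicValInt p A) := by
    intro p
    unfold C1
    rw [mem_filter, Nat.mem_primeFactors]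
    have h1 : (A - B).natAbs ≠ 0 := Int.natAbs_ne_zero.2 hAB
    constructor
    · rintro ⟨⟨h2, h3, _⟩, h4⟩
      exact ⟨⟨h2, Int.natCast_dvd.2 h3⟩, h4⟩
    · rintro ⟨⟨h2, h3⟩, h4⟩
      exact ⟨⟨h2, Int.natCast_dvd.1 h3, h1⟩, h4⟩
  have hmemA : ∀ p, p ∈ GA A B → p.Prime ∧ 11 ≤ p ∧ ¬ (p : ℤ) ∣ A - B ∧
      (Odd (padicValInt p A) ∨ Odd (padicValInt p B)) := by
    intro p hp
    unfold GA at hp
    rw [mem_filter] at hp
    exact ⟨Nat.prime_of_mem_primeFactors hp.1, hp.2⟩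
  set G : Finset ℕ := GA A B ∪ GD A B with hG
  have hdis : Disjoint (GA A B) (GD A B) := by
    rw [disjoint_left]
    intro p hp hp'
    exact (hmemA p hp).2.2.1 ((hmemD p).1 hp').1.2
  have hGp : ∀ p ∈ G, p.Prime := by
    intro p hp
    rcases mem_union.1 hp with hp | hp
    · exact (hmemA p hp).1
    · exact ((hmemD p).1 hp).1.1
  have hG11 : ∀ p ∈ G, 11 ≤ p := by
    intro p hp
    rcases mem_union.1 hp with hp | hp
    · exact (hmemA p hp).2.1
    · exact ((hmemD p).1 hp).2.1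
  obtain ⟨V, hV1, hV2⟩ := hL A G (C1 A B ∪ {3, 5, 7}) (GD A B)
    (fun p hp => ⟨hGp p hp, fun h2 => by have := hG11 p hp; omega⟩)
    (by
      intro p hp
      rcases mem_union.1 hp with hp | hp
      · obtain ⟨⟨h1, h2⟩, h3, h4⟩ := (hmemC p).1 hp
        refine ⟨h1, by omega, fun h5 => ?_⟩
        rcases mem_union.1 h5 with h5 | h5
        · exact (hmemA p h5).2.2.1 h2
        · exact h4 ((hmemD p).1 h5).2.2
      · simp only [mem_insert, mem_singleton] at hp
        rcases hp with rfl | rfl | rfl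
        · exact ⟨by norm_num, by norm_num, fun h5 => by have := hG11 _ h5; omega⟩
        · exact ⟨by norm_num, by norm_num, fun h5 => by have := hG11 _ h5; omega⟩
        · exact ⟨by norm_num, by norm_num, fun h5 => by have := hG11 _ h5; omega⟩)
    (fun p hp => ⟨mem_union_right _ hp, ((hmemD p).1 hp).2.2⟩)
  refine ⟨G, V, hGp, fun ε hε => ?_, ?_⟩
  · obtain ⟨k1, k2⟩ := hV2 ε hε
    have hd0 : dd G ε ≠ 0 := dd_ne hGp ε
    obtain ⟨l1, l2⟩ := hLC A B (dd G ε) hA hB h hd0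
    refine ⟨fun p hp => ?_, l2 (dd_pos hGp ε)⟩
    have hpp : p.Prime := hp.out
    by_cases hp2 : p = 2
    · exact l1 p (Or.inl (k1 p (Or.inr hp2)))
    by_cases hp11 : 11 ≤ p
    · by_cases hpd : (p : ℤ) ∣ A - B
      · by_cases ho : Odd (padicValInt p A)
        · exact l1 p (k2 p ((hmemD p).2 ⟨⟨hpp, hpd⟩, hp11, ho⟩))
        · exact l1 p (Or.inl (k1 p (Or.inl (mem_union_left _
            ((hmemC p).2 ⟨⟨hpp, hpd⟩, hp11, ho⟩)))))
      · by_cases hdd : (p : ℤ) ∣ dd G ε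
        · have hpG := dvd_dd hGp ε hpp hdd
          have hpA : p ∈ GA A B := by
            rcases mem_union.1 hpG with h1 | h1
            · exact h1
            · exact absurd ((hmemD p).1 h1).1.2 hpd
          obtain ⟨_, _, _, ho⟩ := hmemA p hpA
          have hodd : ∀ x : ℤ, Odd (padicValInt p x) → (p : ℤ) ∣ x := by
            intro x hx
            by_contra hn
            rw [padicValInt.eq_zero_of_not_dvd hn] at hx
            exact (by decide : ¬ Odd 0) hx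
          rcases ho with ho | ho
          · exact hLB p A B _ hp11 hA hB hd0 (fun hB' => hpd (dvd_sub (hodd A ho) hB')) ho hdd
              (sq_dd hGp ε hpp)
          · exact locI_swap (hLB p B A _ hp11 hB hA hd0
              (fun hA' => hpd (dvd_sub hA' (hodd B ho))) ho hdd (sq_dd hGp ε hpp))
        · exact hLA p A B _ hp11 hA hB hpd hdd
    · have h357 : p = 3 ∨ p = 5 ∨ p = 7 := by
        have h1 : p < 11 := by omega
        have h2 := hpp.two_le
        interval_cases p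
        · exact absurd rfl hp2
        · exact Or.inl rfl
        · exact absurd hpp (by decide)
        · exact Or.inr (Or.inl rfl)
        · exact absurd hpp (by decide)
        · exact Or.inr (Or.inr rfl)
        · exact absurd hpp (by decide)
        · exact absurd hpp (by decide)
        · exact absurd hpp (by decide)
      refine l1 p (Or.inl (k1 p (Or.inl (mem_union_right _ ?_))))
      simp only [mem_insert, mem_singleton]
      exact h357
  · have h1 : G.card = (GA A B).card + (GD A B).card := card_union_of_disjoint hdis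
    have h2 : (C1 A B ∪ {3, 5, 7}).card ≤ (C1 A B).card + 3 :=
      (card_union_le _ _).trans (Nat.add_le_add_left (by decide) _)
    omega

end Pool.Agent.TH841.LS
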