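import Mathlib
import Pool.Agent.TH841.LS.Loc1

/-!
# Project LS, sharp version: the space of the everywhere locally trivial classes
-/

set_option autoImplicit false

namespace Pool.Agent.TH841.LS

open Finset

open Pool.Agent.TH841.SH.D

open Pool.Agent.TH841.PT (EQ)

theorem loc_all2 (hLA : LOCA) (hLB : LOCB) (hLC : LOCC) (hLD : LOCD) (hLE : LOCE) (hL : LIN)
    (A B : ℤ) (h : A ≠ B) (hA : A ≠ 0) (hB : B ≠ 0) :
    ∃ (G : Finset ℕ) (V : Submodule (ZMod 2) (G → ZMod 2)), (∀ p ∈ G, p.Prime) ∧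
      (∀ p ∈ G, (p : ℤ) ∣ A * B) ∧
      (∀ ε ∈ V, (∀ (p : ℕ) [Fact p.Prime], LocI ℚ_[p] A B (dd G ε)) ∧ LocI ℝ A B (dd G ε)) ∧
      (GA A B).card + (GD A B).card ≤ Module.finrank (ZMod 2) V + (C1x A B).card +
        (C2x A B).card + 5 := by
  classical
  have hAB : A - B ≠ 0 := sub_ne_zero.2 h
  have hpf : ∀ p, p ∈ (A - B).natAbs.primeFactors ↔ p.Prime ∧ (p : ℤ) ∣ A - B := by
    intro p
    rw [Nat.mem_primeFactors]
    have h1 : (A - B).natAbs ≠ 0 := Int.natAbs_ne_zero.2 hAB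
    constructor
    · rintro ⟨h2, h3, _⟩
      exact ⟨h2, Int.natCast_dvd.2 h3⟩
    · rintro ⟨h2, h3⟩
      exact ⟨h2, Int.natCast_dvd.1 h3, h1⟩
  have hmemD : ∀ p, p ∈ GD A B ↔ (p.Prime ∧ (p : ℤ) ∣ A - B) ∧ 11 ≤ p ∧ Odd (padicValInt p A) := by
    intro p
    unfold GD
    rw [mem_filter, hpf]
  have hmemC : ∀ p, p ∈ C1x A B ↔ (p.Prime ∧ (p : ℤ) ∣ A - B) ∧ 11 ≤ p ∧
      ¬ Odd (padicValInt p A) ∧ jacobiSym A p ≠ -1 := by
    intro p
    unfold C1x
    rw [mem_filter, hpf]
  have hmemE : ∀ p, p ∈ C2x A B ↔ (p.Prime ∧ (p : ℤ) ∣ A - B) ∧ 11 ≤ p ∧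
      Odd (padicValInt p A) ∧ ¬ NR p (A * B) := by
    intro p
    unfold C2x
    rw [mem_filter, hpf]
  have hmemA : ∀ p, p ∈ GA A B → p.Prime ∧ 11 ≤ p ∧ ¬ (p : ℤ) ∣ A - B ∧
      (Odd (padicValInt p A) ∨ Odd (padicValInt p B)) := by
    intro p hp
    unfold GA at hp
    rw [mem_filter] at hp
    exact ⟨Nat.prime_of_mem_primeFactors hp.1, hp.2⟩
  set G : Finset ℕ := GA A B ∪ GD A B with hG
  have hdis : Disjoint (GA A B) (GD A B) := by
    rw [disjoint_left]
    intro p hp hp'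
    exact (hmemA p hp).2.2.1 ((hmemD p).1 hp').1.2
  have hGp : ∀ p ∈ G, p.Prime := by
    intro p hp
    rcases mem_union.1 hp with hp | hp
    · exact (hmemA p hp).1
    · exact ((hmemD p).1 hp).1.1
  have hG11 : ∀ p ∈ G, 11 ≤ p := by
    intro p hp
    rcases mem_union.1 hp with hp | hp
    · exact (hmemA p hp).2.1
    · exact ((hmemD p).1 hp).2.1
  obtain ⟨V, hV1, hV2⟩ := hL A G (C1x A B ∪ {3, 5, 7}) (C2x A B)
    (fun p hp => ⟨hGp p hp, fun h2 => by have := hG11 p hp; omega⟩)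
    (by
      intro p hp
      rcases mem_union.1 hp with hp | hp
      · obtain ⟨⟨h1, h2⟩, h3, h4, _⟩ := (hmemC p).1 hp
        refine ⟨h1, by omega, fun h5 => ?_⟩
        rcases mem_union.1 h5 with h5 | h5
        · exact (hmemA p h5).2.2.1 h2
        · exact h4 ((hmemD p).1 h5).2.2
      · simp only [mem_insert, mem_singleton] at hp
        rcases hp with rfl | rfl | rfl
        · exact ⟨by norm_num, by norm_num, fun h5 => by have := hG11 _ h5; omega⟩
        · exact ⟨by norm_num, by norm_num, fun h5 => by have := hG11 _ h5; omega⟩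
        · exact ⟨by norm_num, by norm_num, fun h5 => by have := hG11 _ h5; omega⟩)
    (fun p hp => by
      obtain ⟨h1, h2, h3, _⟩ := (hmemE p).1 hp
      exact ⟨mem_union_right _ ((hmemD p).2 ⟨h1, h2, h3⟩), h3⟩)
  have hGd : ∀ p ∈ G, (p : ℤ) ∣ A * B := by
    intro p hp
    rcases mem_union.1 hp with hp | hp
    · unfold GA at hp
      exact Int.natCast_dvd.2 (Nat.dvd_of_mem_primeFactors (mem_filter.1 hp).1)
    · have h1 := ((hmemD p).1 hp).2.2
      refine Dvd.dvd.mul_right ?_ _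
      by_contra hn
      rw [padicValInt.eq_zero_of_not_dvd hn] at h1
      exact (by decide : ¬ Odd 0) h1
  refine ⟨G, V, hGp, hGd, fun ε hε => ?_, ?_⟩
  · obtain ⟨k1, k2⟩ := hV2 ε hε
    have hd0 : dd G ε ≠ 0 := dd_ne hGp ε
    obtain ⟨l1, l2⟩ := hLC A B (dd G ε) hA hB h hd0
    refine ⟨fun p hp => ?_, l2 (dd_pos hGp ε)⟩
    have hpp : p.Prime := hp.out
    by_cases hp2 : p = 2
    · exact l1 p (Or.inl (k1 p (Or.inr hp2)))
    by_cases hp11 : 11 ≤ p
    · by_cases hpd : (p : ℤ) ∣ A - B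
      · by_cases ho : Odd (padicValInt p A)
        · by_cases hnr : NR p (A * B)
          · exact hLD p A B _ hp2 hA hB h hd0 ho hnr
          · exact l1 p (k2 p ((hmemE p).2 ⟨⟨hpp, hpd⟩, hp11, ho, hnr⟩))
        · by_cases hj : jacobiSym A p = -1
          · refine hLE p A B _ hp2 hA hB h hd0 (fun hdd => ?_) hj
            rcases mem_union.1 (dvd_dd hGp ε hpp hdd) with h5 | h5
            · exact (hmemA p h5).2.2.1 hpd
            · exact ho ((hmemD p).1 h5).2.2
          · exact l1 p (Or.inl (k1 p (Or.inl (mem_union_left _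
              ((hmemC p).2 ⟨⟨hpp, hpd⟩, hp11, ho, hj⟩)))))
      · by_cases hdd : (p : ℤ) ∣ dd G ε
        · have hpG := dvd_dd hGp ε hpp hdd
          have hpA : p ∈ GA A B := by
            rcases mem_union.1 hpG with h1 | h1
            · exact h1
            · exact absurd ((hmemD p).1 h1).1.2 hpd
          obtain ⟨_, _, _, ho⟩ := hmemA p hpA
          have hodd : ∀ x : ℤ, Odd (padicValInt p x) → (p : ℤ) ∣ x := by
            intro x hx
            by_contra hn
            rw [padicValInt.eq_zero_of_not_dvd hn] at hx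
            exact (by decide : ¬ Odd 0) hx
          rcases ho with ho | ho
          · exact hLB p A B _ hp11 hA hB hd0 (fun hB' => hpd (dvd_sub (hodd A ho) hB')) ho hdd
              (sq_dd hGp ε hpp)
          · exact locI_swap (hLB p B A _ hp11 hB hA hd0
              (fun hA' => hpd (dvd_sub hA' (hodd B ho))) ho hdd (sq_dd hGp ε hpp))
        · exact hLA p A B _ hp11 hA hB hpd hdd
    · have h357 : p = 3 ∨ p = 5 ∨ p = 7 := by
        have h1 : p < 11 := by omega
        have h2 := hpp.two_le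
        interval_cases p
        · exact absurd rfl hp2
        · exact Or.inl rfl
        · exact absurd hpp (by decide)
        · exact Or.inr (Or.inl rfl)
        · exact absurd hpp (by decide)
        · exact Or.inr (Or.inr rfl)
        · exact absurd hpp (by decide)
        · exact absurd hpp (by decide)
        · exact absurd hpp (by decide)
      refine l1 p (Or.inl (k1 p (Or.inl (mem_union_right _ ?_))))
      simp only [mem_insert, mem_singleton]
      exact h357
  · have h1 : G.card = (GA A B).card + (GD A B).card := card_union_of_disjoint hdis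
    have h2 : (C1x A B ∪ {3, 5, 7}).card ≤ (C1x A B).card + 3 :=
      (card_union_le _ _).trans (Nat.add_le_add_left (by decide) _)
    omega

/-- one curve -/
theorem one_curve2 (hs : SHL) (hLA : LOCA) (hLB : LOCB) (hLC : LOCC) (hLD : LOCD) (hLE : LOCE)
    (hL : LIN) (A B c : ℤ) (h : A ≠ B) (hA : A ≠ 0) (hB : B ≠ 0) (hc : c ≠ 0) :
    ∃ k : ℕ, (GA A B).card + (GD A B).card ≤ k + (C1x A B).card + (C2x A B).card +
        rk (EQ (A * c ^ 2) (B * c ^ 2)) + 7 ∧
      ∃ φ : (Fin k → ZMod 2) →+ Sha (WI (A * c ^ 2) (B * c ^ 2)), Function.Injective φ := by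
  obtain ⟨G, V, hG, _, hV, hcard⟩ := loc_all2 hLA hLB hLC hLD hLE hL A B h hA hB
  have hc2 : c ^ 2 ≠ 0 := pow_ne_zero 2 hc
  obtain ⟨k, hk, hφ⟩ := hs (A * c ^ 2) (B * c ^ 2) (fun h' => h (mul_right_cancel₀ hc2 h'))
    (mul_ne_zero hA hc2) (mul_ne_zero hB hc2) G hG V
    (fun ε hε => ⟨fun p _ => locI_scale hc ((hV ε hε).1 p), locI_scale hc (hV ε hε).2⟩)
  exact ⟨k, by omega, hφ⟩

end Pool.Agent.TH841.LS
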