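import Mathlib
import Pool.Agent.TH841.LS.Loc2
import Pool.Agent.TH841.PM.PenZ

/-!
# Project LS, sharp version: almost all the members of a pencil have large Tate-Shafarevich groups
-/

set_option autoImplicit false

namespace Pool.Agent.TH841.LS

open Finset Polynomial

open Pool.Agent.TH841.SH.D

open Pool.Agent.TH841.PT (EQ Irr natAbs_le_of bd_EQ SN_sq)

open Pool.Agent.TH841.TR (UP FP allf allc ne_three fp AV3X Bal pen_all)

open Pool.Agent.TH841.PM (AVZ DZ MZ penZ dz_fin dz_iUnion zeros_fin)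

open Pool.Agent.W307.SE (SN SN_nonneg)

open Pool.Agent.W262.RK (fs)

section

variable {n : Fin 3 → ℕ} {m : ℕ}

lemma card_cls (P : (Σ k : Fin 3, Fin (n k)) ⊕ Fin m → Prop) [DecidablePred P] (k : Fin 3) :
    (univ.filter (fun j => allc n m j = k.castSucc ∧ P j)).card =
      (univ.filter (fun i => P (Sum.inl ⟨k, i⟩))).card := by
  have h1 : (univ.filter (fun j => allc n m j = k.castSucc ∧ P j)) =
      (univ.filter (fun i => P (Sum.inl ⟨k, i⟩))).image
      (fun i : Fin (n k) => (Sum.inl ⟨k, i⟩ : (Σ k : Fin 3, Fin (n k)) ⊕ Fin m)) := by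
    ext j
    simp only [mem_filter, mem_univ, true_and, mem_image]
    constructor
    · rintro ⟨h, hQ⟩
      rcases j with ⟨l, i⟩ | i
      · have h2 : l.castSucc = k.castSucc := h
        have h3 := Fin.castSucc_injective _ h2
        subst h3
        exact ⟨i, hQ, rfl⟩
      · exfalso
        have h3 : ∀ l : Fin 3, (3 : Fin 4) ≠ l.castSucc := by decide
        exact h3 k h
    · rintro ⟨i, hi, rfl⟩
      exact ⟨rfl, hi⟩
  rw [h1, card_image_of_injective]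
  intro i j hij
  have h2 := Sum.inl_injective hij
  simpa using h2

lemma card_cls3 (P : (Σ k : Fin 3, Fin (n k)) ⊕ Fin m → Prop) [DecidablePred P] :
    (univ.filter (fun j => allc n m j = 3 ∧ P j)).card =
      (univ.filter (fun i => P (Sum.inr i))).card := by
  have h1 : (univ.filter (fun j => allc n m j = 3 ∧ P j)) =
      (univ.filter (fun i => P (Sum.inr i))).image
      (fun i : Fin m => (Sum.inr i : (Σ k : Fin 3, Fin (n k)) ⊕ Fin m)) := by
    ext j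
    simp only [mem_filter, mem_univ, true_and, mem_image]
    constructor
    · rintro ⟨h, hQ⟩
      rcases j with ⟨l, i⟩ | i
      · exfalso
        have h2 : l.castSucc = (3 : Fin 4) := h
        have h3 : ∀ l : Fin 3, (3 : Fin 4) ≠ l.castSucc := by decide
        exact h3 l h2.symm
      · exact ⟨i, hQ, rfl⟩
    · rintro ⟨i, hi, rfl⟩
      exact ⟨rfl, hi⟩
  rw [h1, card_image_of_injective _ Sum.inr_injective]

lemma prod_cls {M : Type} [CommMonoid M] (F : (Σ k : Fin 3, Fin (n k)) ⊕ Fin m → M) (k : Fin 3) :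
    ∏ l ∈ univ.filter (fun l => allc n m l = k.castSucc), F l = ∏ i, F (Sum.inl ⟨k, i⟩) := by
  rw [prod_filter, Fintype.prod_sum_type, Fintype.prod_sigma, Finset.prod_eq_single k]
  · have h1 : ∀ i : Fin m, (if allc n m (Sum.inr i) = k.castSucc then F (Sum.inr i) else 1) =
        1 := by
      intro i
      rw [if_neg]
      have h3 : ∀ l : Fin 3, (3 : Fin 4) ≠ l.castSucc := by decide
      exact h3 k
    rw [prod_congr rfl fun i _ => h1 i, prod_const_one, mul_one]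
    refine prod_congr rfl fun i _ => ?_
    rw [if_pos]
    rfl
  · intro l _ hl
    refine prod_eq_one fun i _ => ?_
    rw [if_neg]
    intro h
    exact hl (Fin.castSucc_injective _ h)
  · intro h
    exact absurd (mem_univ k) h

end

lemma sqMod_scale {f v : ℤ[X]} {c : ℤ} (hc : c ≠ 0) : SqMod f (C (c ^ 2) * v) ↔ SqMod f v := by
  have hcq : (c : ℚ) ≠ 0 := by exact_mod_cast hc
  unfold SqMod
  constructor
  · rintro ⟨q, hq⟩
    refine ⟨C ((c : ℚ)⁻¹) * q, ?_⟩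
    have h1 : (C ((c : ℚ)⁻¹) * q) ^ 2 - v.map (Int.castRingHom ℚ) =
        C ((c : ℚ)⁻¹ ^ 2) * (q ^ 2 - (C (c ^ 2) * v).map (Int.castRingHom ℚ)) := by
      have h2 : (C ((c : ℚ)⁻¹ ^ 2) : ℚ[X]) * C ((c : ℚ) ^ 2) = 1 := by
        rw [← C_mul, ← mul_pow, inv_mul_cancel₀ hcq, one_pow, C_1]
      have h3 : (C (c ^ 2) * v).map (Int.castRingHom ℚ) =
          C ((c : ℚ) ^ 2) * v.map (Int.castRingHom ℚ) := by
        rw [Polynomial.map_mul, Polynomial.map_C]
        simp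
      rw [h3, mul_sub, ← mul_assoc, h2, one_mul, mul_pow, ← C_pow]
    rw [h1]
    exact hq.mul_left _
  · rintro ⟨q, hq⟩
    refine ⟨C (c : ℚ) * q, ?_⟩
    have h1 : (C (c : ℚ) * q) ^ 2 - (C (c ^ 2) * v).map (Int.castRingHom ℚ) =
        C ((c : ℚ) ^ 2) * (q ^ 2 - v.map (Int.castRingHom ℚ)) := by
      rw [Polynomial.map_mul, Polynomial.map_C, mul_sub, mul_pow, ← C_pow]
      simp
    rw [h1]
    exact hq.mul_left _

section

variable {n : Fin 3 → ℕ} {m : ℕ}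

/-- `c ∏ g_i` -/
noncomputable def DG (c : ℤ) (g : Fin m → ℤ[X]) : ℤ[X] := C c * ∏ i, g i

lemma FP_eq (c : ℤ) (a : Fin 3 → ℤ) (g : Fin m → ℤ[X]) (f : ∀ k : Fin 3, Fin (n k) → ℤ[X])
    (k : Fin 3) : FP (fun k => c * a k) g f k = DG c g * UP a f k := by
  unfold FP UP DG
  rw [C_mul]
  ring

open Classical in
/-- the sharp constant -/
noncomputable def sc (a : Fin 3 → ℤ) (f : ∀ k : Fin 3, Fin (n k) → ℤ[X]) (c : ℤ)
    (g : Fin m → ℤ[X]) : ℝ :=
  (n 0 : ℝ) + n 1 -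
    ((n 2 : ℝ) + (univ.filter (fun i => SqMod (f 2 i) (DG c g * UP a f 0))).card) / 2 +
    ((univ.filter (fun i => ¬ SqMod (g i) (UP a f 0 * UP a f 1))).card : ℝ) / 2

lemma cst_eq {c : ℤ} (hc : c ≠ 0) (a : Fin 3 → ℤ) (f : ∀ k : Fin 3, Fin (n k) → ℤ[X])
    (g : Fin m → ℤ[X]) :
    cst (allc n m) (fun k => c * a k) (allf g f) = sc a f c g := by
  classical
  have q0 : (univ.filter (fun j => allc n m j = 0)).card = n 0 :=
    Pool.Agent.TH841.TR.card_allc' (n := n) (m := m) 0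
  have q1 : (univ.filter (fun j => allc n m j = 1)).card = n 1 :=
    Pool.Agent.TH841.TR.card_allc' (n := n) (m := m) 1
  have q2 : (univ.filter (fun j => allc n m j = 2)).card = n 2 :=
    Pool.Agent.TH841.TR.card_allc' (n := n) (m := m) 2
  have e0 : C (c * a 0) * ∏ l ∈ fs (allc n m) 0, allf g f l = DG c g * UP a f 0 := by
    rw [← FP_eq, Pool.Agent.TH841.TR.prod_allc]
    unfold FP
    rw [mul_assoc]
    rfl
  have p0 : ∏ l ∈ univ.filter (fun l => allc n m l = 0), allf g f l = ∏ i, f 0 i :=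
    prod_cls (allf g f) 0
  have p1 : ∏ l ∈ univ.filter (fun l => allc n m l = 1), allf g f l = ∏ i, f 1 i :=
    prod_cls (allf g f) 1
  have e1 : C (c * a 0 * (c * a 1)) * ((∏ l ∈ univ.filter (fun l => allc n m l = 0),
      allf g f l) * ∏ l ∈ univ.filter (fun l => allc n m l = 1), allf g f l) =
      C (c ^ 2) * (UP a f 0 * UP a f 1) := by
    rw [p0, p1]
    unfold UP
    have : c * a 0 * (c * a 1) = c ^ 2 * (a 0 * a 1) := by ring
    rw [this, C_mul, C_mul]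
    ring
  unfold cst sc
  rw [q0, q1, q2]
  simp only [e0, e1, sqMod_scale hc]
  have r2 : (univ.filter (fun j => allc n m j = 2 ∧
      SqMod (allf g f j) (DG c g * UP a f 0))).card =
      (univ.filter (fun i => SqMod (f 2 i) (DG c g * UP a f 0))).card :=
    card_cls (n := n) (m := m) (fun j => SqMod (allf g f j) (DG c g * UP a f 0)) 2
  have r3 : (univ.filter (fun j => allc n m j = 3 ∧
      ¬ SqMod (allf g f j) (UP a f 0 * UP a f 1))).card =
      (univ.filter (fun i => ¬ SqMod (g i) (UP a f 0 * UP a f 1))).card :=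
    card_cls3 (n := n) (m := m) (fun j => ¬ SqMod (allf g f j) (UP a f 0 * UP a f 1))
  rw [r2, r3]

/-- the averages, in both cases -/
theorem rank_in (h : AVZ) (h' : AV3X) (a : Fin 3 → ℤ) (f : ∀ k : Fin 3, Fin (n k) → ℤ[X])
    (ha : ∀ k, a k ≠ 0) (hf : Irr (fp f)) (hU : UP a f 0 - UP a f 1 = UP a f 2)
    (D : ℤ[X]) (hD : D ≠ 0) (hDf : ∀ k i, ¬ f k i ∣ D)
    (hn : (∀ k, 2 * n k < n 0 + n 1 + n 2) ∨ Bal D a f) (L : ℕ) :
    ∃ Z : Set ℤ, DZ Z ∧ (∀ t, t ∉ Z → ∀ k, (D * UP a f k).eval t ≠ 0) ∧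
      ∃ C0 : ℝ, 0 ≤ C0 ∧ ∀ (N : ℤ) (M : ℕ), 1 ≤ M → |N| ≤ (M : ℤ) ^ L →
        ∀ P : Finset ℤ, (∀ t ∈ P, t ∈ Ioc N (N + (M : ℤ)) ∧ t ∉ Z) →
        ∑ t ∈ P, SN ((D * UP a f 0).eval t) ((D * UP a f 1).eval t) ≤ C0 * M := by
  classical
  rcases hn with hn | hn
  · obtain ⟨Z, hZ1, hZ2, hZ3⟩ := penZ h a f ha hf hU D hD hDf hn
    obtain ⟨C0, hC0, hC⟩ := hZ3 1 L
    refine ⟨Z, hZ1, hZ2, C0, hC0, fun N M hM hN P hP => ?_⟩
    refine le_trans ?_ (hC N M hM hN)
    refine (sum_le_sum_of_subset_of_nonneg (t := (Ioc N (N + (M : ℤ))).filter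
        (fun t => t ∉ Z)) (fun t ht => ?_) fun t _ _ => SN_nonneg _ _).trans (le_of_eq ?_)
    · exact mem_filter.2 (hP t ht)
    · exact sum_congr rfl fun t _ => (pow_one _).symm
  · obtain ⟨C0, hC0, hC⟩ := pen_all h' a f ha hf hU D hD hDf hn L
    have hne : ∀ k, D * UP a f k ≠ 0 := fun k => mul_ne_zero hD (by
      unfold UP
      exact mul_ne_zero (C_ne_zero.2 (ha k))
        (prod_ne_zero_iff.2 fun i _ => (hf.irr ⟨k, i⟩).ne_zero))
    refine ⟨⋃ k ∈ (univ : Finset (Fin 3)), {t : ℤ | (D * UP a f k).eval t = 0},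
      dz_iUnion _ _ fun k _ => dz_fin (zeros_fin _ (hne k)), ?_, C0, hC0,
      fun N M hM hN P hP => ?_⟩
    · intro t ht k h0
      refine ht ?_
      simp only [Set.mem_iUnion]
      exact ⟨k, mem_univ _, h0⟩
    · refine le_trans ?_ (hC N M hM hN)
      refine sum_le_sum_of_subset_of_nonneg (fun t ht => ?_) fun t _ _ => SN_nonneg _ _
      obtain ⟨h1, h2⟩ := hP t ht
      refine mem_filter.2 ⟨h1, fun k h0 => h2 ?_⟩
      simp only [Set.mem_iUnion]
      exact ⟨k, mem_univ _, h0⟩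

/-- a lower bound for the value at which the iterated logarithm is large -/
lemma big_loglog (δ K : ℝ) (hδ : 0 < δ) : ∃ M3 : ℕ, ∀ M : ℕ, M3 ≤ M →
    K ≤ δ * Real.log (Real.log M) := by
  have h1 : Filter.Tendsto (fun M : ℕ => δ * Real.log (Real.log M)) Filter.atTop
      Filter.atTop :=
    (Real.tendsto_log_atTop.comp (Real.tendsto_log_atTop.comp
      tendsto_natCast_atTop_atTop)).const_mul_atTop hδ
  exact Filter.eventually_atTop.1 (h1.eventually_ge_atTop K)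

open Classical in
/-- the rank from the number `SN`, for a rescaled curve -/
lemma rk_le_of {A B w : ℤ} (hA : A ≠ 0) (hB : B ≠ 0) (hAB : A ≠ B) (hw : w ≠ 0) {R : ℕ}
    (h : SN A B < 2 ^ (R + 1)) : rk (EQ (A * w ^ 2) (B * w ^ 2)) ≤ R := by
  have hw2 : w ^ 2 ≠ 0 := pow_ne_zero 2 hw
  obtain ⟨b1, b2⟩ := bd_EQ (mul_ne_zero hA hw2) (mul_ne_zero hB hw2)
    (fun h' => hAB (mul_right_cancel₀ hw2 h'))
  rw [SN_sq hw] at b2
  by_contra hcon
  have b3 : 1 ≤ Nat.card {x : Pool.Agent.W262.SH.Sha (EQ (A * w ^ 2) (B * w ^ 2)) // x + x = 0} :=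
    Nat.card_pos_iff.2 ⟨⟨⟨0, add_zero 0⟩⟩, b1⟩
  have b4 : (1 : ℝ) ≤ Nat.card {x : Pool.Agent.W262.SH.Sha
      (EQ (A * w ^ 2) (B * w ^ 2)) // x + x = 0} := by exact_mod_cast b3
  have b5 : (2 : ℝ) ^ (R + 1) ≤ 2 ^ rk (EQ (A * w ^ 2) (B * w ^ 2)) :=
    pow_le_pow_right₀ (by norm_num) (by omega)
  have b6 : (2 : ℝ) ^ rk (EQ (A * w ^ 2) (B * w ^ 2)) ≤ SN A B := by
    refine le_trans ?_ b2
    exact le_mul_of_one_le_right (by positivity) b4
  linarith

open Classical in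
/-- **large Tate-Shafarevich groups for almost all the members of a pencil, sharp constant** -/
theorem large3 (hs : SHL) (hLA : LOCA) (hLB : LOCB) (hLC : LOCC) (hLD : LOCD) (hLE : LOCE)
    (hL : LIN) (hcnt : CNTX) (h : AVZ) (h' : AV3X) (a : Fin 3 → ℤ)
    (f : ∀ k : Fin 3, Fin (n k) → ℤ[X]) (c : ℤ) (g : Fin m → ℤ[X]) (w : ℤ[X])
    (ha : ∀ k, a k ≠ 0) (hc : c ≠ 0) (hw : w ≠ 0) (hf : Irr (allf g f))
    (hU : UP a f 0 - UP a f 1 = UP a f 2)
    (hn : (∀ k, 2 * n k < n 0 + n 1 + n 2) ∨ Bal (DG c g) a f) (δ ε : ℝ) (L : ℕ)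
    (hδ : 0 < δ) (hε : 0 < ε) :
    ∃ M0 : ℕ, ∀ (N : ℤ) (M : ℕ), M0 ≤ M → |N| ≤ (M : ℤ) ^ L →
      (((Ioc N (N + (M : ℤ))).filter (fun t => ¬ ((∀ k, (DG c g * w ^ 2 * UP a f k).eval t ≠ 0) ∧
        ∃ k : ℕ, (sc a f c g - δ) * Real.log (Real.log M) ≤ k ∧
        ∃ φ : (Fin k → ZMod 2) →+ Sha (WI ((DG c g * w ^ 2 * UP a f 0).eval t)
          ((DG c g * w ^ 2 * UP a f 1).eval t)), Function.Injective φ))).card : ℝ) ≤ ε * M := by
  have ha' : ∀ k, (fun k => c * a k) k ≠ 0 := fun k => mul_ne_zero hc (ha k)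
  have hf0 : Irr (fp f) := by
    refine ⟨fun x => hf.irr (Sum.inl x), fun x => hf.deg (Sum.inl x), fun x y hxy => ?_⟩
    exact hf.assoc (Sum.inl x) (Sum.inl y) (fun h => hxy (Sum.inl_injective h))
  have hD : DG c g ≠ 0 := by
    unfold DG
    exact mul_ne_zero (C_ne_zero.2 hc)
      (prod_ne_zero_iff.2 fun i _ => (hf.irr (Sum.inr i)).ne_zero)
  have hDf : ∀ k i, ¬ f k i ∣ DG c g := by
    intro k i hdvd
    have hirr : Irreducible (f k i) := hf.irr (Sum.inl ⟨k, i⟩)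
    have hp : Prime (f k i) := hirr.prime
    unfold DG at hdvd
    rcases hp.dvd_or_dvd hdvd with h1 | h1
    · have h2 := natDegree_le_of_dvd h1 (C_ne_zero.2 hc)
      rw [natDegree_C] at h2
      have h3 : 0 < (f k i).natDegree := hf.deg (Sum.inl ⟨k, i⟩)
      omega
    · obtain ⟨l, _, hl⟩ := (Prime.dvd_finsetProd_iff hp _).1 h1
      have h2 : Associated (f k i) (g l) :=
        hirr.associated_of_dvd (hf.irr (Sum.inr l)) hl
      exact hf.assoc (Sum.inl ⟨k, i⟩) (Sum.inr l) (by simp) h2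
  obtain ⟨Z, hZ1, hZ2, C0, hC0, hC⟩ := rank_in h h' a f ha hf0 hU (DG c g) hD hDf hn L
  have hP : ∀ k, C ((fun k => c * a k) k) * ∏ l ∈ fs (allc n m) k, allf g f l =
      FP (fun k => c * a k) g f k := by
    intro k
    rw [Pool.Agent.TH841.TR.prod_allc]
    unfold FP
    rw [mul_assoc]
    rfl
  have hV : ∀ k t, PT.Fval (allc n m) (fun k => c * a k) (fun l => (allf g f l).eval t) k =
      (DG c g * UP a f k).eval t := by
    intro k t
    rw [← FP_eq, ← hP k, eval_mul, eval_C, eval_prod]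
    rfl
  have hF' : FP (fun k => c * a k) g f 0 - FP (fun k => c * a k) g f 1 =
      FP (fun k => c * a k) g f 2 := by
    rw [FP_eq, FP_eq, FP_eq, ← mul_sub, hU]
  have hcnt' := hcnt ((Σ k : Fin 3, Fin (n k)) ⊕ Fin m) (allc n m) (fun k => c * a k) (allf g f)
    ha' hf (by rw [hP, hP, hP]; exact hF') (δ / 2) (ε / 4) L (by positivity) (by positivity)
  simp only [hV, cst_eq hc] at hcnt'
  obtain ⟨M1, hM1⟩ := hcnt'
  obtain ⟨M2, hM2⟩ := hZ1 L (ε / 4) (by positivity)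
  obtain ⟨M4, hM4⟩ := dz_fin (zeros_fin w hw) L (ε / 4) (by positivity)
  -- the ranks
  obtain ⟨R, hR⟩ : ∃ R : ℕ, 4 * C0 / ε ≤ 2 ^ (R + 1) := by
    obtain ⟨R, hR⟩ := pow_unbounded_of_one_lt (4 * C0 / ε) (one_lt_two : (1 : ℝ) < 2)
    exact ⟨R, hR.le.trans (pow_le_pow_right₀ (by norm_num) (by omega))⟩
  -- large `M`
  obtain ⟨M3, hM3⟩ := big_loglog (δ / 2) ((R : ℝ) + 7) (by positivity)
  refine ⟨M1 + M2 + M3 + M4 + 1, fun N M hM hN => ?_⟩
  have h1 := hM1 N M (by omega) hN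
  have h2 := hM2 N M (by omega) hN
  have h3 := hC N M (by omega) hN
  have h4 := hM3 M (by omega)
  have h4' := hM4 N M (by omega) hN
  set Q : ℤ → ℝ := fun t => SN ((DG c g * UP a f 0).eval t) ((DG c g * UP a f 1).eval t) with hQ
  -- the arguments with large rank
  have h5 : (((Ioc N (N + (M : ℤ))).filter (fun t => t ∉ Z ∧ 2 ^ (R + 1) ≤ Q t)).card : ℝ) ≤
      ε / 4 * M := by
    have h6 : ∀ t ∈ (Ioc N (N + (M : ℤ))).filter (fun t => t ∉ Z ∧ 2 ^ (R + 1) ≤ Q t),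
        (2 : ℝ) ^ (R + 1) ≤ Q t := fun t ht => (mem_filter.1 ht).2.2
    have h7 : ((((Ioc N (N + (M : ℤ))).filter (fun t => t ∉ Z ∧
        2 ^ (R + 1) ≤ Q t)).card : ℝ)) * 2 ^ (R + 1) ≤ C0 * M := by
      rw [← nsmul_eq_mul]
      refine (card_nsmul_le_sum _ _ _ h6).trans (h3 _ fun t ht => ?_)
      obtain ⟨ht1, ht2, _⟩ := mem_filter.1 ht
      exact ⟨ht1, ht2⟩
    have h8 : (0 : ℝ) < 2 ^ (R + 1) := by positivity
    rw [div_le_iff₀ hε] at hR
    have h9 : C0 * M ≤ (ε / 4 * M) * 2 ^ (R + 1) := by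
      have h10 : (0 : ℝ) ≤ M := Nat.cast_nonneg _
      nlinarith
    exact le_of_mul_le_mul_right (h7.trans h9) h8
  -- the members outside of the exceptional sets
  have h10 : (Ioc N (N + (M : ℤ))).filter (fun t => ¬ ((∀ k,
        (DG c g * w ^ 2 * UP a f k).eval t ≠ 0) ∧
        ∃ k : ℕ, (sc a f c g - δ) * Real.log (Real.log M) ≤ k ∧
        ∃ φ : (Fin k → ZMod 2) →+ Sha (WI ((DG c g * w ^ 2 * UP a f 0).eval t)
          ((DG c g * w ^ 2 * UP a f 1).eval t)), Function.Injective φ)) ⊆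
      ((Ioc N (N + (M : ℤ))).filter (fun t => ¬ ((∀ j, (allf g f j).eval t ≠ 0) ∧
      (sc a f c g - δ / 2) * Real.log (Real.log M) +
      ((C1x ((DG c g * UP a f 0).eval t) ((DG c g * UP a f 1).eval t)).card : ℝ) +
      ((C2x ((DG c g * UP a f 0).eval t) ((DG c g * UP a f 1).eval t)).card : ℝ) ≤
      ((GA ((DG c g * UP a f 0).eval t) ((DG c g * UP a f 1).eval t)).card : ℝ) +
      ((GD ((DG c g * UP a f 0).eval t) ((DG c g * UP a f 1).eval t)).card : ℝ))) ∪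
      (Ioc N (N + (M : ℤ))).filter (fun t => t ∈ Z)) ∪
      ((Ioc N (N + (M : ℤ))).filter (fun t => t ∈ {t : ℤ | w.eval t = 0}) ∪
      (Ioc N (N + (M : ℤ))).filter (fun t => t ∉ Z ∧ 2 ^ (R + 1) ≤ Q t)) := by
    intro t ht
    obtain ⟨ht1, ht2⟩ := mem_filter.1 ht
    by_contra hcon
    rw [mem_union, mem_union, mem_union, not_or, not_or, not_or] at hcon
    obtain ⟨⟨n1, n2⟩, n4, n3⟩ := hcon
    have n2' : t ∉ Z := fun h' => n2 (mem_filter.2 ⟨ht1, h'⟩)
    have n4' : w.eval t ≠ 0 := fun h' => n4 (mem_filter.2 ⟨ht1, h'⟩)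
    have n3' : Q t < 2 ^ (R + 1) := by
      by_contra h'
      exact n3 (mem_filter.2 ⟨ht1, n2', not_lt.1 h'⟩)
    have n1' : (∀ j, (allf g f j).eval t ≠ 0) ∧
      (sc a f c g - δ / 2) * Real.log (Real.log M) +
      ((C1x ((DG c g * UP a f 0).eval t) ((DG c g * UP a f 1).eval t)).card : ℝ) +
      ((C2x ((DG c g * UP a f 0).eval t) ((DG c g * UP a f 1).eval t)).card : ℝ) ≤
      ((GA ((DG c g * UP a f 0).eval t) ((DG c g * UP a f 1).eval t)).card : ℝ) +
      ((GD ((DG c g * UP a f 0).eval t) ((DG c g * UP a f 1).eval t)).card : ℝ) := by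
      by_contra h'
      exact n1 (mem_filter.2 ⟨ht1, h'⟩)
    obtain ⟨_, n5⟩ := n1'
    apply ht2
    have e0 : ∀ k, (DG c g * w ^ 2 * UP a f k).eval t =
        (DG c g * UP a f k).eval t * (w.eval t) ^ 2 := fun k => by
      rw [eval_mul, eval_mul, eval_mul, eval_pow]
      ring
    have e1 : ∀ k, (DG c g * UP a f k).eval t ≠ 0 := fun k => hZ2 t n2' k
    have e2 : (DG c g * UP a f 0).eval t ≠ (DG c g * UP a f 1).eval t := by
      intro h'
      apply e1 2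
      rw [← hU, mul_sub, eval_sub, h', sub_self]
    refine ⟨fun k => ?_, ?_⟩
    · rw [e0]
      exact mul_ne_zero (e1 k) (pow_ne_zero 2 n4')
    obtain ⟨k, hk, hφ⟩ := one_curve2 hs hLA hLB hLC hLD hLE hL ((DG c g * UP a f 0).eval t)
      ((DG c g * UP a f 1).eval t) (w.eval t) e2 (e1 0) (e1 1) n4'
    have hrk := rk_le_of (e1 0) (e1 1) e2 n4' n3'
    rw [← e0, ← e0] at hφ
    refine ⟨k, ?_, hφ⟩
    have hk' : ((GA ((DG c g * UP a f 0).eval t) ((DG c g * UP a f 1).eval t)).card : ℝ) +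
        ((GD ((DG c g * UP a f 0).eval t) ((DG c g * UP a f 1).eval t)).card : ℝ) ≤
        k + ((C1x ((DG c g * UP a f 0).eval t) ((DG c g * UP a f 1).eval t)).card : ℝ) +
        ((C2x ((DG c g * UP a f 0).eval t) ((DG c g * UP a f 1).eval t)).card : ℝ) + R + 7 := by
      have : (GA ((DG c g * UP a f 0).eval t) ((DG c g * UP a f 1).eval t)).card +
        (GD ((DG c g * UP a f 0).eval t) ((DG c g * UP a f 1).eval t)).card ≤
        k + (C1x ((DG c g * UP a f 0).eval t) ((DG c g * UP a f 1).eval t)).card +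
        (C2x ((DG c g * UP a f 0).eval t) ((DG c g * UP a f 1).eval t)).card + R + 7 := by omega
      exact_mod_cast this
    linarith
  have h11 := (card_le_card h10).trans ((card_union_le _ _).trans
    (Nat.add_le_add (card_union_le _ _) (card_union_le _ _)))
  have h14 : ((((Ioc N (N + (M : ℤ))).filter (fun t => ¬ ((∀ k,
        (DG c g * w ^ 2 * UP a f k).eval t ≠ 0) ∧
        ∃ k : ℕ, (sc a f c g - δ) * Real.log (Real.log M) ≤ k ∧
        ∃ φ : (Fin k → ZMod 2) →+ Sha (WI ((DG c g * w ^ 2 * UP a f 0).eval t)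
          ((DG c g * w ^ 2 * UP a f 1).eval t)), Function.Injective φ))).card : ℝ)) ≤
      ((((Ioc N (N + (M : ℤ))).filter (fun t => ¬ ((∀ j, (allf g f j).eval t ≠ 0) ∧
      (sc a f c g - δ / 2) * Real.log (Real.log M) +
      ((C1x ((DG c g * UP a f 0).eval t) ((DG c g * UP a f 1).eval t)).card : ℝ) +
      ((C2x ((DG c g * UP a f 0).eval t) ((DG c g * UP a f 1).eval t)).card : ℝ) ≤
      ((GA ((DG c g * UP a f 0).eval t) ((DG c g * UP a f 1).eval t)).card : ℝ) +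
      ((GD ((DG c g * UP a f 0).eval t) ((DG c g * UP a f 1).eval t)).card : ℝ)))).card : ℝ) +
      (((Ioc N (N + (M : ℤ))).filter (fun t => t ∈ Z)).card : ℝ)) +
      ((((Ioc N (N + (M : ℤ))).filter (fun t => t ∈ {t : ℤ | w.eval t = 0})).card : ℝ) +
      (((Ioc N (N + (M : ℤ))).filter (fun t => t ∉ Z ∧ 2 ^ (R + 1) ≤ Q t)).card : ℝ)) := by
    exact_mod_cast h11
  have h15 : (((Ioc N (N + (M : ℤ))).filter (fun t => t ∈ Z)).card : ℝ) ≤ ε / 4 * M := by
    convert h2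
  have h16 : (((Ioc N (N + (M : ℤ))).filter (fun t => t ∈ {t : ℤ | w.eval t = 0})).card : ℝ) ≤
      ε / 4 * M := by
    convert h4'
  linarith

end

end Pool.Agent.TH841.LS
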