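import Mathlib
import Pool.Agent.TH841.LS.Main3
import Pool.Agent.TH841.LS.Coc
import Pool.Agent.TH841.LS.Lot
import Pool.Agent.TH841.LS.Cob
import Pool.Agent.TH841.LS.Ker
import Pool.Agent.TH841.LS.Lin
import Pool.Agent.TH841.LS.Loca
import Pool.Agent.TH841.LS.Locb
import Pool.Agent.TH841.LS.Locd
import Pool.Agent.TH841.PM.Fin2
import Pool.Agent.TH841.TR.Fin2

/-!
# Project LS: the inputs
-/

set_option autoImplicit false

namespace Pool.Agent.TH841.LS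

open Finset Polynomial

open Pool.Agent.TH841.SH.D

open Pool.Agent.TH841.PT (EQ Irr)

open Pool.Agent.TH841.TR (UP allf Bal)

theorem tshl : SHL := shl_of COCf.coc_all LOTf.lot COBf.cob_pt KERf.ker

open Classical in
/-- the sharp version, from the count -/
theorem large3' (hcnt : CNTX) {n : Fin 3 → ℕ} {m : ℕ} (a : Fin 3 → ℤ)
    (f : ∀ k : Fin 3, Fin (n k) → ℤ[X]) (c : ℤ) (g : Fin m → ℤ[X]) (w : ℤ[X])
    (ha : ∀ k, a k ≠ 0) (hc : c ≠ 0) (hw : w ≠ 0) (hf : Irr (allf g f))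
    (hU : UP a f 0 - UP a f 1 = UP a f 2)
    (hn : (∀ k, 2 * n k < n 0 + n 1 + n 2) ∨ Bal (DG c g) a f) (δ ε : ℝ) (L : ℕ)
    (hδ : 0 < δ) (hε : 0 < ε) :
    ∃ M0 : ℕ, ∀ (N : ℤ) (M : ℕ), M0 ≤ M → |N| ≤ (M : ℤ) ^ L →
      (((Ioc N (N + (M : ℤ))).filter (fun t => ¬ ((∀ k, (DG c g * w ^ 2 * UP a f k).eval t ≠ 0) ∧
        ∃ k : ℕ, (sc a f c g - δ) * Real.log (Real.log M) ≤ k ∧
        ∃ φ : (Fin k → ZMod 2) →+ Sha (WI ((DG c g * w ^ 2 * UP a f 0).eval t)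
          ((DG c g * w ^ 2 * UP a f 1).eval t)), Function.Injective φ))).card : ℝ) ≤ ε * M :=
  large3 tshl LOCAf.loca LOCBf.locb LOCBf.locc LOCDf.locd LOCDf.loce LINf.lin hcnt
    Pool.Agent.TH841.PM.tavz Pool.Agent.TH841.TR.tav3x a f c g w ha hc hw hf hU hn δ ε L hδ hε

end Pool.Agent.TH841.LS
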