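import Mathlib
import Pool.Agent.TH841.LS.Fin

/-!
# Project LS, final versions: `E_t` has a bounded rank and a bounded `Ш[2]`, `W_t` has a large `Ш`
-/

set_option autoImplicit false

namespace Pool.Agent.TH841.LS

open Finset Polynomial

open Pool.Agent.TH841.SH.D

open Pool.Agent.TH841.PT (EQ Irr natAbs_le_of bd_EQ SN_sq)

open Pool.Agent.TH841.TR (UP FP allf allc ne_three fp AV3X Bal pen_all)

open Pool.Agent.TH841.PM (AVZ DZ MZ penZ dz_fin dz_iUnion zeros_fin conclK)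

open Pool.Agent.W307.SE (SN SN_nonneg)

open Pool.Agent.W262.RK (fs)

open Classical in
/-- one curve -/
theorem one_curve3 (A B w : ℤ) (h : A ≠ B) (hA : A ≠ 0) (hB : B ≠ 0) (hw : w ≠ 0) {R : ℕ}
    (hR : SN A B < 2 ^ (R + 1)) :
    (∀ j : ℕ, Finite (ShaTor (EQ (A * w ^ 2) (B * w ^ 2)) (2 ^ j))) ∧
    (∀ j : ℕ, 1 ≤ j → (2 : ℝ) ^ rk (EQ (A * w ^ 2) (B * w ^ 2)) *
        (Nat.card (ShaTor (EQ (A * w ^ 2) (B * w ^ 2)) (2 ^ j)) : ℝ) ^ ((1 : ℝ) / j) ≤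
          2 ^ (R + 1)) ∧
    ∃ k : ℕ, (GA A B).card + (GD A B).card ≤ k + (C1x A B).card + (C2x A B).card + R + 7 ∧
      ∃ φ : (Fin k → ZMod 2) →+ Sha (WI (A * w ^ 2) (B * w ^ 2)), Function.Injective φ := by
  have hw2 : w ^ 2 ≠ 0 := pow_ne_zero 2 hw
  have hA' : A * w ^ 2 ≠ 0 := mul_ne_zero hA hw2
  have hB' : B * w ^ 2 ≠ 0 := mul_ne_zero hB hw2
  have h' : A * w ^ 2 ≠ B * w ^ 2 := fun h' => h (mul_right_cancel₀ hw2 h')
  obtain ⟨k1, k2, _⟩ := conclK {(0 : ℤ)} (fun _ => A * w ^ 2) (fun _ => B * w ^ 2) 1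
    (SN (A * w ^ 2) (B * w ^ 2)) (fun _ _ => ⟨hA', hB', h'⟩) (by simp)
  refine ⟨fun j => k1 0 (mem_singleton_self _) j, fun j hj => ?_, ?_⟩
  · have k3 := k2 j hj
    rw [sum_singleton, pow_one, SN_sq hw] at k3
    exact k3.trans hR.le
  · obtain ⟨k, hk, hφ⟩ := one_curve2 tshl LOCAf.loca LOCBf.locb LOCBf.locc LOCDf.locd LOCDf.loce
      LINf.lin A B w h hA hB hw
    have hrk := rk_le_of hA hB h hw hR
    exact ⟨k, by omega, hφ⟩

section

variable {n : Fin 3 → ℕ} {m : ℕ}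

open Classical in
/-- **large Tate-Shafarevich groups for almost all the members of a pencil, sharp constant** -/
theorem large5 (hcnt : CNTX) (h : AVZ) (h' : AV3X) (a : Fin 3 → ℤ)
    (f : ∀ k : Fin 3, Fin (n k) → ℤ[X]) (c : ℤ) (g : Fin m → ℤ[X]) (w : ℤ[X])
    (ha : ∀ k, a k ≠ 0) (hc : c ≠ 0) (hw : w ≠ 0) (hf : Irr (allf g f))
    (hU : UP a f 0 - UP a f 1 = UP a f 2)
    (hn : (∀ k, 2 * n k < n 0 + n 1 + n 2) ∨ Bal (DG c g) a f) (δ ε : ℝ) (L : ℕ)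
    (hδ : 0 < δ) (hε : 0 < ε) :
    ∃ R M0 : ℕ, ∀ (N : ℤ) (M : ℕ), M0 ≤ M → |N| ≤ (M : ℤ) ^ L →
      (((Ioc N (N + (M : ℤ))).filter (fun t => ¬ ∀ A B : ℤ, A = (DG c g * w ^ 2 * UP a f 0).eval t →
        B = (DG c g * w ^ 2 * UP a f 1).eval t → A ≠ 0 ∧ B ≠ 0 ∧ A ≠ B ∧
        (∀ j : ℕ, Finite (ShaTor (EQ A B) (2 ^ j))) ∧
        (∀ j : ℕ, 1 ≤ j → (2 : ℝ) ^ rk (EQ A B) *
          (Nat.card (ShaTor (EQ A B) (2 ^ j)) : ℝ) ^ ((1 : ℝ) / j) ≤ 2 ^ (R + 1)) ∧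
        ∃ k : ℕ, (sc a f c g - δ) * Real.log (Real.log M) ≤ k ∧
        ∃ φ : (Fin k → ZMod 2) →+ Sha (WI A B), Function.Injective φ)).card : ℝ) ≤ ε * M := by
  have ha' : ∀ k, (fun k => c * a k) k ≠ 0 := fun k => mul_ne_zero hc (ha k)
  have hf0 : Irr (fp f) := by
    refine ⟨fun x => hf.irr (Sum.inl x), fun x => hf.deg (Sum.inl x), fun x y hxy => ?_⟩
    exact hf.assoc (Sum.inl x) (Sum.inl y) (fun h => hxy (Sum.inl_injective h))
  have hD : DG c g ≠ 0 := by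
    unfold DG
    exact mul_ne_zero (C_ne_zero.2 hc)
      (prod_ne_zero_iff.2 fun i _ => (hf.irr (Sum.inr i)).ne_zero)
  have hDf : ∀ k i, ¬ f k i ∣ DG c g := by
    intro k i hdvd
    have hirr : Irreducible (f k i) := hf.irr (Sum.inl ⟨k, i⟩)
    have hp : Prime (f k i) := hirr.prime
    unfold DG at hdvd
    rcases hp.dvd_or_dvd hdvd with h1 | h1
    · have h2 := natDegree_le_of_dvd h1 (C_ne_zero.2 hc)
      rw [natDegree_C] at h2
      have h3 : 0 < (f k i).natDegree := hf.deg (Sum.inl ⟨k, i⟩)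
      omega
    · obtain ⟨l, _, hl⟩ := (Prime.dvd_finsetProd_iff hp _).1 h1
      have h2 : Associated (f k i) (g l) :=
        hirr.associated_of_dvd (hf.irr (Sum.inr l)) hl
      exact hf.assoc (Sum.inl ⟨k, i⟩) (Sum.inr l) (by simp) h2
  obtain ⟨Z, hZ1, hZ2, C0, hC0, hC⟩ := rank_in h h' a f ha hf0 hU (DG c g) hD hDf hn L
  have hP : ∀ k, C ((fun k => c * a k) k) * ∏ l ∈ fs (allc n m) k, allf g f l =
      FP (fun k => c * a k) g f k := by
    intro k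
    rw [Pool.Agent.TH841.TR.prod_allc]
    unfold FP
    rw [mul_assoc]
    rfl
  have hV : ∀ k t, PT.Fval (allc n m) (fun k => c * a k) (fun l => (allf g f l).eval t) k =
      (DG c g * UP a f k).eval t := by
    intro k t
    rw [← FP_eq, ← hP k, eval_mul, eval_C, eval_prod]
    rfl
  have hF' : FP (fun k => c * a k) g f 0 - FP (fun k => c * a k) g f 1 =
      FP (fun k => c * a k) g f 2 := by
    rw [FP_eq, FP_eq, FP_eq, ← mul_sub, hU]
  have hcnt' := hcnt ((Σ k : Fin 3, Fin (n k)) ⊕ Fin m) (allc n m) (fun k => c * a k) (allf g f)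
    ha' hf (by rw [hP, hP, hP]; exact hF') (δ / 2) (ε / 4) L (by positivity) (by positivity)
  simp only [hV, cst_eq hc] at hcnt'
  obtain ⟨M1, hM1⟩ := hcnt'
  obtain ⟨M2, hM2⟩ := hZ1 L (ε / 4) (by positivity)
  obtain ⟨M4, hM4⟩ := dz_fin (zeros_fin w hw) L (ε / 4) (by positivity)
  -- the ranks
  obtain ⟨R, hR⟩ : ∃ R : ℕ, 4 * C0 / ε ≤ 2 ^ (R + 1) := by
    obtain ⟨R, hR⟩ := pow_unbounded_of_one_lt (4 * C0 / ε) (one_lt_two : (1 : ℝ) < 2)
    exact ⟨R, hR.le.trans (pow_le_pow_right₀ (by norm_num) (by omega))⟩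
  -- large `M`
  obtain ⟨M3, hM3⟩ := big_loglog (δ / 2) ((R : ℝ) + 7) (by positivity)
  refine ⟨R, M1 + M2 + M3 + M4 + 1, fun N M hM hN => ?_⟩
  have h1 := hM1 N M (by omega) hN
  have h2 := hM2 N M (by omega) hN
  have h3 := hC N M (by omega) hN
  have h4 := hM3 M (by omega)
  have h4' := hM4 N M (by omega) hN
  set Q : ℤ → ℝ := fun t => SN ((DG c g * UP a f 0).eval t) ((DG c g * UP a f 1).eval t) with hQ
  -- the arguments with large rank
  have h5 : (((Ioc N (N + (M : ℤ))).filter (fun t => t ∉ Z ∧ 2 ^ (R + 1) ≤ Q t)).card : ℝ) ≤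
      ε / 4 * M := by
    have h6 : ∀ t ∈ (Ioc N (N + (M : ℤ))).filter (fun t => t ∉ Z ∧ 2 ^ (R + 1) ≤ Q t),
        (2 : ℝ) ^ (R + 1) ≤ Q t := fun t ht => (mem_filter.1 ht).2.2
    have h7 : ((((Ioc N (N + (M : ℤ))).filter (fun t => t ∉ Z ∧
        2 ^ (R + 1) ≤ Q t)).card : ℝ)) * 2 ^ (R + 1) ≤ C0 * M := by
      rw [← nsmul_eq_mul]
      refine (card_nsmul_le_sum _ _ _ h6).trans (h3 _ fun t ht => ?_)
      obtain ⟨ht1, ht2, _⟩ := mem_filter.1 ht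
      exact ⟨ht1, ht2⟩
    have h8 : (0 : ℝ) < 2 ^ (R + 1) := by positivity
    rw [div_le_iff₀ hε] at hR
    have h9 : C0 * M ≤ (ε / 4 * M) * 2 ^ (R + 1) := by
      have h10 : (0 : ℝ) ≤ M := Nat.cast_nonneg _
      nlinarith
    exact le_of_mul_le_mul_right (h7.trans h9) h8
  -- the members outside of the exceptional sets
  have h10 : (Ioc N (N + (M : ℤ))).filter (fun t => ¬ ∀ A B : ℤ, A = (DG c g * w ^ 2 * UP a f 0).eval t →
        B = (DG c g * w ^ 2 * UP a f 1).eval t → A ≠ 0 ∧ B ≠ 0 ∧ A ≠ B ∧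
        (∀ j : ℕ, Finite (ShaTor (EQ A B) (2 ^ j))) ∧
        (∀ j : ℕ, 1 ≤ j → (2 : ℝ) ^ rk (EQ A B) *
          (Nat.card (ShaTor (EQ A B) (2 ^ j)) : ℝ) ^ ((1 : ℝ) / j) ≤ 2 ^ (R + 1)) ∧
        ∃ k : ℕ, (sc a f c g - δ) * Real.log (Real.log M) ≤ k ∧
        ∃ φ : (Fin k → ZMod 2) →+ Sha (WI A B), Function.Injective φ) ⊆
      ((Ioc N (N + (M : ℤ))).filter (fun t => ¬ ((∀ j, (allf g f j).eval t ≠ 0) ∧
      (sc a f c g - δ / 2) * Real.log (Real.log M) +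
      ((C1x ((DG c g * UP a f 0).eval t) ((DG c g * UP a f 1).eval t)).card : ℝ) +
      ((C2x ((DG c g * UP a f 0).eval t) ((DG c g * UP a f 1).eval t)).card : ℝ) ≤
      ((GA ((DG c g * UP a f 0).eval t) ((DG c g * UP a f 1).eval t)).card : ℝ) +
      ((GD ((DG c g * UP a f 0).eval t) ((DG c g * UP a f 1).eval t)).card : ℝ))) ∪
      (Ioc N (N + (M : ℤ))).filter (fun t => t ∈ Z)) ∪
      ((Ioc N (N + (M : ℤ))).filter (fun t => t ∈ {t : ℤ | w.eval t = 0}) ∪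
      (Ioc N (N + (M : ℤ))).filter (fun t => t ∉ Z ∧ 2 ^ (R + 1) ≤ Q t)) := by
    intro t ht
    obtain ⟨ht1, ht2⟩ := mem_filter.1 ht
    by_contra hcon
    rw [mem_union, mem_union, mem_union, not_or, not_or, not_or] at hcon
    obtain ⟨⟨n1, n2⟩, n4, n3⟩ := hcon
    have n2' : t ∉ Z := fun h' => n2 (mem_filter.2 ⟨ht1, h'⟩)
    have n4' : w.eval t ≠ 0 := fun h' => n4 (mem_filter.2 ⟨ht1, h'⟩)
    have n3' : Q t < 2 ^ (R + 1) := by
      by_contra h'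
      exact n3 (mem_filter.2 ⟨ht1, n2', not_lt.1 h'⟩)
    have n1' : (∀ j, (allf g f j).eval t ≠ 0) ∧
      (sc a f c g - δ / 2) * Real.log (Real.log M) +
      ((C1x ((DG c g * UP a f 0).eval t) ((DG c g * UP a f 1).eval t)).card : ℝ) +
      ((C2x ((DG c g * UP a f 0).eval t) ((DG c g * UP a f 1).eval t)).card : ℝ) ≤
      ((GA ((DG c g * UP a f 0).eval t) ((DG c g * UP a f 1).eval t)).card : ℝ) +
      ((GD ((DG c g * UP a f 0).eval t) ((DG c g * UP a f 1).eval t)).card : ℝ) := by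
      by_contra h'
      exact n1 (mem_filter.2 ⟨ht1, h'⟩)
    obtain ⟨_, n5⟩ := n1'
    apply ht2
    have e0 : ∀ k, (DG c g * w ^ 2 * UP a f k).eval t =
        (DG c g * UP a f k).eval t * (w.eval t) ^ 2 := fun k => by
      rw [eval_mul, eval_mul, eval_mul, eval_pow]
      ring
    have e1 : ∀ k, (DG c g * UP a f k).eval t ≠ 0 := fun k => hZ2 t n2' k
    have e2 : (DG c g * UP a f 0).eval t ≠ (DG c g * UP a f 1).eval t := by
      intro h'
      apply e1 2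
      rw [← hU, mul_sub, eval_sub, h', sub_self]
    rintro A B rfl rfl
    rw [e0, e0]
    have hw2 : (w.eval t) ^ 2 ≠ 0 := pow_ne_zero 2 n4'
    obtain ⟨k1, k2, k, hk, hφ⟩ := one_curve3 ((DG c g * UP a f 0).eval t)
      ((DG c g * UP a f 1).eval t) (w.eval t) e2 (e1 0) (e1 1) n4' n3'
    refine ⟨mul_ne_zero (e1 0) hw2, mul_ne_zero (e1 1) hw2,
      fun h' => e2 (mul_right_cancel₀ hw2 h'), k1, k2, k, ?_, hφ⟩
    have hk' : ((GA ((DG c g * UP a f 0).eval t) ((DG c g * UP a f 1).eval t)).card : ℝ) +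
        ((GD ((DG c g * UP a f 0).eval t) ((DG c g * UP a f 1).eval t)).card : ℝ) ≤
        k + ((C1x ((DG c g * UP a f 0).eval t) ((DG c g * UP a f 1).eval t)).card : ℝ) +
        ((C2x ((DG c g * UP a f 0).eval t) ((DG c g * UP a f 1).eval t)).card : ℝ) + R + 7 := by
      have : (GA ((DG c g * UP a f 0).eval t) ((DG c g * UP a f 1).eval t)).card +
        (GD ((DG c g * UP a f 0).eval t) ((DG c g * UP a f 1).eval t)).card ≤
        k + (C1x ((DG c g * UP a f 0).eval t) ((DG c g * UP a f 1).eval t)).card +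
        (C2x ((DG c g * UP a f 0).eval t) ((DG c g * UP a f 1).eval t)).card + R + 7 := by omega
      exact_mod_cast this
    linarith
  have h11 := (card_le_card h10).trans ((card_union_le _ _).trans
    (Nat.add_le_add (card_union_le _ _) (card_union_le _ _)))
  have h14 : ((((Ioc N (N + (M : ℤ))).filter (fun t => ¬ ∀ A B : ℤ, A = (DG c g * w ^ 2 * UP a f 0).eval t →
        B = (DG c g * w ^ 2 * UP a f 1).eval t → A ≠ 0 ∧ B ≠ 0 ∧ A ≠ B ∧
        (∀ j : ℕ, Finite (ShaTor (EQ A B) (2 ^ j))) ∧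
        (∀ j : ℕ, 1 ≤ j → (2 : ℝ) ^ rk (EQ A B) *
          (Nat.card (ShaTor (EQ A B) (2 ^ j)) : ℝ) ^ ((1 : ℝ) / j) ≤ 2 ^ (R + 1)) ∧
        ∃ k : ℕ, (sc a f c g - δ) * Real.log (Real.log M) ≤ k ∧
        ∃ φ : (Fin k → ZMod 2) →+ Sha (WI A B), Function.Injective φ)).card : ℝ)) ≤
      ((((Ioc N (N + (M : ℤ))).filter (fun t => ¬ ((∀ j, (allf g f j).eval t ≠ 0) ∧
      (sc a f c g - δ / 2) * Real.log (Real.log M) +
      ((C1x ((DG c g * UP a f 0).eval t) ((DG c g * UP a f 1).eval t)).card : ℝ) +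
      ((C2x ((DG c g * UP a f 0).eval t) ((DG c g * UP a f 1).eval t)).card : ℝ) ≤
      ((GA ((DG c g * UP a f 0).eval t) ((DG c g * UP a f 1).eval t)).card : ℝ) +
      ((GD ((DG c g * UP a f 0).eval t) ((DG c g * UP a f 1).eval t)).card : ℝ)))).card : ℝ) +
      (((Ioc N (N + (M : ℤ))).filter (fun t => t ∈ Z)).card : ℝ)) +
      ((((Ioc N (N + (M : ℤ))).filter (fun t => t ∈ {t : ℤ | w.eval t = 0})).card : ℝ) +
      (((Ioc N (N + (M : ℤ))).filter (fun t => t ∉ Z ∧ 2 ^ (R + 1) ≤ Q t)).card : ℝ)) := by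
    exact_mod_cast h11
  have h15 : (((Ioc N (N + (M : ℤ))).filter (fun t => t ∈ Z)).card : ℝ) ≤ ε / 4 * M := by
    convert h2
  have h16 : (((Ioc N (N + (M : ℤ))).filter (fun t => t ∈ {t : ℤ | w.eval t = 0})).card : ℝ) ≤
      ε / 4 * M := by
    convert h4'
  linarith

end

end Pool.Agent.TH841.LS
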