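import Mathlib
import Pool.Agent.TH841.LS.Main5
import Pool.Agent.TH841.LS.Main4

/-!
# Project LS, final version for coprime pairs in short squares
-/

set_option autoImplicit false

namespace Pool.Agent.TH841.LS

open Finset

open Pool.Agent.TH841.SH.D

open Pool.Agent.TH841.PT (EQ)

open Pool.Agent.W307.SE (SN SN_nonneg)

open Pool.Agent.W307.FK (AVGN SS)

open Classical in
/-- **large Tate-Shafarevich groups for almost all coprime pairs** -/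
theorem large6 (hcnt : CNT2X) (havg : AVGN) (D : ℤ) (hD : D ≠ 0) (δ ε : ℝ) (L : ℕ) (hδ : 0 < δ) (hε : 0 < ε) :
    ∃ R X0 : ℕ, ∀ (N1 N2 : ℤ) (X : ℕ), X0 ≤ X → N1.natAbs ≤ X ^ L → N2.natAbs ≤ X ^ L →
      (((Icc 1 X ×ˢ Icc 1 X).filter (fun t : ℕ × ℕ =>
        IsCoprime (N1 + (t.1 : ℤ)) (N2 + (t.2 : ℤ)) ∧
        ¬ ∀ A B : ℤ, A = D * (N1 + (t.1 : ℤ)) → B = D * (N2 + (t.2 : ℤ)) →
        A ≠ 0 ∧ B ≠ 0 ∧ A ≠ B ∧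
        (∀ j : ℕ, Finite (ShaTor (EQ A B) (2 ^ j))) ∧
        (∀ j : ℕ, 1 ≤ j → (2 : ℝ) ^ rk (EQ A B) *
          (Nat.card (ShaTor (EQ A B) (2 ^ j)) : ℝ) ^ ((1 : ℝ) / j) ≤ 2 ^ (R + 1)) ∧
        ∃ k : ℕ, (3 / 2 - δ) * Real.log (Real.log X) ≤ k ∧
        ∃ φ : (Fin k → ZMod 2) →+ Sha (WI A B), Function.Injective φ)).card : ℝ) ≤ ε * X ^ 2 := by
  obtain ⟨X1, hX1⟩ := hcnt D hD (δ / 2) (ε / 3) L (by positivity) (by positivity)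
  obtain ⟨C0, hC0, hC⟩ := havg L
  set C1' : ℝ := C0 * 128 ^ D.natAbs.primeFactors.card with hC1'
  have hC1'0 : 0 ≤ C1' := by positivity
  obtain ⟨R, hR⟩ : ∃ R : ℕ, 3 * C1' / ε ≤ 2 ^ (R + 1) := by
    obtain ⟨R, hR⟩ := pow_unbounded_of_one_lt (3 * C1' / ε) (one_lt_two : (1 : ℝ) < 2)
    exact ⟨R, hR.le.trans (pow_le_pow_right₀ (by norm_num) (by omega))⟩
  obtain ⟨M3, hM3⟩ := big_loglog (δ / 2) ((R : ℝ) + 11) (by positivity)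
  refine ⟨R, X1 + M3 + 1, fun N1 N2 X hX hN1 hN2 => ?_⟩
  have h1 := hX1 N1 N2 X (by omega) hN1 hN2
  have h3 := hC D N1 N2 X hD (by omega) hN1 hN2
  have h4 := hM3 X (by omega)
  let bad : Finset (ℕ × ℕ) := (Icc 1 X ×ˢ Icc 1 X).filter (fun t : ℕ × ℕ =>
    (IsCoprime (N1 + (t.1 : ℤ)) (N2 + (t.2 : ℤ)) ∧ N1 + (t.1 : ℤ) ≠ 0 ∧ N2 + (t.2 : ℤ) ≠ 0 ∧
      N1 + (t.1 : ℤ) ≠ N2 + (t.2 : ℤ)) ∧ 2 ^ (R + 1) ≤
      SN (D * (N1 + (t.1 : ℤ))) (D * (N2 + (t.2 : ℤ))))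
  have h5 : (bad.card : ℝ) ≤ ε / 3 * X ^ 2 := by
    have h6 : ∀ t ∈ bad, (2 : ℝ) ^ (R + 1) ≤ SS D (N1 + (t.1 : ℤ), N2 + (t.2 : ℤ)) := by
      intro t ht
      obtain ⟨_, ⟨c1, c2, c3, c4⟩, b6⟩ := mem_filter.1 ht
      have b7 : (1 : ℝ) ≤ SN (D * (N1 + (t.1 : ℤ))) (D * (N2 + (t.2 : ℤ))) :=
        (one_le_pow₀ (by norm_num)).trans b6
      unfold SS
      rw [if_pos ⟨c1, c2, c3, c4⟩]
      change (2 : ℝ) ^ (R + 1) ≤ SN (D * (N1 + (t.1 : ℤ))) (D * (N2 + (t.2 : ℤ))) ^ 2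
      nlinarith
    have h7 : (bad.card : ℝ) * 2 ^ (R + 1) ≤ C1' * X ^ 2 := by
      rw [← nsmul_eq_mul]
      refine (card_nsmul_le_sum _ _ _ h6).trans (le_trans ?_ h3)
      refine sum_le_sum_of_subset_of_nonneg (filter_subset _ _) fun t _ _ => ?_
      unfold SS
      split_ifs
      · positivity
      · exact le_rfl
    have h8 : (0 : ℝ) < 2 ^ (R + 1) := by positivity
    rw [div_le_iff₀ hε] at hR
    have h9 : C1' * X ^ 2 ≤ (ε / 3 * X ^ 2) * 2 ^ (R + 1) := by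
      have h10 : (0 : ℝ) ≤ (X : ℝ) ^ 2 := by positivity
      nlinarith
    exact le_of_mul_le_mul_right (h7.trans h9) h8
  let Y1 : Finset (ℕ × ℕ) := (Icc 1 X ×ˢ Icc 1 X).filter (fun t : ℕ × ℕ =>
      IsCoprime (N1 + (t.1 : ℤ)) (N2 + (t.2 : ℤ)) ∧
      ¬ (N1 + (t.1 : ℤ) ≠ 0 ∧ N2 + (t.2 : ℤ) ≠ 0 ∧ N1 + (t.1 : ℤ) ≠ N2 + (t.2 : ℤ) ∧
        (3 / 2 - δ / 2) * Real.log (Real.log X) +
          ((C1x (D * (N1 + (t.1 : ℤ))) (D * (N2 + (t.2 : ℤ)))).card : ℝ) +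
          ((C2x (D * (N1 + (t.1 : ℤ))) (D * (N2 + (t.2 : ℤ)))).card : ℝ) ≤
        ((GA (D * (N1 + (t.1 : ℤ))) (D * (N2 + (t.2 : ℤ)))).card : ℝ) +
        ((GD (D * (N1 + (t.1 : ℤ))) (D * (N2 + (t.2 : ℤ)))).card : ℝ)))
  have c1 : (Y1.card : ℝ) ≤ ε / 3 * X ^ 2 := by convert h1
  have h10 : (Icc 1 X ×ˢ Icc 1 X).filter (fun t : ℕ × ℕ =>
        IsCoprime (N1 + (t.1 : ℤ)) (N2 + (t.2 : ℤ)) ∧
        ¬ ∀ A B : ℤ, A = D * (N1 + (t.1 : ℤ)) → B = D * (N2 + (t.2 : ℤ)) →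
        A ≠ 0 ∧ B ≠ 0 ∧ A ≠ B ∧
        (∀ j : ℕ, Finite (ShaTor (EQ A B) (2 ^ j))) ∧
        (∀ j : ℕ, 1 ≤ j → (2 : ℝ) ^ rk (EQ A B) *
          (Nat.card (ShaTor (EQ A B) (2 ^ j)) : ℝ) ^ ((1 : ℝ) / j) ≤ 2 ^ (R + 1)) ∧
        ∃ k : ℕ, (3 / 2 - δ) * Real.log (Real.log X) ≤ k ∧
        ∃ φ : (Fin k → ZMod 2) →+ Sha (WI A B), Function.Injective φ) ⊆ Y1 ∪ bad := by
    intro t ht
    obtain ⟨ht1, ht2, ht3⟩ := mem_filter.1 ht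
    by_contra hcon
    rw [mem_union, not_or] at hcon
    obtain ⟨n1, n3⟩ := hcon
    have n1' := not_not.1 (fun h' => n1 (mem_filter.2 ⟨ht1, ht2, h'⟩))
    obtain ⟨m1, m2, m3, m4⟩ := n1'
    have n3' : SN (D * (N1 + (t.1 : ℤ))) (D * (N2 + (t.2 : ℤ))) < 2 ^ (R + 1) := by
      by_contra h'
      exact n3 (mem_filter.2 ⟨ht1, ⟨ht2, m1, m2, m3⟩, not_lt.1 h'⟩)
    apply ht3
    rintro A B rfl rfl
    have k3 : D * (N1 + (t.1 : ℤ)) ≠ D * (N2 + (t.2 : ℤ)) := fun h => m3 (mul_left_cancel₀ hD h)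
    obtain ⟨k1, k2, k, hk, hφ⟩ := one_curve3 (D * (N1 + (t.1 : ℤ))) (D * (N2 + (t.2 : ℤ))) 1
      k3 (mul_ne_zero hD m1) (mul_ne_zero hD m2) one_ne_zero n3'
    rw [one_pow, mul_one, mul_one] at k1 k2 hφ
    refine ⟨mul_ne_zero hD m1, mul_ne_zero hD m2, k3, k1, k2, k, ?_, hφ⟩
    have hk' : ((GA (D * (N1 + (t.1 : ℤ))) (D * (N2 + (t.2 : ℤ)))).card : ℝ) +
        ((GD (D * (N1 + (t.1 : ℤ))) (D * (N2 + (t.2 : ℤ)))).card : ℝ) ≤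
        k + ((C1x (D * (N1 + (t.1 : ℤ))) (D * (N2 + (t.2 : ℤ)))).card : ℝ) +
        ((C2x (D * (N1 + (t.1 : ℤ))) (D * (N2 + (t.2 : ℤ)))).card : ℝ) + R + 7 := by
      exact_mod_cast hk
    linarith
  have h11 := (card_le_card h10).trans (card_union_le _ _)
  have h12 : (((Icc 1 X ×ˢ Icc 1 X).filter (fun t : ℕ × ℕ =>
        IsCoprime (N1 + (t.1 : ℤ)) (N2 + (t.2 : ℤ)) ∧
        ¬ ∀ A B : ℤ, A = D * (N1 + (t.1 : ℤ)) → B = D * (N2 + (t.2 : ℤ)) →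
        A ≠ 0 ∧ B ≠ 0 ∧ A ≠ B ∧
        (∀ j : ℕ, Finite (ShaTor (EQ A B) (2 ^ j))) ∧
        (∀ j : ℕ, 1 ≤ j → (2 : ℝ) ^ rk (EQ A B) *
          (Nat.card (ShaTor (EQ A B) (2 ^ j)) : ℝ) ^ ((1 : ℝ) / j) ≤ 2 ^ (R + 1)) ∧
        ∃ k : ℕ, (3 / 2 - δ) * Real.log (Real.log X) ≤ k ∧
        ∃ φ : (Fin k → ZMod 2) →+ Sha (WI A B), Function.Injective φ)).card : ℝ) ≤
      (Y1.card : ℝ) + (bad.card : ℝ) := by
    exact_mod_cast h11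
  linarith

end Pool.Agent.TH841.LS
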