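import Mathlib
import Pool.Agent.TH841.LS.Stm3
import Pool.Agent.TH841.LS.Cnt

/-!
# Project LS: the sharp counts for almost all `t`

Written by helper324 for helper841 (project LS, job 4416).
-/

set_option autoImplicit false

namespace Pool.Agent.TH841.LS.CNTXf

open Finset Polynomial

open Pool.Agent.TH841.PT (GoodD Gp Fval Irr exists_Gp eval_le)
open Pool.Agent.TH841.PM.BADf (Ex mem_Ex tendsto_LL normal')
open Pool.Agent.W262.RK (fs PS)
open Pool.Agent.TH841.LS.CNTf (Tq mem_Tq markov Fval_split dvd_Fval Fval_ne mem_Tq_prod odd_val Pj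
  mem_Pj GA_ge zeros size)

lemma tri (w : ℤ) (p : ℕ) : (jacobiSym w p : ℝ) = 0 ∨ (jacobiSym w p : ℝ) = 1 ∨
    (jacobiSym w p : ℝ) = -1 := by
  rcases jacobiSym.trichotomy w p with h | h | h <;> rw [h] <;> simp

lemma cnt_one (P : Finset ℕ) (w : ℤ) :
    ((P.filter (fun p => jacobiSym w p = 1)).card : ℝ) ≤
      ((P.card : ℝ) + ∑ p ∈ P, (jacobiSym w p : ℝ)) / 2 := by
  have h1 : ((P.filter (fun p => jacobiSym w p = 1)).card : ℝ) =
      ∑ p ∈ P, if jacobiSym w p = 1 then (1 : ℝ) else 0 := by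
    rw [card_filter]
    push_cast
    rfl
  have h2 : ((P.card : ℝ) + ∑ p ∈ P, (jacobiSym w p : ℝ)) / 2 =
      ∑ p ∈ P, (1 + (jacobiSym w p : ℝ)) / 2 := by
    rw [← sum_div, sum_add_distrib, sum_const, nsmul_eq_mul, mul_one]
  rw [h1, h2]
  refine sum_le_sum fun p _ => ?_
  split_ifs with h
  · rw [h]; norm_num
  · rcases tri w p with h3 | h3 | h3 <;> rw [h3] <;> norm_num

lemma cnt_neg {P P' : Finset ℕ} (w : ℤ) (hsub : P' ⊆ P) (h : ∀ p ∈ P', jacobiSym w p ≠ 0) :
    ((P.card : ℝ) - ∑ p ∈ P, (jacobiSym w p : ℝ)) / 2 ≤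
      ((P'.filter (fun p => jacobiSym w p = -1)).card : ℝ) + ((P \ P').card : ℝ) := by
  have h1 : ((P'.filter (fun p => jacobiSym w p = -1)).card : ℝ) =
      ∑ p ∈ P', if jacobiSym w p = -1 then (1 : ℝ) else 0 := by
    rw [card_filter]
    push_cast
    rfl
  have h2 : ((P.card : ℝ) - ∑ p ∈ P, (jacobiSym w p : ℝ)) / 2 =
      ∑ p ∈ P, (1 - (jacobiSym w p : ℝ)) / 2 := by
    rw [← sum_div, sum_sub_distrib, sum_const, nsmul_eq_mul, mul_one]
  have h3 : ((P \ P').card : ℝ) = ∑ p ∈ P \ P', (1 : ℝ) := by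
    rw [sum_const, nsmul_eq_mul, mul_one]
  rw [h1, h2, h3, ← sum_sdiff hsub, add_comm]
  refine add_le_add (sum_le_sum fun p hp => ?_) (sum_le_sum fun p _ => ?_)
  · split_ifs with h4
    · rw [h4]; norm_num
    · rcases jacobiSym.trichotomy w p with h5 | h5 | h5
      · exact absurd h5 (h p hp)
      · rw [h5]; norm_num
      · exact absurd h5 h4
  · rcases tri w p with h3 | h3 | h3 <;> rw [h3] <;> norm_num

lemma jne {p : ℕ} (hp : p.Prime) {w : ℤ} (h : ¬ (p : ℤ) ∣ w) : w.gcd p = 1 := by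
  have h1 : IsCoprime (p : ℤ) w := (Nat.prime_iff_prime_int.1 hp).coprime_iff_not_dvd.2 h
  exact Int.isCoprime_iff_gcd_eq_one.1 h1.symm

section det

variable {J : Type} [Fintype J] [DecidableEq J]

/-- the upper bound for `C1x` -/
lemma C1x_le {cls : J → Fin 4} {a : Fin 3 → ℤ} {f : J → ℤ[X]} {z c : ℕ} (h : Gp a f z c)
    {t : ℤ} (h0 : ∀ j, (f j).eval t ≠ 0)
    (hsub : Fval cls a (fun l => (f l).eval t) 0 - Fval cls a (fun l => (f l).eval t) 1 =
      Fval cls a (fun l => (f l).eval t) 2) :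
    (C1x (Fval cls a (fun l => (f l).eval t) 0) (Fval cls a (fun l => (f l).eval t) 1)).card ≤
      ∑ j ∈ univ.filter (fun j => cls j = 2), (((f j).eval t).natAbs.primeFactors.filter
        (fun p => jacobiSym (Fval cls a (fun l => (f l).eval t) 0) p = 1)).card +
        ((z + 1) + (Tq (∏ j, f j) z t).card) := by
  classical
  set x : J → ℤ := fun l => (f l).eval t with hx
  have h1 : C1x (Fval cls a x 0) (Fval cls a x 1) ⊆
      (univ.filter (fun j => cls j = 2)).biUnion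
        (fun j => ((f j).eval t).natAbs.primeFactors.filter
          (fun p => jacobiSym (Fval cls a x 0) p = 1)) ∪
        (range (z + 1) ∪ Tq (∏ j, f j) z t) := by
    intro p hp
    unfold C1x at hp
    rw [mem_filter, Nat.mem_primeFactors, ← Int.natCast_dvd] at hp
    obtain ⟨⟨hp1, hp2, _⟩, hp3, hp4, hp5⟩ := hp
    rw [mem_union, mem_union, mem_range]
    by_cases hpz : p < z + 1
    · exact Or.inr (Or.inl hpz)
    · have hpz' : z < p := by omega
      rw [hsub] at hp2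
      obtain ⟨l, hl, h3⟩ := dvd_Fval h hp1 hpz' hp2
      unfold fs at hl
      rw [mem_filter] at hl
      rcases hl.2 with e | e
      · refine Or.inl (mem_biUnion.2 ⟨l, mem_filter.2 ⟨mem_univ _, by rw [e]; rfl⟩, ?_⟩)
        rw [mem_filter, Nat.mem_primeFactors, ← Int.natCast_dvd]
        refine ⟨⟨hp1, h3, Int.natAbs_ne_zero.2 (h0 l)⟩, ?_⟩
        have h4 : ¬ (p : ℤ) ∣ Fval cls a x 0 := by
          intro hd
          obtain ⟨i, hi, h5⟩ := dvd_Fval h hp1 hpz' hd
          refine h.pair p hp1 hpz' l i ?_ t ⟨h3, h5⟩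
          rintro rfl
          unfold fs at hi
          rw [mem_filter, e] at hi
          rcases hi.2 with e' | e' <;> exact absurd e' (by decide)
        rcases jacobiSym.trichotomy (Fval cls a x 0) p with h5 | h5 | h5
        · exact absurd h5 (jacobiSym.ne_zero (jne hp1 h4))
        · exact h5
        · exact absurd h5 hp5
      · by_cases h4 : ((p ^ 2 : ℕ) : ℤ) ∣ (f l).eval t
        · exact Or.inr (Or.inr (mem_Tq_prod h0 hp1 hpz' h4))
        · exfalso
          apply hp4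
          have hjk : l ∈ fs cls 0 := by
            unfold fs
            rw [mem_filter]
            exact ⟨mem_univ _, Or.inr e⟩
          obtain ⟨R, hR1, hR2⟩ := Fval_split h hp1 hpz' h3 hjk
          rw [hR2]
          exact odd_val hp1 h3 h4 hR1
  refine (card_le_card h1).trans ((card_union_le _ _).trans (Nat.add_le_add card_biUnion_le ?_))
  refine (card_union_le _ _).trans ?_
  rw [card_range]

/-- the polynomial `W3` -/
noncomputable def W3 (cls : J → Fin 4) (a : Fin 3 → ℤ) (f : J → ℤ[X]) : ℤ[X] :=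
  C (a 0 * a 1) * ((∏ l ∈ univ.filter (fun l => cls l = 0), f l) *
        ∏ l ∈ univ.filter (fun l => cls l = 1), f l)

lemma W3_eval (cls : J → Fin 4) (a : Fin 3 → ℤ) (f : J → ℤ[X]) (t : ℤ) :
    (W3 cls a f).eval t = a 0 * a 1 * ((∏ l ∈ univ.filter (fun l => cls l = 0), (f l).eval t) *
        ∏ l ∈ univ.filter (fun l => cls l = 1), (f l).eval t) := by
  unfold W3
  rw [eval_mul, eval_mul, eval_C, eval_prod, eval_prod]

lemma W3_ndvd {cls : J → Fin 4} {a : Fin 3 → ℤ} {f : J → ℤ[X]} {z c : ℕ} (h : Gp a f z c)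
    {p : ℕ} (hp : p.Prime) (hz : z < p) {t : ℤ} {j : J} (hj : (p : ℤ) ∣ (f j).eval t)
    (hjc : cls j = 3) : ¬ (p : ℤ) ∣ (W3 cls a f).eval t := by
  have hpi := Nat.prime_iff_prime_int.1 hp
  rw [W3_eval]
  intro hd
  rcases hpi.dvd_or_dvd hd with h1 | h1
  · rcases hpi.dvd_or_dvd h1 with h2 | h2
    · exact h.const p hp hz 0 h2
    · exact h.const p hp hz 1 h2
  · rcases hpi.dvd_or_dvd h1 with h2 | h2
    · obtain ⟨l, hl, h3⟩ := (hpi.dvd_finsetProd_iff _).1 h2
      rw [mem_filter] at hl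
      refine h.pair p hp hz j l ?_ t ⟨hj, h3⟩
      rintro rfl
      rw [hjc] at hl
      exact absurd hl.2 (by decide)
    · obtain ⟨l, hl, h3⟩ := (hpi.dvd_finsetProd_iff _).1 h2
      rw [mem_filter] at hl
      refine h.pair p hp hz j l ?_ t ⟨hj, h3⟩
      rintro rfl
      rw [hjc] at hl
      exact absurd hl.2 (by decide)

lemma Fval_eq (cls : J → Fin 4) (a : Fin 3 → ℤ) (x : J → ℤ) (k : Fin 3) :
    Fval cls a x k = a k * ((∏ l ∈ univ.filter (fun l => cls l = k.castSucc), x l) *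
      ∏ l ∈ univ.filter (fun l => cls l = 3), x l) := by
  unfold Fval fs
  rw [filter_or, prod_union]
  rw [disjoint_left]
  intro l hl hl'
  rw [mem_filter] at hl hl'
  have h1 := hl.2.symm.trans hl'.2
  have h2 : ∀ k : Fin 3, ¬ k.castSucc = (3 : Fin 4) := by decide
  exact h2 k h1

/-- the lower bound for `GD` -/
lemma GD_ge {cls : J → Fin 4} {a : Fin 3 → ℤ} {f : J → ℤ[X]} {z c : ℕ} (h : Gp a f z c)
    (hz11 : 11 ≤ z) (ha : ∀ k, a k ≠ 0) {t : ℤ} (h0 : ∀ j, (f j).eval t ≠ 0)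
    (hsub : Fval cls a (fun l => (f l).eval t) 0 - Fval cls a (fun l => (f l).eval t) 1 =
      Fval cls a (fun l => (f l).eval t) 2) (Y : Finset J) (hY : ∀ j ∈ Y, cls j = 3) :
    ∑ j ∈ Y, ((Pj f z t j).filter (fun p => jacobiSym ((W3 cls a f).eval t) p = -1)).card +
      (C2x (Fval cls a (fun l => (f l).eval t) 0) (Fval cls a (fun l => (f l).eval t) 1)).card ≤
      (GD (Fval cls a (fun l => (f l).eval t) 0)
        (Fval cls a (fun l => (f l).eval t) 1)).card := by
  classical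
  set x : J → ℤ := fun l => (f l).eval t with hx
  have h1 : (C2x (Fval cls a x 0) (Fval cls a x 1)) =
      (GD (Fval cls a x 0) (Fval cls a x 1)).filter
        (fun p => ¬ NR p (Fval cls a x 0 * Fval cls a x 1)) := by
    ext p
    unfold C2x GD
    rw [mem_filter, mem_filter, mem_filter, and_assoc, and_assoc]
  have h2 : ∑ j ∈ Y, ((Pj f z t j).filter
      (fun p => jacobiSym ((W3 cls a f).eval t) p = -1)).card ≤
      ((GD (Fval cls a x 0) (Fval cls a x 1)).filter
        (fun p => NR p (Fval cls a x 0 * Fval cls a x 1))).card := by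
    rw [← card_biUnion]
    · refine card_le_card ?_
      intro p hp
      rw [mem_biUnion] at hp
      obtain ⟨j, hj, hpj⟩ := hp
      rw [mem_filter, mem_Pj (h0 j)] at hpj
      obtain ⟨⟨hp1, hp2, hp3, hp4⟩, hp5⟩ := hpj
      have hjc := hY j hj
      have hA := Fval_ne (cls := cls) ha h0 0
      have hB := Fval_ne (cls := cls) ha h0 1
      have hC := Fval_ne (cls := cls) ha h0 2
      have hjk : ∀ k : Fin 3, j ∈ fs cls k := by
        intro k
        unfold fs
        rw [mem_filter]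
        exact ⟨mem_univ _, Or.inr hjc⟩
      have hpi := Nat.prime_iff_prime_int.1 hp1
      rw [mem_filter]
      constructor
      · unfold GD
        rw [mem_filter, Nat.mem_primeFactors, ← Int.natCast_dvd]
        refine ⟨⟨hp1, ?_, ?_⟩, by omega, ?_⟩
        · rw [hsub]
          obtain ⟨R, hR1, hR2⟩ := Fval_split h hp1 hp3 hp2 (hjk 2)
          rw [hR2]
          exact hp2.mul_left R
        · rw [hsub]
          exact Int.natAbs_ne_zero.2 hC
        · obtain ⟨R, hR1, hR2⟩ := Fval_split h hp1 hp3 hp2 (hjk 0)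
          rw [hR2]
          exact odd_val hp1 hp2 hp4 hR1
      · obtain ⟨g, hg⟩ := hp2
        have hjm : j ∈ univ.filter (fun l => cls l = 3) := mem_filter.2 ⟨mem_univ _, hjc⟩
        set E : ℤ := ∏ l ∈ (univ.filter (fun l => cls l = 3)).erase j, (f l).eval t with hE
        have hP3 : ∏ l ∈ univ.filter (fun l => cls l = 3), x l = (p : ℤ) * (g * E) := by
          rw [← mul_prod_erase _ _ hjm, hx, hE]
          simp only
          rw [hg]
          ring
        have hgE : ¬ (p : ℤ) ∣ g * E := by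
          intro hd
          rcases hpi.dvd_or_dvd hd with h5 | h5
          · apply hp4
            rw [hg]
            obtain ⟨g', hg'⟩ := h5
            rw [hg']
            push_cast
            exact ⟨g', by ring⟩
          · obtain ⟨l, hl, h6⟩ := (hpi.dvd_finsetProd_iff _).1 h5
            exact h.pair p hp1 hp3 j l (ne_of_mem_erase hl).symm t ⟨⟨g, hg⟩, h6⟩
        refine ⟨1, (W3 cls a f).eval t * (g * E) ^ 2, ?_, ?_⟩
        · rw [Fval_eq, Fval_eq, hP3, W3_eval]
          have e0 : ((0 : Fin 3).castSucc : Fin 4) = 0 := rfl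
          have e1 : ((1 : Fin 3).castSucc : Fin 4) = 1 := rfl
          rw [e0, e1, hx]
          ring
        · rw [jacobiSym.mul_left, hp5, jacobiSym.pow_left, jacobiSym.sq_one (jne hp1 hgE), mul_one]
    · intro j _ l _ hjl
      rw [Function.onFun, disjoint_left]
      intro p hp hp'
      rw [mem_filter, mem_Pj (h0 _)] at hp hp'
      exact h.pair p hp.1.1 hp.1.2.2.1 j l hjl t ⟨hp.1.2.1, hp'.1.2.1⟩
  rw [h1]
  have h3 := card_filter_add_card_filter_not (s := GD (Fval cls a x 0) (Fval cls a x 1))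
    (p := fun p => NR p (Fval cls a x 0 * Fval cls a x 1))
  omega

/-- the number of the prime factors that are not in `Pj` -/
lemma Pj_compl {f : J → ℤ[X]} {z : ℕ} {t : ℤ} (h0 : ∀ j, (f j).eval t ≠ 0) (j : J) :
    (((f j).eval t).natAbs.primeFactors \ Pj f z t j).card ≤
      (z + 1) + (Tq (∏ j, f j) z t).card := by
  classical
  have h2 : ((f j).eval t).natAbs.primeFactors \ Pj f z t j ⊆
      range (z + 1) ∪ Tq (∏ j, f j) z t := by
    intro p hp
    rw [mem_sdiff, mem_Pj (h0 j), Nat.mem_primeFactors, ← Int.natCast_dvd] at hp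
    rw [mem_union, mem_range]
    by_cases hpz : p < z + 1
    · exact Or.inl hpz
    · by_cases hp2 : ((p ^ 2 : ℕ) : ℤ) ∣ (f j).eval t
      · exact Or.inr (mem_Tq_prod h0 hp.1.1 (by omega) hp2)
      · exact absurd ⟨hp.1.1, hp.1.2.1, by omega, hp2⟩ hp.2
  refine (card_le_card h2).trans ((card_union_le _ _).trans ?_)
  rw [card_range]

lemma Pj_subset {f : J → ℤ[X]} {z : ℕ} {t : ℤ} (j : J) :
    Pj f z t j ⊆ ((f j).eval t).natAbs.primeFactors := by
  classical
  unfold Pj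
  exact filter_subset _ _

end det

/-- the sum of the symbols -/
noncomputable def Sy (w f : ℤ[X]) (t : ℤ) : ℝ :=
  ∑ p ∈ (f.eval t).natAbs.primeFactors, (jacobiSym (w.eval t) p : ℝ)

open Classical in
/-- the exceptional set of the sum of the symbols -/
noncomputable def Ey (f w : ℤ[X]) (N : ℤ) (M : ℕ) (δ : ℝ) : Finset ℤ :=
  (Ioc N (N + (M : ℤ))).filter (fun t => ¬ SqMod f w ∧ ¬ (Sy w f t ≤ δ * Real.log (Real.log M)))

lemma tk (h : TKX) {f : ℤ[X]} (hf : Irreducible f) (hd : 0 < f.natDegree) (w : ℤ[X]) (L : ℕ)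
    (δ ε : ℝ) (hδ : 0 < δ) (hε : 0 < ε) : ∃ M0 : ℕ, ∀ (N : ℤ) (M : ℕ), M0 ≤ M →
      |N| ≤ (M : ℤ) ^ L → ((Ey f w N M δ).card : ℝ) ≤ ε * M := by
  classical
  by_cases hs : SqMod f w
  · refine ⟨0, fun N M _ _ => ?_⟩
    have h1 : Ey f w N M δ = ∅ := by
      unfold Ey
      rw [filter_eq_empty_iff]
      intro t _ h2
      exact h2.1 hs
    rw [h1, card_empty, Nat.cast_zero]
    positivity
  · have hs' : ∀ q : ℚ[X], ¬ f.map (Int.castRingHom ℚ) ∣ (q ^ 2 - w.map (Int.castRingHom ℚ)) :=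
      fun q hq => hs ⟨q, hq⟩
    obtain ⟨M0, hM0⟩ := h f w hf hd hs' δ ε L hδ hε
    refine ⟨M0, fun N M hM hN => ?_⟩
    refine le_trans ?_ (hM0 N M hM hN)
    have h1 : Ey f w N M δ ⊆ (Ioc N (N + (M : ℤ))).filter (fun t => ¬
      ((∑ p ∈ (f.eval t).natAbs.primeFactors, (jacobiSym (w.eval t) p : ℝ)) ≤
        δ * Real.log (Real.log M))) := by
      intro t ht
      unfold Ey at ht
      rw [mem_filter] at ht ⊢
      exact ⟨ht.1, ht.2.2⟩
    exact_mod_cast card_le_card h1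

/-- the arithmetic of the final step -/
lemma arith {n n0 n1 n2 n2s n3 δ δ' LL z T G K C2 Gd S01 : ℝ} (hn0 : 0 ≤ n0) (hn1 : 0 ≤ n1)
    (hn2 : 0 ≤ n2) (hn3 : 0 ≤ n3) (hn : n0 + n1 + n2 + n3 ≤ n) (hδ' : 0 ≤ δ') (hLL : 0 ≤ LL)
    (hz : 0 ≤ z) (hδn : (3 * n + 1) * δ' = δ / 2) (hbig : (n + 1) * (z + 1) ≤ δ / 2 * LL)
    (hT : T ≤ δ' * LL) (hS01 : (n0 + n1) * (LL - δ' * LL) ≤ S01)
    (hG : S01 ≤ G + (n0 + n1) * ((z + 1) + T))
    (hK : K ≤ n2s * (LL + δ' * LL) + (n2 - n2s) * ((LL + δ' * LL + δ' * LL) / 2) + ((z + 1) + T))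
    (hD : n3 * ((LL - δ' * LL - δ' * LL) / 2 - ((z + 1) + T)) + C2 ≤ Gd) :
    (n0 + n1 - (n2 + n2s) / 2 + n3 / 2 - δ) * LL + K + C2 ≤ G + Gd := by
  have hP : 0 ≤ δ' * LL := mul_nonneg hδ' hLL
  have e1 : (n0 + n1 + n2 + n3) * (δ' * LL) ≤ n * (δ' * LL) := mul_le_mul_of_nonneg_right hn hP
  have e2 : (n0 + n1 + n3) * T ≤ (n0 + n1 + n3) * (δ' * LL) :=
    mul_le_mul_of_nonneg_left hT (by linarith)
  have e3 : (n0 + n1 + n3) * (δ' * LL) ≤ n * (δ' * LL) :=
    mul_le_mul_of_nonneg_right (by linarith) hP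
  have e4 : (n0 + n1 + n3) * (z + 1) ≤ n * (z + 1) :=
    mul_le_mul_of_nonneg_right (by linarith) (by linarith)
  have e5 : (3 * n + 1) * (δ' * LL) = δ / 2 * LL := by rw [← mul_assoc, hδn]
  have e6 : 0 ≤ n * (δ' * LL) := mul_nonneg (by linarith) hP
  have g1 : (n0 + n1 + n3) * ((z + 1) + T) ≤ n * (z + 1) + n * (δ' * LL) := by
    rw [mul_add]; linarith
  have g2 : (n0 + n1) * (LL - δ' * LL) = (n0 + n1) * LL - (n0 + n1) * (δ' * LL) := by ring
  have g3 : (n0 + n1 + n3) * ((z + 1) + T) = (n0 + n1) * ((z + 1) + T) + n3 * ((z + 1) + T) := by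
    ring
  have g4 : n3 * ((LL - δ' * LL - δ' * LL) / 2 - ((z + 1) + T)) =
      n3 * LL / 2 - n3 * (δ' * LL) - n3 * ((z + 1) + T) := by ring
  have g5 : n2s * (LL + δ' * LL) + (n2 - n2s) * ((LL + δ' * LL + δ' * LL) / 2) =
      (n2 + n2s) / 2 * LL + n2 * (δ' * LL) := by ring
  have g6 : (n0 + n1 - (n2 + n2s) / 2 + n3 / 2 - δ) * LL =
      (n0 + n1) * LL - (n2 + n2s) / 2 * LL + n3 * LL / 2 - δ * LL := by ring
  have g7 : (n0 + n1 + n2 + n3) * (δ' * LL) =
      (n0 + n1) * (δ' * LL) + n2 * (δ' * LL) + n3 * (δ' * LL) := by ring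
  have g8 : (n + 1) * (z + 1) = n * (z + 1) + (z + 1) := by ring
  have g9 : (3 * n + 1) * (δ' * LL) = 3 * (n * (δ' * LL)) + δ' * LL := by ring
  rw [g2] at hS01
  rw [g4] at hD
  rw [g5] at hK
  rw [g6]
  rw [g3] at g1
  rw [g7] at e1
  rw [g8] at hbig
  rw [g9] at e5
  linarith

theorem cntx_aux {J : Type} [Fintype J] [DecidableEq J] (cls : J → Fin 4) (a : Fin 3 → ℤ)
    (f : J → ℤ[X]) (ha : ∀ k, a k ≠ 0) (hf0 : ∀ j, f j ≠ 0)
    (hF : C (a 0) * ∏ l ∈ fs cls 0, f l - C (a 1) * ∏ l ∈ fs cls 1, f l =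
      C (a 2) * ∏ l ∈ fs cls 2, f l) (z c : ℕ) (hG : Gp a f z c) (hz11 : 11 ≤ z)
    (δ ε : ℝ) (L : ℕ) (hδ : 0 < δ) (hε : 0 < ε)
    (hnorm : ∀ (j : J) (δ ε : ℝ), 0 < δ → 0 < ε → ∃ M0 : ℕ, ∀ (N : ℤ) (M : ℕ), M0 ≤ M →
      |N| ≤ (M : ℤ) ^ L → ((Ex (f j) N M δ).card : ℝ) ≤ ε * M)
    (htk : ∀ (w : ℤ[X]) (j : J) (δ ε : ℝ), 0 < δ → 0 < ε → ∃ M0 : ℕ, ∀ (N : ℤ) (M : ℕ), M0 ≤ M →
      |N| ≤ (M : ℤ) ^ L → ((Ey (f j) w N M δ).card : ℝ) ≤ ε * M) :
    ∃ M0 : ℕ, ∀ (N : ℤ) (M : ℕ), M0 ≤ M → |N| ≤ (M : ℤ) ^ L → ∀ S : Finset ℤ,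
    (∀ t ∈ S, t ∈ Ioc N (N + (M : ℤ)) ∧ ¬ ((∀ j, (f j).eval t ≠ 0) ∧
      (cst cls a f - δ) * Real.log (Real.log M) +
      ((C1x (Fval cls a (fun l => (f l).eval t) 0)
        (Fval cls a (fun l => (f l).eval t) 1)).card : ℝ) +
      ((C2x (Fval cls a (fun l => (f l).eval t) 0)
        (Fval cls a (fun l => (f l).eval t) 1)).card : ℝ) ≤
      ((GA (Fval cls a (fun l => (f l).eval t) 0)
        (Fval cls a (fun l => (f l).eval t) 1)).card : ℝ) +
      ((GD (Fval cls a (fun l => (f l).eval t) 0)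
        (Fval cls a (fun l => (f l).eval t) 1)).card : ℝ))) → (S.card : ℝ) ≤ ε * M := by
  classical
  have hD0 : (∏ j, f j) ≠ 0 := prod_ne_zero_iff.2 fun j _ => hf0 j
  obtain ⟨b, M1, hsize⟩ := size (∏ j, f j) L
  obtain ⟨n, hn⟩ : ∃ n : ℕ, n = Fintype.card J := ⟨_, rfl⟩
  obtain ⟨δ', hδ'⟩ : ∃ δ' : ℝ, δ' = δ / (2 * (3 * n + 1)) := ⟨_, rfl⟩
  have hδ'0 : 0 < δ' := by rw [hδ']; positivity
  obtain ⟨w2, hw2⟩ : ∃ w2 : ℤ[X], w2 = C (a 0) * ∏ l ∈ fs cls 0, f l := ⟨_, rfl⟩
  choose M2 hM2 using fun j : J => hnorm j δ' (ε / (5 * (n + 1))) hδ'0 (by positivity)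
  choose M4 hM4 using fun j : J => htk w2 j δ' (ε / (5 * (n + 1))) hδ'0 (by positivity)
  choose M5 hM5 using fun j : J => htk (W3 cls a f) j δ' (ε / (5 * (n + 1))) hδ'0 (by positivity)
  have e1 := tendsto_LL.eventually_ge_atTop (2 * ((n + 1) * (z + 1)) / δ)
  have e2 := tendsto_LL.eventually_ge_atTop (5 * (2 * c + b) / (δ' * ε))
  have e3 := tendsto_LL.eventually_ge_atTop 1
  have e4 : ∀ᶠ M : ℕ in Filter.atTop, 5 * ((∏ j, f j).natDegree : ℝ) / ε ≤ M :=
    tendsto_natCast_atTop_atTop.eventually_ge_atTop _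
  obtain ⟨M3, hM3⟩ := Filter.eventually_atTop.1 (e1.and (e2.and (e3.and e4)))
  refine ⟨M1 + ∑ j, M2 j + ∑ j, M4 j + ∑ j, M5 j + M3 + z, fun N M hM hN S hS => ?_⟩
  obtain ⟨h1, h2, h3, h4⟩ := hM3 M (by omega)
  obtain ⟨LL, hLL⟩ : ∃ LL : ℝ, LL = Real.log (Real.log M) := ⟨_, rfl⟩
  rw [← hLL] at h1 h2 h3
  have hsub : ∀ t, Fval cls a (fun l => (f l).eval t) 0 - Fval cls a (fun l => (f l).eval t) 1 =
      Fval cls a (fun l => (f l).eval t) 2 := by
    intro t
    have h5 := congrArg (Polynomial.eval t) hF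
    rw [eval_sub, eval_mul, eval_mul, eval_mul, eval_C, eval_C, eval_C, eval_prod, eval_prod,
      eval_prod] at h5
    exact h5
  have hw2e : ∀ t, w2.eval t = Fval cls a (fun l => (f l).eval t) 0 := by
    intro t
    rw [hw2, eval_mul, eval_C, eval_prod]
    rfl
  set S0 := (Ioc N (N + (M : ℤ))).filter (fun t => (∏ j, f j).eval t = 0) with hS0
  set S1 := univ.biUnion (fun j => Ex (f j) N M δ') with hS1
  set S2 := (Ioc N (N + (M : ℤ))).filter (fun t => (∏ j, f j).eval t ≠ 0 ∧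
    δ' * LL < ((Tq (∏ j, f j) z t).card : ℝ)) with hS2
  set S3 := univ.biUnion (fun j => Ey (f j) w2 N M δ') with hS3
  set S4 := univ.biUnion (fun j => Ey (f j) (W3 cls a f) N M δ') with hS4
  have hn1 : (univ.filter (fun j => cls j = 0 ∨ cls j = 1)).card =
      (univ.filter (fun j => cls j = 0)).card + (univ.filter (fun j => cls j = 1)).card := by
    rw [filter_or, card_union_of_disjoint]
    rw [disjoint_left]
    intro j hj hj'
    rw [mem_filter] at hj hj'
    exact absurd (hj.2.symm.trans hj'.2) (by decide)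
  obtain ⟨Y2, hY2⟩ : ∃ Y2 : Finset J, Y2 = univ.filter (fun j => cls j = 2) := ⟨_, rfl⟩
  obtain ⟨Y2s, hY2s⟩ : ∃ Y2s : Finset J, Y2s = univ.filter (fun j => cls j = 2 ∧
    SqMod (f j) w2) := ⟨_, rfl⟩
  obtain ⟨Y3, hY3⟩ : ∃ Y3 : Finset J, Y3 = univ.filter (fun j => cls j = 3 ∧
    ¬ SqMod (f j) (W3 cls a f)) := ⟨_, rfl⟩
  have hnn : (univ.filter (fun j => cls j = 0)).card + (univ.filter (fun j => cls j = 1)).card +
      Y2.card + Y3.card ≤ n := by
    rw [hn, ← card_univ]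
    have k1 : Disjoint (univ.filter (fun j => cls j = 0)) (univ.filter (fun j => cls j = 1)) := by
      rw [disjoint_left]
      intro j hj hj'
      rw [mem_filter] at hj hj'
      exact absurd (hj.2.symm.trans hj'.2) (by decide)
    have k2 : Disjoint (univ.filter (fun j => cls j = 0) ∪ univ.filter (fun j => cls j = 1))
        Y2 := by
      rw [disjoint_left]
      intro j hj hj'
      rw [hY2, mem_filter] at hj'
      rw [mem_union, mem_filter, mem_filter] at hj
      rcases hj with hj | hj <;> exact absurd (hj.2.symm.trans hj'.2) (by decide)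
    have k3 : Disjoint (univ.filter (fun j => cls j = 0) ∪ univ.filter (fun j => cls j = 1) ∪ Y2)
        Y3 := by
      rw [disjoint_left]
      intro j hj hj'
      rw [hY3, mem_filter] at hj'
      rw [mem_union, mem_union, mem_filter, mem_filter, hY2, mem_filter] at hj
      rcases hj with (hj | hj) | hj <;> exact absurd (hj.2.symm.trans hj'.2.1) (by decide)
    rw [← card_union_of_disjoint k1, ← card_union_of_disjoint k2, ← card_union_of_disjoint k3]
    exact card_le_card (subset_univ _)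
  have hY2sub : Y2s ⊆ Y2 := by
    rw [hY2, hY2s]
    intro j hj
    rw [mem_filter] at hj ⊢
    exact ⟨hj.1, hj.2.1⟩
  have hcst : cst cls a f = ((univ.filter (fun j => cls j = 0)).card : ℝ) +
      (univ.filter (fun j => cls j = 1)).card - ((Y2.card : ℝ) + Y2s.card) / 2 +
      (Y3.card : ℝ) / 2 := by
    unfold cst
    rw [hY2, hY2s, hY3, hw2]
    rfl
  have hLL0 : 0 ≤ LL := by linarith
  have hsubset : S ⊆ S0 ∪ (S1 ∪ (S2 ∪ (S3 ∪ S4))) := by
    intro t ht
    obtain ⟨ht1, ht2⟩ := hS t ht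
    by_contra hc
    rw [mem_union, mem_union, mem_union, mem_union, not_or, not_or, not_or, not_or] at hc
    obtain ⟨c1, c2, c3, c4, c5⟩ := hc
    have d1 : (∏ j, f j).eval t ≠ 0 := fun h => c1 (mem_filter.2 ⟨ht1, h⟩)
    have d2 : ∀ j, (f j).eval t ≠ 0 := by
      rw [eval_prod] at d1
      exact fun j => (prod_ne_zero_iff.1 d1) j (mem_univ j)
    have d3 : ∀ j, |(((f j).eval t).natAbs.primeFactors.card : ℝ) - LL| ≤ δ' * LL := by
      intro j
      by_contra h5
      push Not at h5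
      refine c2 (mem_biUnion.2 ⟨j, mem_univ j, mem_Ex.2 ⟨ht1, d2 j, ?_⟩⟩)
      rw [← hLL]
      exact h5
    have d4 : ((Tq (∏ j, f j) z t).card : ℝ) ≤ δ' * LL := by
      by_contra h5
      push Not at h5
      exact c3 (mem_filter.2 ⟨ht1, d1, h5⟩)
    have d5 : ∀ j, ¬ SqMod (f j) w2 → Sy w2 (f j) t ≤ δ' * LL := by
      intro j hj
      by_contra h5
      refine c4 (mem_biUnion.2 ⟨j, mem_univ j, ?_⟩)
      unfold Ey
      rw [mem_filter, ← hLL]
      exact ⟨ht1, hj, h5⟩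
    have d6 : ∀ j, ¬ SqMod (f j) (W3 cls a f) → Sy (W3 cls a f) (f j) t ≤ δ' * LL := by
      intro j hj
      by_contra h5
      refine c5 (mem_biUnion.2 ⟨j, mem_univ j, ?_⟩)
      unfold Ey
      rw [mem_filter, ← hLL]
      exact ⟨ht1, hj, h5⟩
    refine ht2 ⟨d2, ?_⟩
    rw [← hLL, hcst]
    have g1 := GA_ge hG hz11 ha d2 (hsub t)
    have g2 := C1x_le hG d2 (hsub t)
    have g3 := GD_ge hG hz11 ha d2 (hsub t) Y3 (by
      intro j hj
      rw [hY3, mem_filter] at hj
      exact hj.2.1)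
    have g1' : ((∑ j ∈ univ.filter (fun j => cls j = 0 ∨ cls j = 1),
        ((f j).eval t).natAbs.primeFactors.card : ℕ) : ℝ) ≤
        ((GA (Fval cls a (fun l => (f l).eval t) 0)
          (Fval cls a (fun l => (f l).eval t) 1)).card : ℝ) +
        (((univ.filter (fun j => cls j = 0)).card : ℝ) + (univ.filter (fun j => cls j = 1)).card) *
          (((z : ℝ) + 1) + (Tq (∏ j, f j) z t).card) := by
      rw [hn1] at g1
      exact_mod_cast g1
    refine arith (n := n) (δ' := δ') (z := z) (S01 := ((∑ j ∈ univ.filter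
      (fun j => cls j = 0 ∨ cls j = 1), ((f j).eval t).natAbs.primeFactors.card : ℕ) : ℝ))
      (Nat.cast_nonneg _) (Nat.cast_nonneg _) (Nat.cast_nonneg _) (Nat.cast_nonneg _) ?_ hδ'0.le
      hLL0 (Nat.cast_nonneg _) ?_ ?_ d4 ?_ g1' ?_ ?_
    · exact_mod_cast hnn
    · rw [hδ']
      field_simp
    · rw [div_le_iff₀ hδ] at h1
      linarith
    · push_cast
      have g4 : ∑ j ∈ univ.filter (fun j => cls j = 0 ∨ cls j = 1), (LL - δ' * LL) ≤
          ∑ j ∈ univ.filter (fun j => cls j = 0 ∨ cls j = 1),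
            (((f j).eval t).natAbs.primeFactors.card : ℝ) := by
        refine sum_le_sum fun j _ => ?_
        have := (abs_le.1 (d3 j)).1
        linarith
      rw [sum_const, nsmul_eq_mul, hn1] at g4
      push_cast at g4
      exact g4
    · have g2' : ((C1x (Fval cls a (fun l => (f l).eval t) 0)
          (Fval cls a (fun l => (f l).eval t) 1)).card : ℝ) ≤
        (∑ j ∈ Y2, ((((f j).eval t).natAbs.primeFactors.filter
          (fun p => jacobiSym (Fval cls a (fun l => (f l).eval t) 0) p = 1)).card : ℝ)) +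
          (((z : ℝ) + 1) + (Tq (∏ j, f j) z t).card) := by
        rw [hY2]
        exact_mod_cast g2
      refine g2'.trans (add_le_add ?_ le_rfl)
      have g4 : ∀ j ∈ Y2, ((((f j).eval t).natAbs.primeFactors.filter
          (fun p => jacobiSym (Fval cls a (fun l => (f l).eval t) 0) p = 1)).card : ℝ) ≤
          if j ∈ Y2s then LL + δ' * LL else (LL + δ' * LL + δ' * LL) / 2 := by
        intro j hj
        have g5 := (abs_le.1 (d3 j)).2
        split_ifs with hjs
        · have g6 : ((((f j).eval t).natAbs.primeFactors.filter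
            (fun p => jacobiSym (Fval cls a (fun l => (f l).eval t) 0) p = 1)).card : ℝ) ≤
            (((f j).eval t).natAbs.primeFactors.card : ℝ) := by
            exact_mod_cast card_filter_le _ _
          linarith
        · have g6 : ¬ SqMod (f j) w2 := by
            intro hs
            apply hjs
            rw [hY2s, mem_filter]
            rw [hY2, mem_filter] at hj
            exact ⟨mem_univ _, hj.2, hs⟩
          have g7 := d5 j g6
          unfold Sy at g7
          rw [hw2e t] at g7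
          have g8 := cnt_one ((f j).eval t).natAbs.primeFactors
            (Fval cls a (fun l => (f l).eval t) 0)
          linarith
      refine (sum_le_sum g4).trans (le_of_eq ?_)
      rw [sum_ite, sum_const, sum_const, nsmul_eq_mul, nsmul_eq_mul]
      have g5 : (Y2.filter (fun j => j ∈ Y2s)) = Y2s := by
        ext j
        rw [mem_filter]
        exact ⟨fun h => h.2, fun h => ⟨hY2sub h, h⟩⟩
      have g6 := card_filter_add_card_filter_not (s := Y2) (p := fun j => j ∈ Y2s)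
      rw [g5] at g6 ⊢
      have g7 : ((Y2.filter (fun j => ¬ j ∈ Y2s)).card : ℝ) = (Y2.card : ℝ) - Y2s.card := by
        rw [← g6]
        push_cast
        ring
      rw [g7]
    · have g3' : (∑ j ∈ Y3, (((Pj f z t j).filter
          (fun p => jacobiSym ((W3 cls a f).eval t) p = -1)).card : ℝ)) +
          ((C2x (Fval cls a (fun l => (f l).eval t) 0)
            (Fval cls a (fun l => (f l).eval t) 1)).card : ℝ) ≤
          ((GD (Fval cls a (fun l => (f l).eval t) 0)
            (Fval cls a (fun l => (f l).eval t) 1)).card : ℝ) := by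
        exact_mod_cast g3
      refine le_trans (add_le_add ?_ le_rfl) g3'
      rw [← nsmul_eq_mul, ← sum_const]
      refine sum_le_sum fun j hj => ?_
      rw [hY3, mem_filter] at hj
      have g5 := (abs_le.1 (d3 j)).1
      have g7 := d6 j hj.2.2
      unfold Sy at g7
      have g8 := cnt_neg ((W3 cls a f).eval t) (Pj_subset (z := z) (f := f) (t := t) j) (by
        intro p hp
        rw [mem_Pj (d2 j)] at hp
        exact jacobiSym.ne_zero (jne hp.1 (W3_ndvd hG hp.1 hp.2.2.1 hp.2.1 hj.2.1)))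
      have g9 : ((((f j).eval t).natAbs.primeFactors \ Pj f z t j).card : ℝ) ≤
          ((z : ℝ) + 1) + (Tq (∏ j, f j) z t).card := by
        exact_mod_cast Pj_compl d2 j
      linarith
  have hM0 : (0 : ℝ) ≤ M := Nat.cast_nonneg _
  have hn0 : (0 : ℝ) ≤ n := Nat.cast_nonneg n
  have h7 : (n : ℝ) * (ε / (5 * (n + 1))) ≤ ε / 5 := by
    rw [mul_div_assoc', div_le_div_iff₀ (by positivity) (by norm_num)]
    nlinarith [hε.le, hn0]
  have k0 : (S0.card : ℝ) ≤ ε / 5 * M := by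
    have h5 : (S0.card : ℝ) ≤ (∏ j, f j).natDegree := by exact_mod_cast zeros hD0 N M
    rw [div_le_iff₀ hε] at h4
    linarith
  have kk : ∀ F : J → Finset ℤ, (∀ j, ((F j).card : ℝ) ≤ ε / (5 * (n + 1)) * M) →
      ((univ.biUnion F).card : ℝ) ≤ ε / 5 * M := by
    intro F hF'
    have h5 : ((univ.biUnion F).card : ℝ) ≤ ∑ j, ((F j).card : ℝ) := by
      exact_mod_cast card_biUnion_le
    refine h5.trans ((sum_le_sum fun j _ => hF' j).trans ?_)
    rw [sum_const, nsmul_eq_mul, card_univ, ← hn]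
    calc (n : ℝ) * (ε / (5 * (n + 1)) * M) = (n : ℝ) * (ε / (5 * (n + 1))) * M := by ring
      _ ≤ ε / 5 * M := mul_le_mul_of_nonneg_right h7 hM0
  have k1 : (S1.card : ℝ) ≤ ε / 5 * M := kk _ fun j => hM2 j N M
    ((single_le_sum (f := M2) (fun _ _ => Nat.zero_le _) (mem_univ j)).trans (by omega)) hN
  have k3 : (S3.card : ℝ) ≤ ε / 5 * M := kk _ fun j => hM4 j N M
    ((single_le_sum (f := M4) (fun _ _ => Nat.zero_le _) (mem_univ j)).trans (by omega)) hN
  have k4 : (S4.card : ℝ) ≤ ε / 5 * M := kk _ fun j => hM5 j N M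
    ((single_le_sum (f := M5) (fun _ _ => Nat.zero_le _) (mem_univ j)).trans (by omega)) hN
  have k2 : (S2.card : ℝ) ≤ ε / 5 * M := by
    have h5 := markov hG.good (by omega) N M (by omega) (hsize N M (by omega) hN) (δ' * LL)
    have h6 : 0 < δ' * LL := mul_pos hδ'0 (by linarith)
    have h7 : 5 * (2 * (c : ℝ) + b) ≤ LL * (δ' * ε) := by
      rwa [div_le_iff₀ (by positivity)] at h2
    have h8 : (S2.card : ℝ) * (δ' * LL) ≤ ε / 5 * M * (δ' * LL) := by
      refine h5.trans ?_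
      have h9 := mul_le_mul_of_nonneg_right h7 hM0
      nlinarith
    exact le_of_mul_le_mul_right h8 h6
  have k5 : (S.card : ℝ) ≤ S0.card + (S1.card + (S2.card + (S3.card + S4.card))) := by
    have h5 := (card_le_card hsubset).trans ((card_union_le _ _).trans
      (Nat.add_le_add_left ((card_union_le _ _).trans (Nat.add_le_add_left
        ((card_union_le _ _).trans (Nat.add_le_add_left (card_union_le _ _) _)) _)) _))
    exact_mod_cast h5
  linarith

/-- **LS-CNTX** -/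
theorem cntx_of (h : Pool.Agent.TH841.LS.TKX) : Pool.Agent.TH841.LS.CNTX := by
  intro J _ _ cls a f ha hf hF δ ε L hδ hε
  obtain ⟨z0, hz0⟩ := exists_Gp Pool.Agent.TH841.PT.GDPf.gdp hf ha ((∏ j, f j).natDegree + 1) le_rfl
  obtain ⟨M0, hM0⟩ := cntx_aux cls a f ha (fun j => (hf.irr j).ne_zero) hF (z0 + 11) _
    (hz0 (z0 + 11) (by omega)) (by omega) δ ε L hδ hε
    (fun j δ ε hδ hε => normal' (f j) (hf.irr j) (hf.deg j) L δ ε hδ hε)
    (fun w j δ ε hδ hε => tk h (hf.irr j) (hf.deg j) w L δ ε hδ hε)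
  refine ⟨M0, fun N M hM hN => hM0 N M hM hN _ fun t ht => ?_⟩
  rw [mem_filter] at ht
  exact ht

end Pool.Agent.TH841.LS.CNTXf
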