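import Mathlib
import Pool.Agent.TH841.LS.Stm

/-!
# Project LS: the count for pairs
-/

set_option autoImplicit false

namespace Pool.Agent.TH841.LS

open Finset

open Classical in
/-- LS-CNT2: for almost all coprime pairs `(a, b)` of a short square at least `(1 - δ) log log X`
primes. -/
def CNT2 : Prop := ∀ (D : ℤ), D ≠ 0 → ∀ (δ ε : ℝ) (L : ℕ), 0 < δ → 0 < ε →
  ∃ X0 : ℕ, ∀ (N1 N2 : ℤ) (X : ℕ), X0 ≤ X → N1.natAbs ≤ X ^ L → N2.natAbs ≤ X ^ L →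
    (((Icc 1 X ×ˢ Icc 1 X).filter (fun t : ℕ × ℕ =>
      IsCoprime (N1 + (t.1 : ℤ)) (N2 + (t.2 : ℤ)) ∧
      ¬ (N1 + (t.1 : ℤ) ≠ 0 ∧ N2 + (t.2 : ℤ) ≠ 0 ∧ N1 + (t.1 : ℤ) ≠ N2 + (t.2 : ℤ) ∧
        (1 - δ) * Real.log (Real.log X) +
          ((C1 (D * (N1 + (t.1 : ℤ))) (D * (N2 + (t.2 : ℤ)))).card : ℝ) ≤
        ((GA (D * (N1 + (t.1 : ℤ))) (D * (N2 + (t.2 : ℤ)))).card : ℝ)))).card : ℝ) ≤ ε * X ^ 2

end Pool.Agent.TH841.LS
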