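import Mathlib
import Pool.Agent.TH841.LS.Loc1
import Pool.Agent.TH841.PM.PenZ

/-!
# Project LS: almost all the members of a pencil have large Tate-Shafarevich groups
-/

set_option autoImplicit false

namespace Pool.Agent.TH841.LS

open Finset Polynomial

open Pool.Agent.TH841.SH.D

open Pool.Agent.TH841.PT (EQ Irr natAbs_le_of bd_EQ)

open Pool.Agent.TH841.TR (UP FP fp allf allc ne_three)

open Pool.Agent.TH841.PM (AVZ DZ MZ penZ)

open Pool.Agent.W307.SE (SN SN_nonneg)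

open Pool.Agent.W262.RK (fs)

/-- one curve -/
theorem one_curve (hs : SHL) (hLA : LOCA) (hLB : LOCB) (hLC : LOCC) (hL : LIN) (A B c : ℤ)
    (h : A ≠ B) (hA : A ≠ 0) (hB : B ≠ 0) (hc : c ≠ 0) :
    ∃ k : ℕ, (GA A B).card ≤ k + (C1 A B).card + rk (EQ (A * c ^ 2) (B * c ^ 2)) + 7 ∧
      ∃ φ : (Fin k → ZMod 2) →+ Sha (WI (A * c ^ 2) (B * c ^ 2)), Function.Injective φ := by
  obtain ⟨G, V, hG, hV, hcard⟩ := loc_all hLA hLB hLC hL A B h hA hB
  have hc2 : c ^ 2 ≠ 0 := pow_ne_zero 2 hc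
  obtain ⟨k, hk, hφ⟩ := hs (A * c ^ 2) (B * c ^ 2) (fun h' => h (mul_right_cancel₀ hc2 h'))
    (mul_ne_zero hA hc2) (mul_ne_zero hB hc2) G hG V
    (fun ε hε => ⟨fun p _ => locI_scale hc ((hV ε hε).1 p), locI_scale hc (hV ε hε).2⟩)
  exact ⟨k, by omega, hφ⟩

variable {n : Fin 3 → ℕ}

open Classical in
/-- **large Tate-Shafarevich groups for almost all the members of a pencil** -/
theorem large (hs : SHL) (hLA : LOCA) (hLB : LOCB) (hLC : LOCC) (hL : LIN) (hcnt : CNT)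
    (h : AVZ) (a : Fin 3 → ℤ) (f : ∀ k : Fin 3, Fin (n k) → ℤ[X])
    (ha : ∀ k, a k ≠ 0) (hf : Irr (fp f)) (hU : UP a f 0 - UP a f 1 = UP a f 2)
    (D : ℤ[X]) (hD : D ≠ 0) (hDf : ∀ k i, ¬ f k i ∣ D)
    (hn : ∀ k, 2 * n k < n 0 + n 1 + n 2) (δ ε : ℝ) (L : ℕ) (hδ : 0 < δ) (hε : 0 < ε) :
    ∃ M0 : ℕ, ∀ (N : ℤ) (M : ℕ), M0 ≤ M → |N| ≤ (M : ℤ) ^ L →
      (((Ioc N (N + (M : ℤ))).filter (fun t => ¬ ((∀ k, (D * UP a f k).eval t ≠ 0) ∧
        ∃ k : ℕ, ((n 0 : ℝ) + n 1 - n 2 - δ) * Real.log (Real.log M) ≤ k ∧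
        ∃ φ : (Fin k → ZMod 2) →+ Sha (WI ((D * UP a f 0).eval t) ((D * UP a f 1).eval t)),
          Function.Injective φ))).card : ℝ) ≤ ε * M := by
  obtain ⟨m, g, a', D₂, ha', hf', hF', hfac, _⟩ :=
    Pool.Agent.TH841.TR.reduce a f ha hf hU D hD hDf
  obtain ⟨Z, hZ1, hZ2, hZ3⟩ := penZ h a f ha hf hU D hD hDf hn
  have hP : ∀ k, C (a' k) * ∏ l ∈ fs (allc n m) k, allf g f l = FP a' g f k := by
    intro k
    rw [Pool.Agent.TH841.TR.prod_allc]
    unfold FP
    rw [mul_assoc]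
    rfl
  have hV : ∀ k t, PT.Fval (allc n m) a' (fun l => (allf g f l).eval t) k =
      (FP a' g f k).eval t := by
    intro k t
    rw [← hP k, eval_mul, eval_C, eval_prod]
    rfl
  have hcnt' := hcnt ((Σ k : Fin 3, Fin (n k)) ⊕ Fin m) (allc n m) a' (allf g f) ha' hf'
    (by rw [hP, hP, hP]; exact hF') (δ / 2) (ε / 3) L (by positivity) (by positivity)
  simp only [hV] at hcnt'
  obtain ⟨M1, hM1⟩ := hcnt'
  obtain ⟨M2, hM2⟩ := hZ1 L (ε / 3) (by positivity)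
  obtain ⟨C0, hC0, hC⟩ := hZ3 1 L
  -- the ranks
  obtain ⟨R, hR⟩ : ∃ R : ℕ, 3 * C0 / ε ≤ 2 ^ R := by
    obtain ⟨R, hR⟩ := pow_unbounded_of_one_lt (3 * C0 / ε) (one_lt_two : (1 : ℝ) < 2)
    exact ⟨R, hR.le⟩
  -- large `M`
  obtain ⟨M3, hM3⟩ : ∃ M3 : ℕ, ∀ M : ℕ, M3 ≤ M → (R : ℝ) + 7 ≤
      δ / 2 * Real.log (Real.log M) := by
    have h1 : Filter.Tendsto (fun M : ℕ => δ / 2 * Real.log (Real.log M)) Filter.atTop
        Filter.atTop :=
      (Real.tendsto_log_atTop.comp (Real.tendsto_log_atTop.comp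
        tendsto_natCast_atTop_atTop)).const_mul_atTop (by positivity)
    exact Filter.eventually_atTop.1 (h1.eventually_ge_atTop ((R : ℝ) + 7))
  refine ⟨M1 + M2 + M3 + 1, fun N M hM hN => ?_⟩
  have h1 := hM1 N M (by omega) hN
  have h2 := hM2 N M (by omega) hN
  have h3 := hC N M (by omega) hN
  have h4 := hM3 M (by omega)
  -- the arguments with large rank
  have h5 : (((Ioc N (N + (M : ℤ))).filter (fun t => t ∉ Z ∧ R + 1 ≤
      rk (EQ ((D * UP a f 0).eval t) ((D * UP a f 1).eval t)))).card : ℝ) ≤ ε / 3 * M := by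
    have h6 : ∀ t ∈ (Ioc N (N + (M : ℤ))).filter (fun t => t ∉ Z ∧ R + 1 ≤
        rk (EQ ((D * UP a f 0).eval t) ((D * UP a f 1).eval t))),
        (2 : ℝ) ^ R ≤ SN ((D * UP a f 0).eval t) ((D * UP a f 1).eval t) := by
      intro t ht
      obtain ⟨_, ht2, ht3⟩ := mem_filter.1 ht
      obtain ⟨k1, k2, k3⟩ := ne_three hU (hZ2 t ht2)
      obtain ⟨b1, b2⟩ := bd_EQ k1 k2 k3
      have b3 : 1 ≤ Nat.card {x : Pool.Agent.W262.SH.Sha (EQ ((D * UP a f 0).eval t)
          ((D * UP a f 1).eval t)) // x + x = 0} :=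
        Nat.card_pos_iff.2 ⟨⟨⟨0, add_zero 0⟩⟩, b1⟩
      have b4 : (1 : ℝ) ≤ Nat.card {x : Pool.Agent.W262.SH.Sha (EQ ((D * UP a f 0).eval t)
          ((D * UP a f 1).eval t)) // x + x = 0} := by exact_mod_cast b3
      have b5 : (2 : ℝ) ^ R ≤ 2 ^ rk (EQ ((D * UP a f 0).eval t) ((D * UP a f 1).eval t)) :=
        pow_le_pow_right₀ (by norm_num) (by omega)
      refine b5.trans (le_trans ?_ b2)
      exact le_mul_of_one_le_right (by positivity) b4
    have h7 : ((((Ioc N (N + (M : ℤ))).filter (fun t => t ∉ Z ∧ R + 1 ≤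
        rk (EQ ((D * UP a f 0).eval t) ((D * UP a f 1).eval t)))).card : ℝ)) * 2 ^ R ≤ C0 * M := by
      rw [← nsmul_eq_mul]
      refine (card_nsmul_le_sum _ _ _ h6).trans (le_trans ?_ h3)
      refine (sum_le_sum_of_subset_of_nonneg (t := (Ioc N (N + (M : ℤ))).filter
        (fun t => t ∉ Z)) (fun t ht => ?_) fun t _ _ => SN_nonneg _ _).trans (le_of_eq ?_)
      · obtain ⟨ht1, ht2, _⟩ := mem_filter.1 ht
        exact mem_filter.2 ⟨ht1, ht2⟩
      · exact sum_congr rfl fun t _ => (pow_one _).symm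
    have h8 : (0 : ℝ) < 2 ^ R := by positivity
    rw [div_le_iff₀ hε] at hR
    have h9 : C0 * M ≤ (ε / 3 * M) * 2 ^ R := by
      have h10 : (0 : ℝ) ≤ M := Nat.cast_nonneg _
      nlinarith
    exact le_of_mul_le_mul_right (h7.trans h9) h8
  -- the members outside of the exceptional sets
  have h10 : (Ioc N (N + (M : ℤ))).filter (fun t => ¬ ((∀ k, (D * UP a f k).eval t ≠ 0) ∧
        ∃ k : ℕ, ((n 0 : ℝ) + n 1 - n 2 - δ) * Real.log (Real.log M) ≤ k ∧
        ∃ φ : (Fin k → ZMod 2) →+ Sha (WI ((D * UP a f 0).eval t) ((D * UP a f 1).eval t)),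
          Function.Injective φ)) ⊆
      (((Ioc N (N + (M : ℤ))).filter (fun t => ¬ ((∀ j, (allf g f j).eval t ≠ 0) ∧
      (((univ.filter (fun j => allc n m j = 0)).card : ℝ) +
        (univ.filter (fun j => allc n m j = 1)).card -
        (univ.filter (fun j => allc n m j = 2)).card - δ / 2) * Real.log (Real.log M) +
      ((C1 ((FP a' g f 0).eval t) ((FP a' g f 1).eval t)).card : ℝ) ≤
      ((GA ((FP a' g f 0).eval t) ((FP a' g f 1).eval t)).card : ℝ)))) ∪
      (Ioc N (N + (M : ℤ))).filter (fun t => t ∈ Z)) ∪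
      (Ioc N (N + (M : ℤ))).filter (fun t => t ∉ Z ∧ R + 1 ≤
        rk (EQ ((D * UP a f 0).eval t) ((D * UP a f 1).eval t))) := by
    intro t ht
    obtain ⟨ht1, ht2⟩ := mem_filter.1 ht
    by_contra hcon
    rw [mem_union, mem_union, not_or, not_or] at hcon
    obtain ⟨⟨n1, n2⟩, n3⟩ := hcon
    have n2' : t ∉ Z := fun h' => n2 (mem_filter.2 ⟨ht1, h'⟩)
    have n3' : rk (EQ ((D * UP a f 0).eval t) ((D * UP a f 1).eval t)) ≤ R := by
      by_contra h'
      exact n3 (mem_filter.2 ⟨ht1, n2', by omega⟩)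
    have n1' : (∀ j, (allf g f j).eval t ≠ 0) ∧
      (((univ.filter (fun j => allc n m j = 0)).card : ℝ) +
        (univ.filter (fun j => allc n m j = 1)).card -
        (univ.filter (fun j => allc n m j = 2)).card - δ / 2) * Real.log (Real.log M) +
      ((C1 ((FP a' g f 0).eval t) ((FP a' g f 1).eval t)).card : ℝ) ≤
      ((GA ((FP a' g f 0).eval t) ((FP a' g f 1).eval t)).card : ℝ) := by
      by_contra h'
      exact n1 (mem_filter.2 ⟨ht1, h'⟩)
    obtain ⟨_, n5⟩ := n1'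
    apply ht2
    refine ⟨hZ2 t n2', ?_⟩
    have e0 : ∀ k, (D * UP a f k).eval t = (FP a' g f k).eval t * (D₂.eval t) ^ 2 := fun k => by
      rw [hfac, eval_mul, eval_pow]
    have e1 : ∀ k, (FP a' g f k).eval t ≠ 0 ∧ D₂.eval t ≠ 0 := fun k => by
      have h' := hZ2 t n2' k
      rw [e0] at h'
      exact ⟨left_ne_zero_of_mul h', fun h'' => h' (by rw [h'']; ring)⟩
    have e2 : (FP a' g f 0).eval t ≠ (FP a' g f 1).eval t := by
      intro h'
      apply (e1 2).1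
      rw [← hF', eval_sub, h', sub_self]
    obtain ⟨k, hk, hφ⟩ := one_curve hs hLA hLB hLC hL ((FP a' g f 0).eval t)
      ((FP a' g f 1).eval t) (D₂.eval t) e2 (e1 0).1 (e1 1).1 (e1 0).2
    rw [← e0, ← e0] at hk hφ
    refine ⟨k, ?_, hφ⟩
    have q0 : (univ.filter (fun j => allc n m j = 0)).card = n 0 :=
      Pool.Agent.TH841.TR.card_allc' (n := n) (m := m) 0
    have q1 : (univ.filter (fun j => allc n m j = 1)).card = n 1 :=
      Pool.Agent.TH841.TR.card_allc' (n := n) (m := m) 1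
    have q2 : (univ.filter (fun j => allc n m j = 2)).card = n 2 :=
      Pool.Agent.TH841.TR.card_allc' (n := n) (m := m) 2
    rw [q0, q1, q2] at n5
    have hk' : ((GA ((FP a' g f 0).eval t) ((FP a' g f 1).eval t)).card : ℝ) ≤
        k + ((C1 ((FP a' g f 0).eval t) ((FP a' g f 1).eval t)).card : ℝ) + R + 7 := by
      have : (GA ((FP a' g f 0).eval t) ((FP a' g f 1).eval t)).card ≤
        k + (C1 ((FP a' g f 0).eval t) ((FP a' g f 1).eval t)).card + R + 7 := by omega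
      exact_mod_cast this
    linarith
  have h11 := (card_le_card h10).trans (card_union_le _ _)
  have h12 := Nat.add_le_add_right (card_union_le ((Ioc N (N + (M : ℤ))).filter (fun t =>
      ¬ ((∀ j, (allf g f j).eval t ≠ 0) ∧
      (((univ.filter (fun j => allc n m j = 0)).card : ℝ) +
        (univ.filter (fun j => allc n m j = 1)).card -
        (univ.filter (fun j => allc n m j = 2)).card - δ / 2) * Real.log (Real.log M) +
      ((C1 ((FP a' g f 0).eval t) ((FP a' g f 1).eval t)).card : ℝ) ≤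
      ((GA ((FP a' g f 0).eval t) ((FP a' g f 1).eval t)).card : ℝ))))
      ((Ioc N (N + (M : ℤ))).filter (fun t => t ∈ Z)))
      (((Ioc N (N + (M : ℤ))).filter (fun t => t ∉ Z ∧ R + 1 ≤
        rk (EQ ((D * UP a f 0).eval t) ((D * UP a f 1).eval t)))).card)
  have h13 := h11.trans h12
  have h14 : ((((Ioc N (N + (M : ℤ))).filter (fun t => ¬ ((∀ k, (D * UP a f k).eval t ≠ 0) ∧
        ∃ k : ℕ, ((n 0 : ℝ) + n 1 - n 2 - δ) * Real.log (Real.log M) ≤ k ∧
        ∃ φ : (Fin k → ZMod 2) →+ Sha (WI ((D * UP a f 0).eval t) ((D * UP a f 1).eval t)),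
          Function.Injective φ))).card : ℝ)) ≤
      (((Ioc N (N + (M : ℤ))).filter (fun t => ¬ ((∀ j, (allf g f j).eval t ≠ 0) ∧
      (((univ.filter (fun j => allc n m j = 0)).card : ℝ) +
        (univ.filter (fun j => allc n m j = 1)).card -
        (univ.filter (fun j => allc n m j = 2)).card - δ / 2) * Real.log (Real.log M) +
      ((C1 ((FP a' g f 0).eval t) ((FP a' g f 1).eval t)).card : ℝ) ≤
      ((GA ((FP a' g f 0).eval t) ((FP a' g f 1).eval t)).card : ℝ)))).card : ℝ) +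
      (((Ioc N (N + (M : ℤ))).filter (fun t => t ∈ Z)).card : ℝ) +
      (((Ioc N (N + (M : ℤ))).filter (fun t => t ∉ Z ∧ R + 1 ≤
        rk (EQ ((D * UP a f 0).eval t) ((D * UP a f 1).eval t)))).card : ℝ) := by
    exact_mod_cast h13
  have h15 : (((Ioc N (N + (M : ℤ))).filter (fun t => t ∈ Z)).card : ℝ) ≤ ε / 3 * M := by
    convert h2
  linarith

end Pool.Agent.TH841.LS
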