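import Mathlib
import Pool.Agent.TH841.LS.Main
import Pool.Agent.TH841.LS.Stm2
import Pool.Agent.W307.FK.Main

/-!
# Project LS: almost all coprime pairs
-/

set_option autoImplicit false

namespace Pool.Agent.TH841.LS

open Finset

open Pool.Agent.TH841.SH.D

open Pool.Agent.TH841.PT (EQ bd_EQ)

open Pool.Agent.W307.SE (SN SN_nonneg)

open Pool.Agent.W307.FK (AVGN SS)

open Classical in
/-- **large Tate-Shafarevich groups for almost all coprime pairs in short squares** -/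
theorem large2 (hs : SHL) (hLA : LOCA) (hLB : LOCB) (hLC : LOCC) (hL : LIN) (hcnt : CNT2)
    (havg : AVGN) (D : ℤ) (hD : D ≠ 0) (δ ε : ℝ) (L : ℕ) (hδ : 0 < δ) (hε : 0 < ε) :
    ∃ X0 : ℕ, ∀ (N1 N2 : ℤ) (X : ℕ), X0 ≤ X → N1.natAbs ≤ X ^ L → N2.natAbs ≤ X ^ L →
      (((Icc 1 X ×ˢ Icc 1 X).filter (fun t : ℕ × ℕ =>
        IsCoprime (N1 + (t.1 : ℤ)) (N2 + (t.2 : ℤ)) ∧
        ¬ (N1 + (t.1 : ℤ) ≠ 0 ∧ N2 + (t.2 : ℤ) ≠ 0 ∧ N1 + (t.1 : ℤ) ≠ N2 + (t.2 : ℤ) ∧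
        ∃ k : ℕ, (1 - δ) * Real.log (Real.log X) ≤ k ∧
        ∃ φ : (Fin k → ZMod 2) →+ Sha (WI (D * (N1 + (t.1 : ℤ))) (D * (N2 + (t.2 : ℤ)))),
          Function.Injective φ))).card : ℝ) ≤ ε * X ^ 2 := by
  obtain ⟨X1, hX1⟩ := hcnt D hD (δ / 2) (ε / 2) L (by positivity) (by positivity)
  obtain ⟨C0, hC0, hC⟩ := havg L
  set C1' : ℝ := C0 * 128 ^ D.natAbs.primeFactors.card with hC1'
  have hC1'0 : 0 ≤ C1' := by positivity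
  obtain ⟨R, hR⟩ : ∃ R : ℕ, 2 * C1' / ε ≤ 2 ^ R := by
    obtain ⟨R, hR⟩ := pow_unbounded_of_one_lt (2 * C1' / ε) (one_lt_two : (1 : ℝ) < 2)
    exact ⟨R, hR.le⟩
  obtain ⟨M3, hM3⟩ : ∃ M3 : ℕ, ∀ M : ℕ, M3 ≤ M → (R : ℝ) + 7 ≤
      δ / 2 * Real.log (Real.log M) := by
    have h1 : Filter.Tendsto (fun M : ℕ => δ / 2 * Real.log (Real.log M)) Filter.atTop
        Filter.atTop :=
      (Real.tendsto_log_atTop.comp (Real.tendsto_log_atTop.comp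
        tendsto_natCast_atTop_atTop)).const_mul_atTop (by positivity)
    exact Filter.eventually_atTop.1 (h1.eventually_ge_atTop ((R : ℝ) + 7))
  refine ⟨X1 + M3 + 1, fun N1 N2 X hX hN1 hN2 => ?_⟩
  have h1 := hX1 N1 N2 X (by omega) hN1 hN2
  have h3 := hC D N1 N2 X hD (by omega) hN1 hN2
  have h4 := hM3 X (by omega)
  let bad : Finset (ℕ × ℕ) := (Icc 1 X ×ˢ Icc 1 X).filter (fun t : ℕ × ℕ =>
    (IsCoprime (N1 + (t.1 : ℤ)) (N2 + (t.2 : ℤ)) ∧ N1 + (t.1 : ℤ) ≠ 0 ∧ N2 + (t.2 : ℤ) ≠ 0 ∧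
      N1 + (t.1 : ℤ) ≠ N2 + (t.2 : ℤ)) ∧ R + 1 ≤
      rk (EQ (D * (N1 + (t.1 : ℤ))) (D * (N2 + (t.2 : ℤ)))))
  have h5 : (bad.card : ℝ) ≤ ε / 2 * X ^ 2 := by
    have h6 : ∀ t ∈ bad, (2 : ℝ) ^ R ≤ SS D (N1 + (t.1 : ℤ), N2 + (t.2 : ℤ)) := by
      intro t ht
      obtain ⟨_, ⟨c1, c2, c3, c4⟩, ht3⟩ := mem_filter.1 ht
      have k3 : D * (N1 + (t.1 : ℤ)) ≠ D * (N2 + (t.2 : ℤ)) := fun h => c4 (mul_left_cancel₀ hD h)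
      obtain ⟨b1, b2⟩ := bd_EQ (mul_ne_zero hD c2) (mul_ne_zero hD c3) k3
      have b3 : 1 ≤ Nat.card {x : Pool.Agent.W262.SH.Sha (EQ (D * (N1 + (t.1 : ℤ)))
          (D * (N2 + (t.2 : ℤ)))) // x + x = 0} :=
        Nat.card_pos_iff.2 ⟨⟨⟨0, add_zero 0⟩⟩, b1⟩
      have b4 : (1 : ℝ) ≤ Nat.card {x : Pool.Agent.W262.SH.Sha (EQ (D * (N1 + (t.1 : ℤ)))
          (D * (N2 + (t.2 : ℤ)))) // x + x = 0} := by exact_mod_cast b3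
      have b5 : (2 : ℝ) ^ R ≤ 2 ^ rk (EQ (D * (N1 + (t.1 : ℤ))) (D * (N2 + (t.2 : ℤ)))) :=
        pow_le_pow_right₀ (by norm_num) (by omega)
      have b6 : (2 : ℝ) ^ R ≤ SN (D * (N1 + (t.1 : ℤ))) (D * (N2 + (t.2 : ℤ))) :=
        b5.trans ((le_mul_of_one_le_right (by positivity) b4).trans b2)
      have b7 : (1 : ℝ) ≤ SN (D * (N1 + (t.1 : ℤ))) (D * (N2 + (t.2 : ℤ))) :=
        (one_le_pow₀ (by norm_num)).trans b6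
      unfold SS
      rw [if_pos ⟨c1, c2, c3, c4⟩]
      change (2 : ℝ) ^ R ≤ SN (D * (N1 + (t.1 : ℤ))) (D * (N2 + (t.2 : ℤ))) ^ 2
      nlinarith
    have h7 : (bad.card : ℝ) * 2 ^ R ≤ C1' * X ^ 2 := by
      rw [← nsmul_eq_mul]
      refine (card_nsmul_le_sum _ _ _ h6).trans (le_trans ?_ h3)
      refine sum_le_sum_of_subset_of_nonneg (filter_subset _ _) fun t _ _ => ?_
      unfold SS
      split_ifs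
      · positivity
      · exact le_rfl
    have h8 : (0 : ℝ) < 2 ^ R := by positivity
    rw [div_le_iff₀ hε] at hR
    have h9 : C1' * X ^ 2 ≤ (ε / 2 * X ^ 2) * 2 ^ R := by
      have h10 : (0 : ℝ) ≤ (X : ℝ) ^ 2 := by positivity
      nlinarith
    exact le_of_mul_le_mul_right (h7.trans h9) h8
  have h10 : (Icc 1 X ×ˢ Icc 1 X).filter (fun t : ℕ × ℕ =>
        IsCoprime (N1 + (t.1 : ℤ)) (N2 + (t.2 : ℤ)) ∧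
        ¬ (N1 + (t.1 : ℤ) ≠ 0 ∧ N2 + (t.2 : ℤ) ≠ 0 ∧ N1 + (t.1 : ℤ) ≠ N2 + (t.2 : ℤ) ∧
        ∃ k : ℕ, (1 - δ) * Real.log (Real.log X) ≤ k ∧
        ∃ φ : (Fin k → ZMod 2) →+ Sha (WI (D * (N1 + (t.1 : ℤ))) (D * (N2 + (t.2 : ℤ)))),
          Function.Injective φ)) ⊆
      (Icc 1 X ×ˢ Icc 1 X).filter (fun t : ℕ × ℕ =>
      IsCoprime (N1 + (t.1 : ℤ)) (N2 + (t.2 : ℤ)) ∧
      ¬ (N1 + (t.1 : ℤ) ≠ 0 ∧ N2 + (t.2 : ℤ) ≠ 0 ∧ N1 + (t.1 : ℤ) ≠ N2 + (t.2 : ℤ) ∧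
        (1 - δ / 2) * Real.log (Real.log X) +
          ((C1 (D * (N1 + (t.1 : ℤ))) (D * (N2 + (t.2 : ℤ)))).card : ℝ) ≤
        ((GA (D * (N1 + (t.1 : ℤ))) (D * (N2 + (t.2 : ℤ)))).card : ℝ))) ∪ bad := by
    intro t ht
    obtain ⟨ht1, ht2, ht3⟩ := mem_filter.1 ht
    by_contra hcon
    rw [mem_union, not_or] at hcon
    obtain ⟨n1, n2⟩ := hcon
    have n1' : N1 + (t.1 : ℤ) ≠ 0 ∧ N2 + (t.2 : ℤ) ≠ 0 ∧ N1 + (t.1 : ℤ) ≠ N2 + (t.2 : ℤ) ∧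
        (1 - δ / 2) * Real.log (Real.log X) +
          ((C1 (D * (N1 + (t.1 : ℤ))) (D * (N2 + (t.2 : ℤ)))).card : ℝ) ≤
        ((GA (D * (N1 + (t.1 : ℤ))) (D * (N2 + (t.2 : ℤ)))).card : ℝ) := by
      by_contra h'
      exact n1 (mem_filter.2 ⟨ht1, ht2, h'⟩)
    obtain ⟨m1, m2, m3, m4⟩ := n1'
    have n3' : rk (EQ (D * (N1 + (t.1 : ℤ))) (D * (N2 + (t.2 : ℤ)))) ≤ R := by
      by_contra h'
      exact n2 (mem_filter.2 ⟨ht1, ⟨ht2, m1, m2, m3⟩, by omega⟩)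
    apply ht3
    refine ⟨m1, m2, m3, ?_⟩
    have k3 : D * (N1 + (t.1 : ℤ)) ≠ D * (N2 + (t.2 : ℤ)) := fun h => m3 (mul_left_cancel₀ hD h)
    obtain ⟨k, hk, hφ⟩ := one_curve hs hLA hLB hLC hL (D * (N1 + (t.1 : ℤ)))
      (D * (N2 + (t.2 : ℤ))) 1 k3 (mul_ne_zero hD m1) (mul_ne_zero hD m2) one_ne_zero
    rw [one_pow, mul_one, mul_one] at hk hφ
    refine ⟨k, ?_, hφ⟩
    have hk' : ((GA (D * (N1 + (t.1 : ℤ))) (D * (N2 + (t.2 : ℤ)))).card : ℝ) ≤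
        k + ((C1 (D * (N1 + (t.1 : ℤ))) (D * (N2 + (t.2 : ℤ)))).card : ℝ) + R + 7 := by
      have : (GA (D * (N1 + (t.1 : ℤ))) (D * (N2 + (t.2 : ℤ)))).card ≤
        k + (C1 (D * (N1 + (t.1 : ℤ))) (D * (N2 + (t.2 : ℤ)))).card + R + 7 := by omega
      exact_mod_cast this
    linarith
  have h11 := (card_le_card h10).trans (card_union_le _ _)
  have h12 : (((Icc 1 X ×ˢ Icc 1 X).filter (fun t : ℕ × ℕ =>
        IsCoprime (N1 + (t.1 : ℤ)) (N2 + (t.2 : ℤ)) ∧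
        ¬ (N1 + (t.1 : ℤ) ≠ 0 ∧ N2 + (t.2 : ℤ) ≠ 0 ∧ N1 + (t.1 : ℤ) ≠ N2 + (t.2 : ℤ) ∧
        ∃ k : ℕ, (1 - δ) * Real.log (Real.log X) ≤ k ∧
        ∃ φ : (Fin k → ZMod 2) →+ Sha (WI (D * (N1 + (t.1 : ℤ))) (D * (N2 + (t.2 : ℤ)))),
          Function.Injective φ))).card : ℝ) ≤
      (((Icc 1 X ×ˢ Icc 1 X).filter (fun t : ℕ × ℕ =>
      IsCoprime (N1 + (t.1 : ℤ)) (N2 + (t.2 : ℤ)) ∧
      ¬ (N1 + (t.1 : ℤ) ≠ 0 ∧ N2 + (t.2 : ℤ) ≠ 0 ∧ N1 + (t.1 : ℤ) ≠ N2 + (t.2 : ℤ) ∧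
        (1 - δ / 2) * Real.log (Real.log X) +
          ((C1 (D * (N1 + (t.1 : ℤ))) (D * (N2 + (t.2 : ℤ)))).card : ℝ) ≤
        ((GA (D * (N1 + (t.1 : ℤ))) (D * (N2 + (t.2 : ℤ)))).card : ℝ)))).card : ℝ) +
        (bad.card : ℝ) := by
    exact_mod_cast h11
  linarith

end Pool.Agent.TH841.LS
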